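import Mathlib

/-! A graph that is `(4,1)`-DP-colourable and not `(8,2)`-DP-colourable. -/

set_option autoImplicit false

namespace Pool.Agent.H433Z.DP

/-- at most one -/
def One {α : Type} (P : α → Prop) : Prop := ∀ i j, P i → P j → i = j

/-- a matching -/
def Mt {α β : Type} (R : α → β → Prop) : Prop := (∀ x, One (R x)) ∧ ∀ y, One (fun x => R x y)

lemma One.pt {n : ℕ} {P : Fin (n + 1) → Prop} (h : One P) : ∃ p, ∀ x, P x → x = p := by
  by_cases h0 : ∃ p, P p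
  · obtain ⟨p, hp⟩ := h0
    exact ⟨p, fun x hx => h x p hx hp⟩
  · exact ⟨0, fun x hx => (h0 ⟨x, hx⟩).elim⟩

lemma php2 {P : Fin 2 → Prop} (hP : One P) : ∃ x, ¬ P x := by
  obtain ⟨p, hp⟩ := hP.pt
  obtain ⟨x, hx⟩ : ∃ x : Fin 2, x ≠ p := by clear hp; revert p; decide
  exact ⟨x, fun h => hx (hp x h)⟩

lemma php3 {P Q : Fin 3 → Prop} (hP : One P) (hQ : One Q) : ∃ x, ¬ P x ∧ ¬ Q x := by
  obtain ⟨p, hp⟩ := hP.pt
  obtain ⟨q, hq⟩ := hQ.pt
  obtain ⟨x, hx⟩ : ∃ x : Fin 3, x ≠ p ∧ x ≠ q := by clear hp hq; revert p q; decide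
  exact ⟨x, fun h => hx.1 (hp x h), fun h => hx.2 (hq x h)⟩

lemma php4 {P Q R : Fin 4 → Prop} (hP : One P) (hQ : One Q) (hR : One R) :
    ∃ x, ¬ P x ∧ ¬ Q x ∧ ¬ R x := by
  obtain ⟨p, hp⟩ := hP.pt
  obtain ⟨q, hq⟩ := hQ.pt
  obtain ⟨r, hr⟩ := hR.pt
  obtain ⟨x, hx⟩ : ∃ x : Fin 4, x ≠ p ∧ x ≠ q ∧ x ≠ r := by clear hp hq hr; revert p q r; decide
  exact ⟨x, fun h => hx.1 (hp x h), fun h => hx.2.1 (hq x h), fun h => hx.2.2 (hr x h)⟩

lemma two3 (x y z : Fin 2) : x = y ∨ x = z ∨ y = z := by revert x y z; decide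

lemma core (ab : Fin 2 → Fin 3 → Prop) (ac : Fin 2 → Fin 4 → Prop) (bc : Fin 3 → Fin 4 → Prop)
    (bd : Fin 3 → Fin 3 → Prop) (dc : Fin 3 → Fin 4 → Prop) (ec : Fin 2 → Fin 4 → Prop)
    (ed : Fin 2 → Fin 3 → Prop) (gd : Fin 2 → Fin 3 → Prop) (ge : Fin 2 → Fin 2 → Prop)
    (hab : Mt ab) (hac : Mt ac) (hbc : Mt bc) (hbd : Mt bd) (hdc : Mt dc) (hec : Mt ec)
    (hed : Mt ed) (hgd : Mt gd) (hge : Mt ge) :
    ∃ a b c d e g, ¬ ab a b ∧ ¬ ac a c ∧ ¬ bc b c ∧ ¬ bd b d ∧ ¬ dc d c ∧ ¬ ec e c ∧ ¬ ed e d ∧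
      ¬ gd g d ∧ ¬ ge g e := by
  by_contra hcon
  let BL : Fin 4 → Fin 3 → Prop := fun c d => ∀ a b, ab a b ∨ ac a c ∨ bc b c ∨ bd b d
  let BR : Fin 4 → Fin 3 → Prop := fun c d => ∀ e g, ge g e ∨ ec e c ∨ ed e d ∨ gd g d
  let dead : Fin 3 → Prop := fun d => ∀ e g, ge g e ∨ ed e d ∨ gd g d
  have all : ∀ c d, ¬ BL c d → ¬ BR c d → ¬ dc d c → False := by
    intro c d h1 h2 h3
    simp only [BL, BR, not_forall, not_or] at h1 h2
    obtain ⟨a, b, k1, k2, k3, k4⟩ := h1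
    obtain ⟨e, g, k5, k6, k7, k8⟩ := h2
    exact hcon ⟨a, b, c, d, e, g, k1, k2, k3, k4, h3, k6, k7, k8, k5⟩
  have L1 : ∀ c d, BL c d → ∃ a, ac a c := by
    intro c d h
    by_contra hn
    obtain ⟨b, h1, h2⟩ := php3 (hbc.2 c) (hbd.2 d)
    obtain ⟨a, h3⟩ := php2 (hab.2 b)
    rcases h a b with k | k | k | k
    exacts [h3 k, hn ⟨a, k⟩, h1 k, h2 k]
  have L2 : ∀ c d d', BL c d → BL c d' → d = d' := by
    intro c d d' h h'
    obtain ⟨a, h1⟩ := php2 (hac.2 c)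
    obtain ⟨b, h2, h3⟩ := php3 (hab.1 a) (hbc.2 c)
    have k : bd b d := by rcases h a b with k | k | k | k; exacts [(h2 k).elim, (h1 k).elim, (h3 k).elim, k]
    have k' : bd b d' := by
      rcases h' a b with k | k | k | k; exacts [(h2 k).elim, (h1 k).elim, (h3 k).elim, k]
    exact hbd.1 b d d' k k'
  have R1 : ∀ d, ¬ dead d → One fun c => BR c d := by
    intro d h c c' h1 h2
    simp only [dead, not_forall, not_or] at h
    obtain ⟨e, g, k1, k2, k3⟩ := h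
    have k : ec e c := by
      rcases h1 e g with k | k | k | k; exacts [(k1 k).elim, k, (k2 k).elim, (k3 k).elim]
    have k' : ec e c' := by
      rcases h2 e g with k | k | k | k; exacts [(k1 k).elim, k, (k2 k).elim, (k3 k).elim]
    exact hec.1 e c c' k k'
  have R2 : ∀ d, dead d → (∃ e, ed e d) ∧ ∃ g, gd g d := by
    intro d h
    constructor
    · by_contra hn
      obtain ⟨g, h1⟩ := php2 (hgd.2 d)
      obtain ⟨e, h2⟩ := php2 (hge.1 g)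
      rcases h e g with k | k | k
      exacts [h2 k, hn ⟨e, k⟩, h1 k]
    · by_contra hn
      obtain ⟨e, h1⟩ := php2 (hed.2 d)
      obtain ⟨g, h2⟩ := php2 (hge.2 e)
      rcases h e g with k | k | k
      exacts [h2 k, h1 k, hn ⟨g, k⟩]
  have two : ∀ d1 d2, d1 ≠ d2 → ¬ dead d1 → ¬ dead d2 → False := by
    intro d1 d2 hne h1 h2
    by_cases h : One fun c => BL c d1
    · obtain ⟨c, k1, k2, k3⟩ := php4 h (R1 d1 h1) (hdc.1 d1)
      exact all c d1 k1 k2 k3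
    · simp only [One, not_forall] at h
      obtain ⟨c, c', k1, k2, k3⟩ := h
      have h' : One fun c => BL c d2 := by
        intro x y hx _
        obtain ⟨a, ha⟩ := L1 c d1 k1
        obtain ⟨a', ha'⟩ := L1 c' d1 k2
        obtain ⟨a'', ha''⟩ := L1 x d2 hx
        exfalso
        rcases two3 a a' a'' with e | e | e
        · exact k3 (hac.1 a c c' ha (e ▸ ha'))
        · have : c = x := hac.1 a c x ha (e ▸ ha'')
          exact hne (L2 c d1 d2 k1 (this ▸ hx))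
        · have : c' = x := hac.1 a' c' x ha' (e ▸ ha'')
          exact hne (L2 c' d1 d2 k2 (this ▸ hx))
      obtain ⟨c, k1, k2, k3⟩ := php4 h' (R1 d2 h2) (hdc.1 d2)
      exact all c d2 k1 k2 k3
  have free : ∀ d1 d2 d, d1 ≠ d2 → d1 ≠ d → d2 ≠ d → dead d1 → dead d2 → False := by
    intro d1 d2 d n12 n1 n2 h1 h2
    obtain ⟨⟨e1, he1⟩, g1, hg1⟩ := R2 d1 h1
    obtain ⟨⟨e2, he2⟩, g2, hg2⟩ := R2 d2 h2
    have fe : ∀ e, ¬ ed e d := fun e he => by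
      rcases two3 e1 e2 e with k | k | k
      exacts [n12 (hed.1 e1 _ _ he1 (k ▸ he2)), n1 (hed.1 e1 _ _ he1 (k ▸ he)),
        n2 (hed.1 e2 _ _ he2 (k ▸ he))]
    have fg : ∀ g, ¬ gd g d := fun g hg => by
      rcases two3 g1 g2 g with k | k | k
      exacts [n12 (hgd.1 g1 _ _ hg1 (k ▸ hg2)), n1 (hgd.1 g1 _ _ hg1 (k ▸ hg)),
        n2 (hgd.1 g2 _ _ hg2 (k ▸ hg))]
    obtain ⟨c, k1, k2, k3⟩ := php4 (hac.1 0) (hac.1 1) (hdc.1 d)
    refine all c d (fun h => ?_) (fun h => ?_) k3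
    · obtain ⟨a, ha⟩ := L1 c d h
      rcases two3 a 0 1 with k | k | k
      exacts [k1 (k ▸ ha), k2 (k ▸ ha), absurd k (by decide)]
    · obtain ⟨e, h3⟩ := php2 (hec.2 c)
      obtain ⟨g, h4⟩ := php2 (hge.2 e)
      rcases h e g with k | k | k | k
      exacts [h4 k, h3 k, fe e k, fg g k]
  by_cases d0 : dead 0 <;> by_cases d1 : dead 1 <;> by_cases d2 : dead 2
  · exact free 0 1 2 (by decide) (by decide) (by decide) d0 d1
  · exact free 0 1 2 (by decide) (by decide) (by decide) d0 d1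
  · exact free 0 2 1 (by decide) (by decide) (by decide) d0 d2
  · exact two 1 2 (by decide) d1 d2
  · exact free 1 2 0 (by decide) (by decide) (by decide) d1 d2
  · exact two 0 2 (by decide) d0 d2
  · exact two 0 1 (by decide) d0 d1
  · exact two 0 1 (by decide) d0 d1

lemma emb2 {P Q : Fin 4 → Prop} (hP : One P) (hQ : One Q) :
    ∃ ι : Fin 2 → Fin 4, Function.Injective ι ∧ ∀ x, ¬ P (ι x) ∧ ¬ Q (ι x) := by
  obtain ⟨p, hp⟩ := hP.pt
  obtain ⟨q, hq⟩ := hQ.pt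
  obtain ⟨ι, h1, h2⟩ : ∃ ι : Fin 2 → Fin 4, Function.Injective ι ∧ ∀ x, ι x ≠ p ∧ ι x ≠ q := by
    clear hp hq; revert p q; decide
  exact ⟨ι, h1, fun x => ⟨fun h => (h2 x).1 (hp _ h), fun h => (h2 x).2 (hq _ h)⟩⟩

lemma emb3 {P : Fin 4 → Prop} (hP : One P) :
    ∃ ι : Fin 3 → Fin 4, Function.Injective ι ∧ ∀ x, ¬ P (ι x) := by
  obtain ⟨p, hp⟩ := hP.pt
  exact ⟨p.succAbove, Fin.succAbove_right_injective, fun x h => Fin.succAbove_ne p x (hp _ h)⟩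

/-- edges of the gadget -/
def eF (u v : Fin 6) : Bool :=
  (u, v) ∈ [(0, 3), (0, 5), (1, 2), (1, 4), (2, 4), (2, 5), (3, 4), (3, 5), (4, 5),
    (3, 0), (5, 0), (2, 1), (4, 1), (4, 2), (5, 2), (4, 3), (5, 3), (5, 4)]

/-- edges from the hubs -/
def eH (h : Fin 2) (v : Fin 6) : Bool := if h = 0 then v < 3 else v < 5

/-- index of the copies -/
abbrev K := Fin 8 × Fin 8 × Fin 8 × Fin 8

/-- vertices -/
abbrev V := Fin 2 ⊕ (K × Fin 6)

/-- adjacency -/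
def gAdj : V → V → Prop
  | .inl _, .inl _ => False
  | .inl h, .inr x => eH h x.2
  | .inr x, .inl h => eH h x.2
  | .inr x, .inr y => x.1 = y.1 ∧ eF x.2 y.2

lemma eF_symm : ∀ u v, eF u v → eF v u := by decide

lemma eF_irr : ∀ v, ¬ eF v v = true := by decide

/-- the graph -/
def G : SimpleGraph V where
  Adj := gAdj
  symm := ⟨by
    rintro (h | x) (k | y) e
    exacts [e, e, e, ⟨e.1.symm, eF_symm _ _ e.2⟩]⟩
  loopless := ⟨by
    rintro (h | ⟨κ, v⟩) e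
    · exact e
    · exact eF_irr v e.2⟩

lemma colourable (H : SimpleGraph (V × Fin 4)) (h1 : ∀ x y, H.Adj x y → G.Adj x.1 y.1)
    (h2 : ∀ x v j k, H.Adj x (v, j) → H.Adj x (v, k) → j = k) :
    ∃ f : V → Finset (Fin 4), (∀ v, (f v).card = 1) ∧
      ∀ u v, ∀ i ∈ f u, ∀ j ∈ f v, ¬ H.Adj (u, i) (v, j) := by
  have key : ∀ κ : K, ∃ col : Fin 6 → Fin 4,
      (∀ h v, ¬ H.Adj (.inl h, 0) (.inr (κ, v), col v)) ∧
      ∀ u v, ¬ H.Adj (.inr (κ, u), col u) (.inr (κ, v), col v) := by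
    intro κ
    have o : ∀ h v, One fun i => H.Adj (.inl h, 0) (.inr (κ, v), i) :=
      fun h v i j => h2 _ _ i j
    obtain ⟨i0, j0, k0⟩ := emb2 (o 0 0) (o 1 0)
    obtain ⟨i1, j1, k1⟩ := emb2 (o 0 1) (o 1 1)
    obtain ⟨i2, j2, k2⟩ := emb2 (o 0 2) (o 1 2)
    obtain ⟨i3, j3, k3⟩ := emb3 (o 1 3)
    obtain ⟨i4, j4, k4⟩ := emb3 (o 1 4)
    have m : ∀ {α β : Type} (u v : Fin 6) (a : α → Fin 4) (b : β → Fin 4), Function.Injective a →
        Function.Injective b →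
        Mt fun x y => H.Adj (.inr (κ, u), a x) (.inr (κ, v), b y) := fun u v a b ha hb =>
      ⟨fun x y y' e e' => hb (h2 _ _ _ _ e e'), fun y x x' e e' => ha (h2 _ _ _ _ e.symm e'.symm)⟩
    have j5 : Function.Injective (id : Fin 4 → Fin 4) := Function.injective_id
    obtain ⟨a, b, c, d, e, g, n1, n2, n3, n4, n5, n6, n7, n8, n9⟩ := core _ _ _ _ _ _ _ _ _
      (m 0 3 _ _ j0 j3) (m 0 5 _ _ j0 j5) (m 3 5 _ _ j3 j5) (m 3 4 _ _ j3 j4) (m 4 5 _ _ j4 j5)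
      (m 2 5 _ _ j2 j5) (m 2 4 _ _ j2 j4) (m 1 4 _ _ j1 j4) (m 1 2 _ _ j1 j2)
    refine ⟨![i0 a, i1 g, i2 e, i3 b, i4 d, c], fun h v e => ?_, fun u v e => ?_⟩
    · have e' : eH h v = true := h1 _ _ e
      fin_cases h <;> fin_cases v <;>
        first
        | exact absurd e' (by decide)
        | exact (k0 _).1 e
        | exact (k0 _).2 e
        | exact (k1 _).1 e
        | exact (k1 _).2 e
        | exact (k2 _).1 e
        | exact (k2 _).2 e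
        | exact k3 _ e
        | exact k4 _ e
    · have e' : eF u v = true := (h1 _ _ e).2
      fin_cases u <;> fin_cases v <;>
        first
        | exact absurd e' (by decide)
        | exact n1 e | exact n2 e | exact n3 e | exact n4 e | exact n5 e | exact n6 e
        | exact n7 e | exact n8 e | exact n9 e
        | exact n1 e.symm | exact n2 e.symm | exact n3 e.symm | exact n4 e.symm | exact n5 e.symm
        | exact n6 e.symm | exact n7 e.symm | exact n8 e.symm | exact n9 e.symm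
  choose col c1 c2 using key
  refine ⟨fun v => {Sum.elim (fun _ => 0) (fun x => col x.1 x.2) v}, fun v => Finset.card_singleton _, ?_⟩
  rintro (h | ⟨κ, u⟩) (k | ⟨κ', v⟩) i hi j hj e <;> rw [Finset.mem_singleton] at hi hj <;>
    subst hi hj
  · exact h1 _ _ e
  · exact c1 _ _ _ e
  · exact c1 _ _ _ e.symm
  · obtain rfl : κ = κ' := (h1 _ _ e).1
    exact c2 _ _ _ e

/-- the partner of a colour along an edge of the gadget (`8` for none) -/
def tb (u v : Fin 6) : List ℕ :=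
  match u.val, v.val with
  | 0, 3 => [5, 2, 0, 4]
  | 0, 5 => [7, 6, 0, 4]
  | 1, 2 => [3, 0, 2, 1]
  | 1, 4 => [5, 3, 2, 4]
  | 2, 4 => [3, 1, 2, 5]
  | 2, 5 => [2, 5, 1, 0]
  | 3, 4 => [4, 1, 3, 0, 5, 2]
  | 3, 5 => [2, 1, 6, 0, 4, 7]
  | 4, 5 => [3, 5, 4, 7, 2, 0]
  | _, _ => []

/-- the bad cover on the gadget -/
def aF (u : Fin 6) (i : Fin 8) (v : Fin 6) (j : Fin 8) : Bool :=
  (tb u v).getD i 8 == j.val || (tb v u).getD j 8 == i.val

/-- the bad cover between hubs and a copy -/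
def aH (h : Fin 2) (i : Fin 8) (κ : K) (v : Fin 6) (j : Fin 8) : Prop :=
  eH h v ∧ (h = 0 ∧ κ.1 ≠ κ.2.1 ∧ (i = κ.1 ∧ j = 4 ∨ i = κ.2.1 ∧ j = 5) ∨
    h = 1 ∧ κ.2.2.1 ≠ κ.2.2.2 ∧ (i = κ.2.2.1 ∧ j = 6 ∨ i = κ.2.2.2 ∧ j = 7))

/-- adjacency of the bad cover -/
def hAdj : V × Fin 8 → V × Fin 8 → Prop
  | (.inl _, _), (.inl _, _) => False
  | (.inl h, i), (.inr x, j) => aH h i x.1 x.2 j
  | (.inr x, j), (.inl h, i) => aH h i x.1 x.2 j
  | (.inr x, i), (.inr y, j) => x.1 = y.1 ∧ aF x.2 i y.2 j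

lemma aF_edge : ∀ u i v j, aF u i v j → eF u v := by decide +kernel

lemma aF_one : ∀ u i v j k, aF u i v j → aF u i v k → j = k := by decide +kernel

/-- the bad cover -/
def HB : SimpleGraph (V × Fin 8) where
  Adj := hAdj
  symm := ⟨by
    rintro ⟨h | x, i⟩ ⟨k | y, j⟩ e
    exacts [e, e, e, ⟨e.1.symm, by have := e.2; rwa [aF, Bool.or_comm] at this⟩]⟩
  loopless := ⟨by
    rintro ⟨h | ⟨κ, v⟩, i⟩ e
    · exact e
    · exact G.irrefl (v := .inr (κ, v)) ⟨rfl, aF_edge _ _ _ _ e.2⟩⟩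

/-- pairs of colours -/
def prs (n : ℕ) : List (Fin 8 × Fin 8) :=
  (List.finRange 8 ×ˢ List.finRange 8).filter fun p => p.1 < p.2 && p.2.val < n

/-- compatibility of two pairs -/
def cp (u : Fin 6) (p : Fin 8 × Fin 8) (v : Fin 6) (q : Fin 8 × Fin 8) : Bool :=
  !aF u p.1 v q.1 && !aF u p.1 v q.2 && !aF u p.2 v q.1 && !aF u p.2 v q.2

lemma check : ((prs 8).all fun c => (prs 6).all fun d => !cp 4 d 5 c ||
    (((prs 6).all fun b => !(cp 3 b 5 c && cp 3 b 4 d) ||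
      (prs 4).all fun a => !(cp 0 a 3 b && cp 0 a 5 c)) ||
    (prs 4).all fun e => !(cp 2 e 5 c && cp 2 e 4 d) ||
      (prs 4).all fun g => !(cp 1 g 4 d && cp 1 g 2 e))) = true := by decide +kernel

lemma pair_of_card {s : Finset (Fin 8)} (h : s.card = 2) :
    ∃ p : Fin 8 × Fin 8, p.1 < p.2 ∧ p.1 ∈ s ∧ p.2 ∈ s := by
  obtain ⟨x, y, hne, rfl⟩ := Finset.card_eq_two.1 h
  rcases lt_or_gt_of_ne hne with k | k
  · exact ⟨(x, y), k, by simp, by simp⟩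
  · exact ⟨(y, x), k, by simp, by simp⟩

lemma mem_prs {n : ℕ} {p : Fin 8 × Fin 8} (h1 : p.1 < p.2) (h2 : p.2.val < n) : p ∈ prs n := by
  obtain ⟨x, y⟩ := p
  simp [prs, h1, h2] at *

lemma not_colourable : ¬ ∃ f : V → Finset (Fin 8), (∀ v, (f v).card = 2) ∧
    ∀ u v, ∀ i ∈ f u, ∀ j ∈ f v, ¬ HB.Adj (u, i) (v, j) := by
  rintro ⟨f, h1, h2⟩
  choose p p1 p2 p3 using fun v => pair_of_card (h1 v)
  let κ : K := ((p (.inl 0)).1, (p (.inl 0)).2, (p (.inl 1)).1, (p (.inl 1)).2)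
  have b6 : ∀ v : Fin 6, v < 5 → (p (.inr (κ, v))).2.val < 6 := by
    intro v hv
    have e : eH 1 v = true := by revert v; decide
    have n6 : (p (.inr (κ, v))).2 ≠ 6 := fun h =>
      h2 _ _ _ (p2 (.inl 1)) _ (p3 (.inr (κ, v))) ⟨e, Or.inr ⟨rfl, (p1 _).ne, Or.inl ⟨rfl, h⟩⟩⟩
    have n7 : (p (.inr (κ, v))).2 ≠ 7 := fun h =>
      h2 _ _ _ (p3 (.inl 1)) _ (p3 (.inr (κ, v))) ⟨e, Or.inr ⟨rfl, (p1 _).ne, Or.inr ⟨rfl, h⟩⟩⟩
    omega
  have b4 : ∀ v : Fin 6, v < 3 → (p (.inr (κ, v))).2.val < 4 := by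
    intro v hv
    have e : eH 0 v = true := by revert v; decide
    have n4 : (p (.inr (κ, v))).2 ≠ 4 := fun h =>
      h2 _ _ _ (p2 (.inl 0)) _ (p3 (.inr (κ, v))) ⟨e, Or.inl ⟨rfl, (p1 _).ne, Or.inl ⟨rfl, h⟩⟩⟩
    have n5 : (p (.inr (κ, v))).2 ≠ 5 := fun h =>
      h2 _ _ _ (p3 (.inl 0)) _ (p3 (.inr (κ, v))) ⟨e, Or.inl ⟨rfl, (p1 _).ne, Or.inr ⟨rfl, h⟩⟩⟩
    have := b6 v (by omega)
    omega
  have c : ∀ u v : Fin 6, cp u (p (.inr (κ, u))) v (p (.inr (κ, v))) = true := by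
    intro u v
    simp only [cp, Bool.and_eq_true, Bool.not_eq_true', ← Bool.not_eq_true]
    have h3 : ∀ i ∈ f (.inr (κ, u)), ∀ j ∈ f (.inr (κ, v)), ¬ aF u i v j = true :=
      fun i hi j hj e => h2 _ _ i hi j hj ⟨rfl, e⟩
    exact ⟨⟨⟨h3 _ (p2 _) _ (p2 _), h3 _ (p2 _) _ (p3 _)⟩, h3 _ (p3 _) _ (p2 _)⟩,
      h3 _ (p3 _) _ (p3 _)⟩
  have h := check
  rw [List.all_eq_true] at h
  have h := h _ (mem_prs (p1 (.inr (κ, 5))) (p (.inr (κ, 5))).2.isLt)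
  rw [List.all_eq_true] at h
  have h := h _ (mem_prs (p1 (.inr (κ, 4))) (b6 4 (by decide)))
  rw [c, Bool.not_true, Bool.false_or, Bool.or_eq_true, List.all_eq_true, List.all_eq_true] at h
  rcases h with h | h
  · have h := h _ (mem_prs (p1 (.inr (κ, 3))) (b6 3 (by decide)))
    rw [c, c, Bool.and_self, Bool.not_true, Bool.false_or, List.all_eq_true] at h
    have h := h _ (mem_prs (p1 (.inr (κ, 0))) (b4 0 (by decide)))
    rw [c, c] at h
    exact absurd h (by decide)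
  · have h := h _ (mem_prs (p1 (.inr (κ, 2))) (b4 2 (by decide)))
    rw [c, c, Bool.and_self, Bool.not_true, Bool.false_or, List.all_eq_true] at h
    have h := h _ (mem_prs (p1 (.inr (κ, 1))) (b4 1 (by decide)))
    rw [c, c] at h
    exact absurd h (by decide)

lemma HB_edge (x y : V × Fin 8) (e : HB.Adj x y) : G.Adj x.1 y.1 := by
  obtain ⟨h | x, i⟩ := x <;> obtain ⟨k | y, j⟩ := y
  exacts [e, e.1, e.1, ⟨e.1, aF_edge _ _ _ _ e.2⟩]

lemma HB_one (x : V × Fin 8) (v : V) (j k : Fin 8) (e : HB.Adj x (v, j)) (e' : HB.Adj x (v, k)) :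
    j = k := by
  obtain ⟨h | x, i⟩ := x <;> obtain h' | y := v
  · exact e.elim
  · obtain ⟨-, e⟩ := e
    obtain ⟨-, e'⟩ := e'
    grind
  · obtain ⟨-, e⟩ := e
    obtain ⟨-, e'⟩ := e'
    grind
  · exact aF_one _ _ _ _ _ e.2 e'.2

end Pool.Agent.H433Z.DP
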