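import Mathlib

/-! The full group C*-algebra of a discrete group as a Banach space, and its dual `B(G)`. -/

set_option autoImplicit false

namespace Pool.Agent.H433Z.FS

/-- A unitary representation of the group `G` on a complex Hilbert space: an action of `G` by
linear isometries. -/
structure UnitaryRep (G : Type) [Group G] : Type 1 where
  /-- the Hilbert space -/
  H : Type
  [normed : NormedAddCommGroup H]
  [inner : InnerProductSpace ℂ H]
  [complete : CompleteSpace H]
  /-- the action -/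
  act : G → H → H
  act_one : ∀ v, act 1 v = v
  act_mul : ∀ g h v, act (g * h) v = act g (act h v)
  act_linear : ∀ g, IsLinearMap ℂ (act g)
  act_norm : ∀ g v, ‖act g v‖ = ‖v‖

attribute [instance] UnitaryRep.normed UnitaryRep.inner UnitaryRep.complete

variable {G : Type} [Group G]

/-- The full (maximal) C*-norm: the supremum of `‖π(a) v‖ = ‖∑ a(g) π(g) v‖` over all unitary
representations `π` and all vectors `v` of norm at most one. -/
noncomputable def fullNorm (a : G →₀ ℂ) : ℝ :=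
  sSup {t | ∃ (ρ : UnitaryRep G) (v : ρ.H), ‖v‖ ≤ 1 ∧ t = ‖∑ g ∈ a.support, a g • ρ.act g v‖}

/-- Auxiliary (used in proofs only): a unitary representation as a homomorphism. -/
structure URep (G : Type) [Group G] : Type 1 where
  /-- the Hilbert space -/
  H : Type
  [normed : NormedAddCommGroup H]
  [inner : InnerProductSpace ℂ H]
  [complete : CompleteSpace H]
  /-- the representation -/
  act : G →* unitary (H →L[ℂ] H)

attribute [instance] URep.normed URep.inner URep.complete

/-- The operator `π(a) = ∑ a(g) π(g)` of an element `a` of the group algebra. -/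
noncomputable def URep.op (ρ : URep G) (a : G →₀ ℂ) : ρ.H →L[ℂ] ρ.H :=
  a.sum fun g c => c • (ρ.act g : ρ.H →L[ℂ] ρ.H)

lemma URep.op_eq (ρ : URep G) (a : G →₀ ℂ) :
    ρ.op a = Finsupp.linearCombination ℂ (fun g => (ρ.act g : ρ.H →L[ℂ] ρ.H)) a := rfl

lemma URep.op_apply (ρ : URep G) (a : G →₀ ℂ) (v : ρ.H) :
    ρ.op a v = ∑ g ∈ a.support, a g • (ρ.act g : ρ.H →L[ℂ] ρ.H) v := by
  simp [URep.op, Finsupp.sum]

lemma URep.norm_op_le (ρ : URep G) (a : G →₀ ℂ) : ‖ρ.op a‖ ≤ ∑ g ∈ a.support, ‖a g‖ := by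
  refine (norm_sum_le _ _).trans (Finset.sum_le_sum fun g _ => ?_)
  rw [norm_smul]
  refine mul_le_of_le_one_right (norm_nonneg _) ?_
  refine ContinuousLinearMap.opNorm_le_bound _ zero_le_one fun x => ?_
  rw [ContinuousLinearMap.norm_map_of_mem_unitary (ρ.act g).2, one_mul]

lemma fullNorm_nonneg (a : G →₀ ℂ) : 0 ≤ fullNorm a :=
  Real.sSup_nonneg (by rintro _ ⟨ρ, v, -, rfl⟩; exact norm_nonneg _)

lemma le_fullNorm (ρ : URep G) (a : G →₀ ℂ) : ‖ρ.op a‖ ≤ fullNorm a := by
  refine ContinuousLinearMap.opNorm_le_of_unit_norm (fullNorm_nonneg a) fun v hv => ?_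
  refine le_csSup ⟨∑ g ∈ a.support, ‖a g‖, ?_⟩ ?_
  · rintro _ ⟨σ, w, hw, rfl⟩
    refine (norm_sum_le _ _).trans (Finset.sum_le_sum fun g _ => ?_)
    rw [norm_smul, σ.act_norm]
    exact mul_le_of_le_one_right (norm_nonneg _) hw
  · refine ⟨⟨ρ.H, fun g w => (ρ.act g : ρ.H →L[ℂ] ρ.H) w, fun w => by simp, fun g h w => by simp,
      fun g => ⟨map_add _, map_smul _⟩,
      fun g w => ContinuousLinearMap.norm_map_of_mem_unitary (ρ.act g).2 w⟩, v, hv.le, ?_⟩
    rw [ρ.op_apply]

lemma fullNorm_le {a : G →₀ ℂ} {c : ℝ} (hc : 0 ≤ c) (h : ∀ ρ : URep G, ‖ρ.op a‖ ≤ c) :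
    fullNorm a ≤ c := by
  refine Real.sSup_le ?_ hc
  rintro _ ⟨σ, v, hv, rfl⟩
  let A : G → σ.H →ₗᵢ[ℂ] σ.H := fun g => ⟨IsLinearMap.mk' _ (σ.act_linear g), σ.act_norm g⟩
  let U : G → σ.H →L[ℂ] σ.H := fun g => (A g).toContinuousLinearMap
  have U1 : U 1 = 1 := by ext x; exact σ.act_one x
  have Um : ∀ g h, U (g * h) = U g * U h := fun g h => by ext x; exact σ.act_mul g h x
  have Us : ∀ g, star (U g) = U g⁻¹ := by
    intro g
    rw [ContinuousLinearMap.star_eq_adjoint, eq_comm, ContinuousLinearMap.eq_adjoint_iff]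
    intro x y
    rw [← (A g).inner_map_map]
    congr 1
    change σ.act g (σ.act g⁻¹ x) = x
    rw [← σ.act_mul, mul_inv_cancel, σ.act_one]
  have Uu : ∀ g, U g ∈ unitary (σ.H →L[ℂ] σ.H) := fun g => by
    rw [Unitary.mem_iff, Us, ← Um, ← Um, inv_mul_cancel, mul_inv_cancel, U1]
    exact ⟨rfl, rfl⟩
  let ρ : URep G := ⟨σ.H,
    { toFun := fun g => ⟨U g, Uu g⟩
      map_one' := Subtype.ext U1
      map_mul' := fun g h => Subtype.ext (Um g h) }⟩
  have e : ∑ g ∈ a.support, a g • σ.act g v = ρ.op a v := (ρ.op_apply a v).symm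
  rw [e]
  refine ((ρ.op a).le_opNorm v).trans ?_
  exact (mul_le_of_le_one_right (norm_nonneg _) hv).trans (h ρ)

lemma fullNorm_zero : fullNorm (0 : G →₀ ℂ) = 0 :=
  le_antisymm (fullNorm_le le_rfl fun ρ => by rw [ρ.op_eq, map_zero, norm_zero]) (fullNorm_nonneg _)

lemma fullNorm_add_le (a b : G →₀ ℂ) : fullNorm (a + b) ≤ fullNorm a + fullNorm b :=
  fullNorm_le (add_nonneg (fullNorm_nonneg a) (fullNorm_nonneg b)) fun ρ => by
    rw [ρ.op_eq, map_add]
    exact (norm_add_le _ _).trans (add_le_add (le_fullNorm ρ a) (le_fullNorm ρ b))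

lemma fullNorm_neg_le (a : G →₀ ℂ) : fullNorm (-a) ≤ fullNorm a :=
  fullNorm_le (fullNorm_nonneg a) fun ρ => by
    rw [ρ.op_eq, map_neg, norm_neg]
    exact le_fullNorm ρ a

lemma fullNorm_neg (a : G →₀ ℂ) : fullNorm (-a) = fullNorm a :=
  le_antisymm (fullNorm_neg_le a) (by simpa using fullNorm_neg_le (-a))

lemma fullNorm_smul_le (c : ℂ) (a : G →₀ ℂ) : fullNorm (c • a) ≤ ‖c‖ * fullNorm a :=
  fullNorm_le (mul_nonneg (norm_nonneg c) (fullNorm_nonneg a)) fun ρ => by
    rw [ρ.op_eq, map_smul]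
    exact (norm_smul_le c _).trans (mul_le_mul_of_nonneg_left (le_fullNorm ρ a) (norm_nonneg c))

/-- The group algebra `ℂ[G]` (finitely supported functions), to carry the full C*-norm. -/
def GA (G : Type) [Group G] : Type := G →₀ ℂ

noncomputable instance : AddCommGroup (GA G) := inferInstanceAs (AddCommGroup (G →₀ ℂ))
noncomputable instance : Module ℂ (GA G) := inferInstanceAs (Module ℂ (G →₀ ℂ))

/-- The identity map from finitely supported functions to `GA G`. -/
noncomputable def toGA : (G →₀ ℂ) ≃ₗ[ℂ] GA G := LinearEquiv.refl ℂ _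

/-- The norm of `GA G` is `fullNorm`. -/
noncomputable instance : SeminormedAddCommGroup (GA G) :=
  AddGroupSeminorm.toSeminormedAddCommGroup
    { toFun := fun a => fullNorm (toGA.symm a)
      map_zero' := fullNorm_zero
      add_le' := fun a b => fullNorm_add_le (toGA.symm a) (toGA.symm b)
      neg' := fun a => fullNorm_neg (toGA.symm a) }

noncomputable instance : NormedSpace ℂ (GA G) where
  norm_smul_le c a := fullNorm_smul_le c (toGA.symm a)

/-- The full group C*-algebra `C*(G)`: the completion of `ℂ[G]` for the full C*-norm. -/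
abbrev CStar (G : Type) [Group G] : Type := UniformSpace.Completion (GA G)

/-- The group element `g` as an element of `C*(G)`. -/
noncomputable def delta (g : G) : CStar G := (toGA (Finsupp.single g 1) : GA G)

/-- The function `g ↦ φ(g)` on `G` of an element `φ` of `B(G) = C*(G)^*`. -/
noncomputable def coef (φ : WeakDual ℂ (CStar G)) (g : G) : ℂ := φ (delta g)

/-- A set `B` of elements `φ`, seen as functions `c φ` on `G`, contains the constant `1` and is
closed under pointwise products and under left and right translations. -/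
def InvAlg {X : Type} (c : X → G → ℂ) (B : Set X) : Prop :=
  (∃ e ∈ B, ∀ g, c e g = 1) ∧
  (∀ φ ∈ B, ∀ ψ ∈ B, ∃ θ ∈ B, ∀ g, c θ g = c φ g * c ψ g) ∧
  ∀ φ ∈ B, ∀ s : G, (∃ θ ∈ B, ∀ g, c θ g = c φ (s * g)) ∧ ∃ θ ∈ B, ∀ g, c θ g = c φ (g * s)

/-- `B` is closed under pointwise complex conjugation. -/
def ConjClosed {X Y : Type} (c : X → Y → ℂ) (B : Set X) : Prop :=
  ∀ φ ∈ B, ∃ θ ∈ B, ∀ g, c θ g = starRingEnd ℂ (c φ g)

/-- A subset `B` of the dual of `E` (its elements `φ` seen as the functions `g ↦ φ (δ g)`) is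
weak*-closed, unital, closed under products and translations, and not conjugation-closed. -/
def BadSet {E : Type} [NormedAddCommGroup E] [NormedSpace ℂ E] (δ : G → E)
    (B : Set (WeakDual ℂ E)) : Prop :=
  IsClosed B ∧ InvAlg (fun φ g => φ (δ g)) B ∧ ¬ ConjClosed (fun φ g => φ (δ g)) B

/-- Some complex subspace of the dual of `E` is a `BadSet`. -/
def HasBadSubalgebra {E : Type} [NormedAddCommGroup E] [NormedSpace ℂ E] (δ : G → E) : Prop :=
  ∃ B : Submodule ℂ (WeakDual ℂ E), BadSet δ (B : Set (WeakDual ℂ E))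

end Pool.Agent.H433Z.FS
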