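import Pool.Agent.H433Z.FSDefs

/-! General facts on `B(G)`: products, translates, and the GNS construction. -/

set_option autoImplicit false

namespace Pool.Agent.H433Z.FS

open UniformSpace
open scoped InnerProductSpace TensorProduct ComplexConjugate

variable {G : Type} [Group G]

/-- the embedding of the group algebra in `C*(G)` -/
noncomputable def emb : (G →₀ ℂ) →ₗ[ℂ] CStar G :=
  (Completion.toComplL : GA G →L[ℂ] CStar G).toLinearMap ∘ₗ toGA.toLinearMap

lemma emb_apply (a : G →₀ ℂ) : emb a = ((toGA a : GA G) : CStar G) := rfl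

lemma norm_emb (a : G →₀ ℂ) : ‖emb a‖ = fullNorm a := by
  rw [emb_apply, Completion.norm_coe]; rfl

lemma dense_emb : DenseRange (emb : (G →₀ ℂ) → CStar G) :=
  Completion.denseRange_coe.comp toGA.surjective.denseRange (Completion.continuous_coe _)

lemma emb_single (g : G) : emb (Finsupp.single g (1:ℂ)) = delta g := rfl

/-- pairing of a finitely supported function with a function -/
noncomputable def pair (f : G → ℂ) : (G →₀ ℂ) →ₗ[ℂ] ℂ := Finsupp.linearCombination ℂ f

omit [Group G] in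
lemma pair_single (f : G → ℂ) (g : G) (c : ℂ) : pair f (Finsupp.single g c) = c * f g := by
  simp [pair]

omit [Group G] in
lemma pair_apply (f : G → ℂ) (a : G →₀ ℂ) : pair f a = ∑ g ∈ a.support, a g * f g := by
  simp [pair, Finsupp.linearCombination_apply, Finsupp.sum]

lemma ev (φ : WeakDual ℂ (CStar G)) (a : G →₀ ℂ) : φ (emb a) = pair (coef φ) a := by
  induction a using Finsupp.induction_linear with
  | zero => simp
  | add a b ha hb => rw [map_add, map_add, map_add, ha, hb]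
  | single g c =>
    have : Finsupp.single g c = c • Finsupp.single g (1:ℂ) := by simp
    rw [pair_single, this, map_smul, map_smul, emb_single]; rfl

lemma coef_ext {φ ψ : WeakDual ℂ (CStar G)} (h : ∀ g, coef φ g = coef ψ g) : φ = ψ := by
  have e : coef φ = coef ψ := funext h
  refine DFunLike.coe_injective ?_
  refine dense_emb.equalizer (map_continuous φ) (map_continuous ψ) ?_
  funext a
  simp only [Function.comp_apply, ev, e]

lemma exists_dual (f : G → ℂ) (C : ℝ) (h : ∀ a, ‖pair f a‖ ≤ C * fullNorm a) :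
    ∃ φ : WeakDual ℂ (CStar G), ∀ g, coef φ g = f g := by
  let L : GA G →L[ℂ] ℂ := ((pair f) ∘ₗ toGA.symm.toLinearMap).mkContinuous C
    (fun a => h (toGA.symm a))
  refine ⟨StrongDual.toWeakDual L.fromCompletion, fun g => ?_⟩
  change L.fromCompletion _ = _
  rw [delta, ContinuousLinearMap.fromCompletion_apply_coe]
  exact (pair_single f g 1).trans (one_mul _)

lemma exists_op (T : (G →₀ ℂ) →ₗ[ℂ] (G →₀ ℂ)) (C : ℝ) (h : ∀ a, fullNorm (T a) ≤ C * fullNorm a) :
    ∃ M : CStar G →L[ℂ] CStar G, ∀ a, M (emb a) = emb (T a) := by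
  let L : GA G →L[ℂ] GA G := (toGA.toLinearMap ∘ₗ T ∘ₗ toGA.symm.toLinearMap).mkContinuous C
    (fun a => h (toGA.symm a))
  refine ⟨L.completion, fun a => ?_⟩
  rw [emb_apply, ContinuousLinearMap.completion_apply_coe]
  rfl

/-- composition with a bounded operator -/
noncomputable def pull (M : CStar G →L[ℂ] CStar G) (φ : WeakDual ℂ (CStar G)) :
    WeakDual ℂ (CStar G) := StrongDual.toWeakDual (φ.toStrongDual.comp M)

lemma pull_apply (M : CStar G →L[ℂ] CStar G) (φ : WeakDual ℂ (CStar G)) (x : CStar G) :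
    pull M φ x = φ (M x) := rfl

lemma continuous_pull (M : CStar G →L[ℂ] CStar G) : Continuous (pull M) :=
  WeakDual.continuous_of_continuous_eval fun x => WeakDual.eval_continuous (M x)

lemma norm_pair_coef (φ : WeakDual ℂ (CStar G)) (a : G →₀ ℂ) :
    ‖pair (coef φ) a‖ ≤ ‖φ.toStrongDual‖ * fullNorm a := by
  rw [← ev, ← norm_emb]
  exact φ.toStrongDual.le_opNorm _

lemma op_single (ρ : URep G) (g : G) (c : ℂ) :
    ρ.op (Finsupp.single g c) = c • (ρ.act g : ρ.H →L[ℂ] ρ.H) := by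
  simp [ρ.op_eq]

lemma norm_coef_le (φ : WeakDual ℂ (CStar G)) (g : G) : ‖coef φ g‖ ≤ ‖φ.toStrongDual‖ := by
  have h := norm_pair_coef φ (Finsupp.single g 1)
  rw [pair_single, one_mul] at h
  refine h.trans (mul_le_of_le_one_right (norm_nonneg _) (fullNorm_le zero_le_one fun ρ => ?_))
  refine (ρ.norm_op_le _).trans ?_
  simp

lemma inner_op (ρ : URep G) (u v : ρ.H) (a : G →₀ ℂ) :
    ⟪v, ρ.op a u⟫_ℂ = pair (fun g => ⟪v, (ρ.act g : ρ.H →L[ℂ] ρ.H) u⟫_ℂ) a := by
  induction a using Finsupp.induction_linear with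
  | zero => simp [ρ.op_eq]
  | add a b ha hb =>
    rw [map_add, ← ha, ← hb, ρ.op_eq, map_add, ContinuousLinearMap.add_apply, inner_add_right]; rfl
  | single g c => rw [op_single, pair_single]; simp [inner_smul_right]

lemma norm_le_of_inner {H : Type} [NormedAddCommGroup H] [InnerProductSpace ℂ H] (T : H →L[ℂ] H)
    {C : ℝ} (hC : 0 ≤ C) (h : ∀ u v, ‖⟪v, T u⟫_ℂ‖ ≤ C * ‖v‖ * ‖u‖) : ‖T‖ ≤ C := by
  refine ContinuousLinearMap.opNorm_le_bound _ hC fun u => ?_
  have h1 := h u (T u)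
  rw [inner_self_eq_norm_sq_to_K, norm_pow, RCLike.norm_ofReal, abs_norm] at h1
  rcases (norm_nonneg (T u)).eq_or_lt with h0 | h0
  · rw [← h0]; positivity
  · nlinarith

/-- completion of a representation on a pre-Hilbert space -/
lemma exists_rep (E : Type) [SeminormedAddCommGroup E] [InnerProductSpace ℂ E]
    (T : G → E →L[ℂ] E) (h1 : ∀ x, T 1 x = x) (hm : ∀ g h x, T (g * h) x = T g (T h x))
    (hi : ∀ g x y, ⟪T g x, T g y⟫_ℂ = ⟪x, y⟫_ℂ) :
    ∃ (ρ : URep G) (j : E →ₗ[ℂ] ρ.H), (∀ x y, ⟪j x, j y⟫_ℂ = ⟪x, y⟫_ℂ) ∧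
      (∀ g x, (ρ.act g : ρ.H →L[ℂ] ρ.H) (j x) = j (T g x)) ∧ DenseRange j := by
  let U : G → Completion E →L[ℂ] Completion E := fun g => (T g).completion
  have U1 : U 1 = 1 := by
    ext x
    induction x using Completion.induction_on with
    | hp => exact isClosed_eq (by fun_prop) (by fun_prop)
    | ih a => simp [U, h1]
  have Um : ∀ g h, U (g * h) = U g * U h := by
    intro g h
    ext x
    induction x using Completion.induction_on with
    | hp => exact isClosed_eq (by fun_prop) (by fun_prop)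
    | ih a => simp [U, hm]
  have Us : ∀ g, star (U g) = U g⁻¹ := by
    intro g
    rw [ContinuousLinearMap.star_eq_adjoint, eq_comm, ContinuousLinearMap.eq_adjoint_iff]
    intro x y
    induction x, y using Completion.induction_on₂ with
    | hp => exact isClosed_eq (by fun_prop) (by fun_prop)
    | ih a b =>
      simp only [U, ContinuousLinearMap.completion_apply_coe, Completion.inner_coe]
      rw [← hi g (T g⁻¹ a) b, ← hm, mul_inv_cancel, h1]
  have Uu : ∀ g, U g ∈ unitary (Completion E →L[ℂ] Completion E) := fun g => by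
    rw [Unitary.mem_iff, Us, ← Um, ← Um, inv_mul_cancel, mul_inv_cancel, U1]
    exact ⟨rfl, rfl⟩
  let π : G →* unitary (Completion E →L[ℂ] Completion E) :=
    { toFun := fun g => ⟨U g, Uu g⟩
      map_one' := Subtype.ext U1
      map_mul' := fun g h => Subtype.ext (Um g h) }
  refine ⟨⟨Completion E, π⟩, (Completion.toComplL : E →L[ℂ] Completion E).toLinearMap,
    fun x y => Completion.inner_coe x y, fun g x => ?_, Completion.denseRange_coe⟩
  exact ContinuousLinearMap.completion_apply_coe (T g) x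

/-- pointwise multiplication by a function -/
noncomputable def mulF (c : G → ℂ) : (G →₀ ℂ) →ₗ[ℂ] (G →₀ ℂ) :=
  Finsupp.linearCombination ℂ fun g => Finsupp.single g (c g)

omit [Group G] in
lemma mulF_single (c : G → ℂ) (g : G) (x : ℂ) :
    mulF c (Finsupp.single g x) = Finsupp.single g (x * c g) := by
  simp [mulF]

omit [Group G] in
lemma pair_mulF (f c : G → ℂ) (a : G →₀ ℂ) : pair f (mulF c a) = pair (fun g => c g * f g) a := by
  induction a using Finsupp.induction_linear with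
  | zero => simp
  | add a b ha hb => simp only [map_add, ha, hb]
  | single g x => rw [mulF_single, pair_single, pair_single]; ring

lemma fullNorm_mulF_coef (ρ : URep G) (ξ η : ρ.H) (a : G →₀ ℂ) :
    fullNorm (mulF (fun g => ⟪η, (ρ.act g : ρ.H →L[ℂ] ρ.H) ξ⟫_ℂ) a)
      ≤ ‖η‖ * ‖ξ‖ * fullNorm a := by
  have h0 := fullNorm_nonneg a
  refine fullNorm_le (by positivity) fun σ => norm_le_of_inner _ (by positivity) fun u v => ?_
  let A : G → σ.H →ₗᵢ[ℂ] σ.H := fun g =>
    ⟨(σ.act g : σ.H →L[ℂ] σ.H).toLinearMap, ContinuousLinearMap.norm_map_of_mem_unitary (σ.act g).2⟩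
  let B : G → ρ.H →ₗᵢ[ℂ] ρ.H := fun g =>
    ⟨(ρ.act g : ρ.H →L[ℂ] ρ.H).toLinearMap, ContinuousLinearMap.norm_map_of_mem_unitary (ρ.act g).2⟩
  let T : G → (σ.H ⊗[ℂ] ρ.H) →L[ℂ] (σ.H ⊗[ℂ] ρ.H) := fun g =>
    (TensorProduct.mapIsometry (A g) (B g)).toContinuousLinearMap
  have Tt : ∀ g x y, T g (x ⊗ₜ y)
      = ((σ.act g : σ.H →L[ℂ] σ.H) x) ⊗ₜ ((ρ.act g : ρ.H →L[ℂ] ρ.H) y) := fun g x y => rfl
  obtain ⟨τ, j, hj, hπ, -⟩ := exists_rep (σ.H ⊗[ℂ] ρ.H) T
    (fun x => by
      induction x using TensorProduct.induction_on with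
      | zero => simp
      | tmul x y => simp [Tt]
      | add x y hx hy => simp [hx, hy])
    (fun g h x => by
      induction x using TensorProduct.induction_on with
      | zero => simp
      | tmul x y => simp [Tt]
      | add x y hx hy => simp [hx, hy])
    (fun g x y => (TensorProduct.mapIsometry (A g) (B g)).inner_map_map x y)
  have hn : ∀ x, ‖j x‖ = ‖x‖ := fun x => by
    rw [@norm_eq_sqrt_re_inner ℂ, @norm_eq_sqrt_re_inner ℂ _ _ _ _ x, hj]
  have e : ⟪v, σ.op (mulF (fun g => ⟪η, (ρ.act g : ρ.H →L[ℂ] ρ.H) ξ⟫_ℂ) a) u⟫_ℂ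
      = ⟪j (v ⊗ₜ η), τ.op a (j (u ⊗ₜ ξ))⟫_ℂ := by
    rw [inner_op, inner_op, pair_mulF]
    congr 2
    funext g
    rw [hπ, hj, Tt, TensorProduct.inner_tmul, mul_comm]
  rw [e]
  calc ‖⟪j (v ⊗ₜ η), τ.op a (j (u ⊗ₜ ξ))⟫_ℂ‖ ≤ ‖j (v ⊗ₜ η)‖ * ‖τ.op a (j (u ⊗ₜ ξ))‖ :=
        norm_inner_le_norm _ _
    _ ≤ ‖j (v ⊗ₜ η)‖ * (fullNorm a * ‖j (u ⊗ₜ ξ)‖) :=
        mul_le_mul_of_nonneg_left (((τ.op a).le_opNorm _).trans
          (mul_le_mul_of_nonneg_right (le_fullNorm τ a) (norm_nonneg _))) (norm_nonneg _)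
    _ = _ := by rw [hn, hn, TensorProduct.norm_tmul, TensorProduct.norm_tmul]; ring

lemma fullNorm_mulF_dual (φ : WeakDual ℂ (CStar G)) (a : G →₀ ℂ) :
    fullNorm (mulF (coef φ) a) ≤ ‖φ.toStrongDual‖ * fullNorm a := by
  have h0 := fullNorm_nonneg a
  refine fullNorm_le (by positivity) fun σ => norm_le_of_inner _ (by positivity) fun u v => ?_
  have e : ⟪v, σ.op (mulF (coef φ) a) u⟫_ℂ
      = pair (coef φ) (mulF (fun g => ⟪v, (σ.act g : σ.H →L[ℂ] σ.H) u⟫_ℂ) a) := by
    rw [inner_op, pair_mulF, pair_mulF]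
    simp only [mul_comm]
  rw [e]
  refine (norm_pair_coef φ _).trans ?_
  have := mul_le_mul_of_nonneg_left (fullNorm_mulF_coef σ u v a) (norm_nonneg φ.toStrongDual)
  linarith

lemma exists_mul (φ : WeakDual ℂ (CStar G)) :
    ∃ M : CStar G →L[ℂ] CStar G, ∀ ψ g, coef (pull M ψ) g = coef φ g * coef ψ g := by
  obtain ⟨M, hM⟩ := exists_op (mulF (coef φ)) _ (fullNorm_mulF_dual φ)
  refine ⟨M, fun ψ g => ?_⟩
  rw [coef, pull_apply, ← emb_single, hM, ev, mulF_single, pair_single, one_mul]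

lemma op_left (ρ : URep G) (s : G) (a : G →₀ ℂ) :
    ρ.op (Finsupp.lmapDomain ℂ ℂ (fun g => s * g) a) = (ρ.act s : ρ.H →L[ℂ] ρ.H) * ρ.op a := by
  induction a using Finsupp.induction_linear with
  | zero => simp [ρ.op_eq]
  | add a b ha hb =>
    rw [map_add, ρ.op_eq, map_add, ← ρ.op_eq, ← ρ.op_eq, ha, hb, ρ.op_eq (a + b), map_add, mul_add]
    rfl
  | single g c => simp [Finsupp.mapDomain_single, op_single]

lemma op_right (ρ : URep G) (s : G) (a : G →₀ ℂ) :
    ρ.op (Finsupp.lmapDomain ℂ ℂ (fun g => g * s) a) = ρ.op a * (ρ.act s : ρ.H →L[ℂ] ρ.H) := by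
  induction a using Finsupp.induction_linear with
  | zero => simp [ρ.op_eq]
  | add a b ha hb =>
    rw [map_add, ρ.op_eq, map_add, ← ρ.op_eq, ← ρ.op_eq, ha, hb, ρ.op_eq (a + b), map_add, add_mul]
    rfl
  | single g c => simp [Finsupp.mapDomain_single, op_single]

lemma exists_left (s : G) :
    ∃ M : CStar G →L[ℂ] CStar G, ∀ ψ g, coef (pull M ψ) g = coef ψ (s * g) := by
  obtain ⟨M, hM⟩ := exists_op (Finsupp.lmapDomain ℂ ℂ (fun g => s * g)) 1 (fun a => by
    rw [one_mul]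
    refine fullNorm_le (fullNorm_nonneg a) fun ρ => ?_
    rw [op_left, CStarRing.norm_coe_unitary_mul]
    exact le_fullNorm ρ a)
  refine ⟨M, fun ψ g => ?_⟩
  rw [coef, pull_apply, ← emb_single, hM, ev]
  simp [Finsupp.mapDomain_single, pair_single]

lemma exists_right (s : G) :
    ∃ M : CStar G →L[ℂ] CStar G, ∀ ψ g, coef (pull M ψ) g = coef ψ (g * s) := by
  obtain ⟨M, hM⟩ := exists_op (Finsupp.lmapDomain ℂ ℂ (fun g => g * s)) 1 (fun a => by
    rw [one_mul]
    refine fullNorm_le (fullNorm_nonneg a) fun ρ => ?_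
    rw [op_right, CStarRing.norm_mul_coe_unitary]
    exact le_fullNorm ρ a)
  refine ⟨M, fun ψ g => ?_⟩
  rw [coef, pull_apply, ← emb_single, hM, ev]
  simp [Finsupp.mapDomain_single, pair_single]

lemma exists_conv (a b : G →₀ ℂ) : ∃ c : G →₀ ℂ, ∀ ρ : URep G, ρ.op c = ρ.op a * ρ.op b := by
  induction a using Finsupp.induction_linear with
  | zero => exact ⟨0, fun ρ => by simp [ρ.op_eq]⟩
  | add a a' ha ha' =>
    obtain ⟨c, hc⟩ := ha
    obtain ⟨c', hc'⟩ := ha'
    refine ⟨c + c', fun ρ => ?_⟩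
    rw [ρ.op_eq, map_add, ← ρ.op_eq, ← ρ.op_eq, hc, hc', ρ.op_eq (a + a'), map_add, add_mul]
    rfl
  | single g x =>
    refine ⟨x • Finsupp.lmapDomain ℂ ℂ (fun h => g * h) b, fun ρ => ?_⟩
    rw [ρ.op_eq, map_smul, ← ρ.op_eq, op_left, op_single, smul_mul_assoc]

lemma exists_poly (h : G →₀ ℂ) (p : Polynomial ℝ) :
    ∃ b : G →₀ ℂ, ∀ ρ : URep G, ρ.op b = Polynomial.aeval (ρ.op h) p := by
  induction p using Polynomial.induction_on with
  | C c =>
    refine ⟨Finsupp.single 1 (c : ℂ), fun ρ => ?_⟩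
    rw [op_single, Polynomial.aeval_C, Algebra.algebraMap_eq_smul_one]
    simp
  | add p q hp hq =>
    obtain ⟨b, hb⟩ := hp
    obtain ⟨c, hc⟩ := hq
    refine ⟨b + c, fun ρ => ?_⟩
    rw [ρ.op_eq, map_add, ← ρ.op_eq, ← ρ.op_eq, hb, hc, map_add]
  | monomial n c ih =>
    obtain ⟨b, hb⟩ := ih
    obtain ⟨d, hd⟩ := exists_conv b h
    refine ⟨d, fun ρ => ?_⟩
    rw [hd, hb, pow_succ, ← mul_assoc, map_mul (Polynomial.aeval _) _ Polynomial.X,
      Polynomial.aeval_X]

/-- the form of a kernel -/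
noncomputable def form (φ : G → ℂ) (a b : G →₀ ℂ) : ℂ :=
  a.sum fun x c => b.sum fun y d => conj c * d * φ (x⁻¹ * y)

/-- pre-Hilbert space of the GNS construction -/
def Pre (_φ : G → ℂ) : Type := G →₀ ℂ

noncomputable instance (φ : G → ℂ) : AddCommGroup (Pre φ) :=
  inferInstanceAs (AddCommGroup (G →₀ ℂ))
noncomputable instance (φ : G → ℂ) : Module ℂ (Pre φ) := inferInstanceAs (Module ℂ (G →₀ ℂ))

/-- identity -/
noncomputable def toPre (φ : G → ℂ) : (G →₀ ℂ) ≃ₗ[ℂ] Pre φ := LinearEquiv.refl ℂ _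

lemma form_add_left (φ : G → ℂ) (a b c : G →₀ ℂ) : form φ (a + b) c = form φ a c + form φ b c := by
  unfold form
  rw [Finsupp.sum_add_index']
  · intro x; simp
  · intro x s t
    simp only [map_add, add_mul, Finsupp.sum_add]

lemma form_smul_left (φ : G → ℂ) (a b : G →₀ ℂ) (r : ℂ) :
    form φ (r • a) b = conj r * form φ a b := by
  unfold form
  rw [Finsupp.sum_smul_index', Finsupp.mul_sum]
  · refine Finsupp.sum_congr fun x _ => ?_
    rw [Finsupp.mul_sum]
    refine Finsupp.sum_congr fun y _ => ?_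
    simp only [smul_eq_mul, map_mul]; ring
  · intro x; simp

lemma form_conj (φ : G → ℂ) (hφ : ∀ g, φ g⁻¹ = conj (φ g)) (a b : G →₀ ℂ) :
    conj (form φ b a) = form φ a b := by
  unfold form
  rw [Finsupp.sum_comm a]
  simp only [Finsupp.sum, map_sum, map_mul, RCLike.conj_conj]
  refine Finset.sum_congr rfl fun x _ => Finset.sum_congr rfl fun y _ => ?_
  rw [← hφ]
  simp only [mul_inv_rev, inv_inv]; ring

lemma form_left (φ : G → ℂ) (g : G) (a b : G →₀ ℂ) :
    form φ (Finsupp.lmapDomain ℂ ℂ (fun h => g * h) a) (Finsupp.lmapDomain ℂ ℂ (fun h => g * h) b)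
      = form φ a b := by
  unfold form
  simp only [Finsupp.lmapDomain_apply]
  rw [Finsupp.sum_mapDomain_index_inj (mul_right_injective g)]
  refine Finsupp.sum_congr fun x _ => ?_
  rw [Finsupp.sum_mapDomain_index_inj (mul_right_injective g)]
  refine Finsupp.sum_congr fun y _ => ?_
  simp [mul_assoc]

lemma exists_gns (φ : G → ℂ) (hφ : ∀ g, φ g⁻¹ = conj (φ g)) (hp : ∀ a, 0 ≤ (form φ a a).re) :
    ∃ (ρ : URep G) (j : (G →₀ ℂ) →ₗ[ℂ] ρ.H), (∀ a b, ⟪j a, j b⟫_ℂ = form φ a b) ∧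
      (∀ g a, (ρ.act g : ρ.H →L[ℂ] ρ.H) (j a) = j (Finsupp.lmapDomain ℂ ℂ (fun h => g * h) a)) ∧
      DenseRange j := by
  let core : PreInnerProductSpace.Core ℂ (Pre φ) :=
    { inner := fun a b => form φ ((toPre φ).symm a) ((toPre φ).symm b)
      conj_inner_symm := fun a b => form_conj φ hφ _ _
      re_inner_nonneg := fun a => hp _
      add_left := fun a b c => form_add_left φ _ _ _
      smul_left := fun a b r => form_smul_left φ _ _ r }
  letI : SeminormedAddCommGroup (Pre φ) :=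
    InnerProductSpace.Core.toSeminormedAddCommGroup (c := core)
  letI : InnerProductSpace ℂ (Pre φ) := InnerProductSpace.ofCore core
  have hin : ∀ a b : Pre φ, ⟪a, b⟫_ℂ = form φ ((toPre φ).symm a) ((toPre φ).symm b) :=
    fun a b => rfl
  let L : G → Pre φ →ₗ[ℂ] Pre φ := fun g =>
    (toPre φ).toLinearMap ∘ₗ Finsupp.lmapDomain ℂ ℂ (fun h => g * h) ∘ₗ (toPre φ).symm.toLinearMap
  have hL : ∀ g a b, ⟪L g a, L g b⟫_ℂ = ⟪a, b⟫_ℂ := fun g a b =>
    form_left φ g ((toPre φ).symm a) ((toPre φ).symm b)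
  let T : G → Pre φ →L[ℂ] Pre φ := fun g => (L g).mkContinuous 1 fun a => by
    rw [one_mul, @norm_eq_sqrt_re_inner ℂ, @norm_eq_sqrt_re_inner ℂ _ _ _ _ a, hL]
  obtain ⟨ρ, j, h1, h2, h3⟩ := exists_rep (Pre φ) T
    (fun a => by
      change toPre φ (Finsupp.mapDomain (fun h => 1 * h) ((toPre φ).symm a)) = a
      simp only [one_mul]
      rw [show (fun h : G => h) = id from rfl, Finsupp.mapDomain_id, LinearEquiv.apply_symm_apply])
    (fun g h a => by
      change toPre φ (Finsupp.mapDomain (fun k => g * h * k) ((toPre φ).symm a))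
        = toPre φ (Finsupp.mapDomain (fun k => g * k)
          (Finsupp.mapDomain (fun k => h * k) ((toPre φ).symm a)))
      rw [← Finsupp.mapDomain_comp]
      congr 2
      funext k
      simp [mul_assoc])
    hL
  refine ⟨ρ, j ∘ₗ (toPre φ).toLinearMap, fun a b => h1 _ _, fun g a => h2 g _, ?_⟩
  change DenseRange (j ∘ toPre φ)
  rw [DenseRange, (toPre φ).surjective.range_comp]
  exact h3

end Pool.Agent.H433Z.FS
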