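import Pool.Agent.H433Z.FSPhi

/-! The subalgebra that is not closed under conjugation. -/

set_option autoImplicit false

namespace Pool.Agent.H433Z.FS

open scoped ComplexConjugate

/-- the central element of order three -/
def zz : GG := (Multiplicative.ofAdd 1, 1)

lemma zz_comm (g : GG) : g * zz = zz * g := by
  simp [zz, Prod.ext_iff, mul_comm]

lemma coef_add (φ ψ : WeakDual ℂ (CStar GG)) (g : GG) : coef (φ + ψ) g = coef φ g + coef ψ g := rfl

lemma coef_smul (c : ℂ) (φ : WeakDual ℂ (CStar GG)) (g : GG) : coef (c • φ) g = c * coef φ g := rfl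

lemma summ_add {f h : GG → ℂ} (k : ℕ) (hf : Summable fun g => ‖f g‖ ^ k)
    (hh : Summable fun g => ‖h g‖ ^ k) : Summable fun g => ‖f g + h g‖ ^ k := by
  refine Summable.of_nonneg_of_le (fun g => by positivity) (fun g => ?_)
    ((hf.add hh).mul_left (2 ^ (k - 1)))
  exact (pow_le_pow_left₀ (norm_nonneg _) (norm_add_le _ _) k).trans
    (add_pow_le (norm_nonneg _) (norm_nonneg _) k)

lemma summ_mul {f h : GG → ℂ} (k : ℕ) (C : ℝ) (hf : ∀ g, ‖f g‖ ≤ C)
    (hh : Summable fun g => ‖h g‖ ^ k) : Summable fun g => ‖f g * h g‖ ^ k := by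
  refine Summable.of_nonneg_of_le (fun g => by positivity) (fun g => ?_) (hh.mul_left (C ^ k))
  rw [norm_mul, mul_pow]
  exact mul_le_mul_of_nonneg_right (pow_le_pow_left₀ (norm_nonneg _) (hf g) k) (by positivity)

lemma summ_44 {f h : GG → ℂ} (hf : Summable fun g => ‖f g‖ ^ 4)
    (hh : Summable fun g => ‖h g‖ ^ 4) : Summable fun g => ‖f g * h g‖ ^ 2 := by
  refine Summable.of_nonneg_of_le (fun g => by positivity) (fun g => ?_) (hf.add hh)
  rw [norm_mul]
  nlinarith [sq_nonneg (‖f g‖ ^ 2 - ‖h g‖ ^ 2), sq_nonneg (‖f g‖ * ‖h g‖)]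

/-- the elements whose function is in `ℓ^k` -/
noncomputable def lp (k : ℕ) : Submodule ℂ (WeakDual ℂ (CStar GG)) where
  carrier := {ψ | Summable fun g => ‖coef ψ g‖ ^ (k + 1)}
  add_mem' := fun h1 h2 => summ_add _ h1 h2
  zero_mem' := by
    change Summable fun g : GG => ‖(0 : ℂ)‖ ^ (k + 1)
    simp [summable_zero]
  smul_mem' := fun c _ h => summ_mul _ ‖c‖ (f := fun _ => c) (fun _ => le_rfl) h

/-- the eigenspace of the central element -/
noncomputable def eig : Submodule ℂ (WeakDual ℂ (CStar GG)) where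
  carrier := {ψ | ∀ g, coef ψ (zz * g) = chi 1 zz * coef ψ g}
  add_mem' := fun h1 h2 g => by rw [coef_add, coef_add, h1, h2, mul_add]
  zero_mem' := fun g => (mul_zero _).symm
  smul_mem' := fun c _ h g => by rw [coef_smul, coef_smul, h]; ring

/-- the algebra before taking the closure -/
noncomputable def S0 : Submodule ℂ (WeakDual ℂ (CStar GG)) := (eig ⊓ lp 3) ⊔ lp 1

lemma S0_mul {φ ψ θ : WeakDual ℂ (CStar GG)} (hφ : φ ∈ S0) (hψ : ψ ∈ S0)
    (hθ : ∀ g, coef θ g = coef φ g * coef ψ g) : θ ∈ S0 := by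
  refine Submodule.mem_sup_right ?_
  obtain ⟨a, ha, i, hi, rfl⟩ := Submodule.mem_sup.1 hφ
  obtain ⟨b, hb, k, hk, rfl⟩ := Submodule.mem_sup.1 hψ
  have h1 := summ_44 ha.2 hb.2
  have h2 := summ_mul 2 _ (norm_coef_le a) hk
  have h3 := summ_mul 2 _ (norm_coef_le (b + k)) hi
  refine (summ_add 2 (summ_add 2 h1 h2) h3).congr fun g => ?_
  rw [hθ, coef_add a i, coef_add b k]
  ring_nf

lemma S0_comp (M : CStar GG →L[ℂ] CStar GG) (e : GG → GG) (he : Function.Injective e)
    (hz : ∀ g, e (zz * g) = zz * e g) (hM : ∀ ψ g, coef (pull M ψ) g = coef ψ (e g))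
    {φ : WeakDual ℂ (CStar GG)} (hφ : φ ∈ S0) : pull M φ ∈ S0 := by
  obtain ⟨a, ha, i, hi, rfl⟩ := Submodule.mem_sup.1 hφ
  have hl : ∀ k, ∀ ψ ∈ lp k, pull M ψ ∈ lp k := fun k ψ h =>
    (Summable.comp_injective h he).congr fun g => by simp only [Function.comp_apply, hM]
  refine Submodule.mem_sup.2 ⟨pull M a, ⟨fun g => ?_, hl _ _ ha.2⟩, pull M i, hl _ _ hi, rfl⟩
  rw [hM, hM, hz, ha.1]

/-- the constants -/
noncomputable def cst : Submodule ℂ (WeakDual ℂ (CStar GG)) where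
  carrier := {ψ | ∀ g, coef ψ g = coef ψ 1}
  add_mem' := fun h1 h2 g => by rw [coef_add, coef_add, h1, h2]
  zero_mem' := fun g => rfl
  smul_mem' := fun c _ h g => by rw [coef_smul, coef_smul, h]

/-- the unital algebra before taking the closure -/
noncomputable def S1 : Submodule ℂ (WeakDual ℂ (CStar GG)) := cst ⊔ S0

lemma S1_mul {φ ψ θ : WeakDual ℂ (CStar GG)} (hφ : φ ∈ S1) (hψ : ψ ∈ S1)
    (hθ : ∀ g, coef θ g = coef φ g * coef ψ g) : θ ∈ S1 := by
  obtain ⟨c, hc, a, ha, rfl⟩ := Submodule.mem_sup.1 hφ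
  obtain ⟨d, hd, b, hb, rfl⟩ := Submodule.mem_sup.1 hψ
  obtain ⟨M, hM⟩ := exists_mul a
  refine Submodule.mem_sup.2 ⟨coef c 1 • d, cst.smul_mem _ hd,
    coef c 1 • b + coef d 1 • a + pull M b,
    S0.add_mem (S0.add_mem (S0.smul_mem _ hb) (S0.smul_mem _ ha)) (S0_mul ha hb (hM b)),
    coef_ext fun g => ?_⟩
  simp only [hθ, coef_add, coef_smul, hM]
  rw [hc g, hd g]
  ring

lemma S1_comp (M : CStar GG →L[ℂ] CStar GG) (e : GG → GG) (he : Function.Injective e)
    (hz : ∀ g, e (zz * g) = zz * e g) (hM : ∀ ψ g, coef (pull M ψ) g = coef ψ (e g))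
    {φ : WeakDual ℂ (CStar GG)} (hφ : φ ∈ S1) : pull M φ ∈ S1 := by
  obtain ⟨c, hc, a, ha, rfl⟩ := Submodule.mem_sup.1 hφ
  refine Submodule.mem_sup.2 ⟨pull M c, fun g => ?_, pull M a, S0_comp M e he hz hM ha, rfl⟩
  rw [hM, hM, hc (e g), hc (e 1)]

lemma exists_one : ∃ e : WeakDual ℂ (CStar GG), ∀ g, coef e g = 1 := by
  refine exists_dual _ 1 fun a => ?_
  let ρ : URep GG := ⟨ℂ, 1⟩
  have h := inner_op ρ (1 : ℂ) (1 : ℂ) a
  have e : (fun g => inner ℂ (1 : ℂ) ((ρ.act g : ρ.H →L[ℂ] ρ.H) (1 : ℂ))) = fun _ => (1 : ℂ) := by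
    funext g
    change inner ℂ (1 : ℂ) (1 : ℂ) = 1
    simp
  rw [e] at h
  rw [← h]
  refine (norm_inner_le_norm _ _).trans ?_
  have h1 := ((ρ.op a).le_opNorm (1 : ℂ))
  have h2 : ‖((1 : ℂ) : ρ.H)‖ = 1 := norm_one (α := ℂ)
  rw [h2] at h1 ⊢
  have := le_fullNorm ρ a
  linarith

lemma chi_ne : chi (-1) zz ≠ chi 1 zz := by
  intro h
  have := ZMod.injective_stdAddChar h
  revert this
  simp only [zz, toAdd_ofAdd]
  decide

lemma chi_ne' : chi (-1) zz ≠ 1 := by
  intro h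
  have := ZMod.injective_stdAddChar (h.trans (AddChar.map_zero_eq_one _).symm)
  revert this
  simp only [zz, toAdd_ofAdd]
  decide

theorem main : ∃ B : Submodule ℂ (WeakDual ℂ (CStar GG)),
    IsClosed (B : Set (WeakDual ℂ (CStar GG))) ∧
    (∃ e ∈ B, ∀ g, coef e g = 1) ∧
    (∀ φ ∈ B, ∀ ψ ∈ B, ∃ θ ∈ B, ∀ g, coef θ g = coef φ g * coef ψ g) ∧
    (∀ φ ∈ B, ∀ s : GG, (∃ θ ∈ B, ∀ g, coef θ g = coef φ (s * g)) ∧
      ∃ θ ∈ B, ∀ g, coef θ g = coef φ (g * s)) ∧
    ∃ φ ∈ B, ¬ ∃ θ ∈ B, ∀ g, coef θ g = conj (coef φ g) := by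
  refine ⟨S1.topologicalClosure, S1.isClosed_topologicalClosure, ?_, ?_, ?_, ?_⟩
  · obtain ⟨e, he⟩ := exists_one
    exact ⟨e, subset_closure (Submodule.mem_sup_left fun g => by rw [he, he]), he⟩
  · have step : ∀ φ ∈ S1, ∀ ψ ∈ closure (S1 : Set (WeakDual ℂ (CStar GG))), ∀ θ,
        (∀ g, coef θ g = coef φ g * coef ψ g) → θ ∈ closure (S1 : Set (WeakDual ℂ (CStar GG))) := by
      intro φ hφ ψ hψ θ hθ
      obtain ⟨M, hM⟩ := exists_mul φ
      have e : θ = pull M ψ := coef_ext fun g => by rw [hθ, hM]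
      rw [e]
      exact map_mem_closure (continuous_pull M) hψ fun x hx =>
        S1_mul hφ hx (hM x)
    intro φ hφ ψ hψ
    obtain ⟨M, hM⟩ := exists_mul ψ
    refine ⟨pull M φ, ?_, fun g => by rw [hM, mul_comm]⟩
    have h1 : pull M φ ∈ closure (closure (S1 : Set (WeakDual ℂ (CStar GG)))) :=
      map_mem_closure (continuous_pull M) hφ fun x hx =>
        step x hx ψ hψ _ fun g => by rw [hM, mul_comm]
    rwa [closure_closure] at h1
  · intro φ hφ s
    obtain ⟨M, hM⟩ := exists_left s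
    obtain ⟨N, hN⟩ := exists_right s
    refine ⟨⟨pull M φ, ?_, hM φ⟩, pull N φ, ?_, hN φ⟩
    · exact map_mem_closure (continuous_pull M) hφ fun x hx =>
        S1_comp M (fun g => s * g) (mul_right_injective s)
          (fun g => by rw [← mul_assoc, zz_comm, mul_assoc]) hM hx
    · exact map_mem_closure (continuous_pull N) hφ fun x hx =>
        S1_comp N (fun g => g * s) (mul_left_injective s)
          (fun g => by rw [mul_assoc]) hN hx
  · obtain ⟨φ, hφ⟩ := exists_phi_dual 1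
    obtain ⟨y, hy1, hy2⟩ := exists_y
    obtain ⟨L, hL⟩ := exists_left zz
    have hz : ∀ ε g, phi ε (zz * g) = chi ε zz * phi ε g := fun ε g => by
      simp only [phi, chi_mul, zz, Prod.snd_mul, one_mul, mul_assoc]
    refine ⟨φ, subset_closure (Submodule.mem_sup_right
      (Submodule.mem_sup_left ⟨fun g => by rw [hφ, hφ, hz], ?_⟩)), ?_⟩
    · exact (summable_phi 1).congr fun g => by rw [hφ]
    · rintro ⟨θ, hθ, h⟩
      have key : ∀ (ψ : WeakDual ℂ (CStar GG)) (c : ℂ), (∀ g, coef ψ (zz * g) = c * coef ψ g) →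
          ψ (L (L y - chi 1 zz • y) - (L y - chi 1 zz • y)) = (c - 1) * (c - chi 1 zz) * ψ y := by
        intro ψ c hc
        have e1 : pull L ψ = c • ψ := coef_ext fun g => by rw [hL, coef_smul, hc]
        have e2 : ∀ x, ψ (L x) = c * ψ x := fun x => by rw [← pull_apply, e1]; rfl
        rw [map_sub, e2, map_sub, e2, map_smul, smul_eq_mul]
        ring
      have h0 : ∀ ψ ∈ S1, ψ (L (L y - chi 1 zz • y) - (L y - chi 1 zz • y)) = 0 := by
        intro ψ hψ
        obtain ⟨c, hc, ψ', hψ', rfl⟩ := Submodule.mem_sup.1 hψ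
        obtain ⟨a, ha, i, hi, rfl⟩ := Submodule.mem_sup.1 hψ'
        have hl : ∀ i ∈ lp 1, pull L i ∈ lp 1 := fun i hi =>
          (Summable.comp_injective hi (mul_right_injective zz)).congr fun g => by
            simp only [Function.comp_apply, hL]
        have e2 : i (L (L y)) = 0 := hy1 (pull L (pull L i)) (hl _ (hl _ hi))
        have e3 : i (L y) = 0 := hy1 (pull L i) (hl _ hi)
        have e4 : i y = 0 := hy1 i hi
        change c _ + (a _ + i _) = 0
        rw [key c 1 (fun g => by rw [hc (zz * g), hc g, one_mul]), key a _ ha.1]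
        simp only [map_sub, map_smul, e2, e3, e4, smul_eq_mul]
        ring
      have h1 : θ (L (L y - chi 1 zz • y) - (L y - chi 1 zz • y)) = 0 :=
        (isClosed_eq (WeakDual.eval_continuous (L (L y - chi 1 zz • y) - (L y - chi 1 zz • y)))
          continuous_const).closure_subset_iff.2 h0 hθ
      have h2 : ∀ g, coef θ g = phi (-1) g := fun g => by rw [h, hφ, phi_neg]
      rw [key θ (chi (-1) zz) (fun g => by rw [h2, h2, hz]), mul_eq_zero, mul_eq_zero,
        sub_eq_zero, sub_eq_zero] at h1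
      exact h1.elim (fun h => h.elim chi_ne' chi_ne) (hy2 _ θ h2)

end Pool.Agent.H433Z.FS
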