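import Pool.Agent.H433Z.FSReg

/-! The positive definite functions and the separating element. -/

set_option autoImplicit false

namespace Pool.Agent.H433Z.FS

open scoped InnerProductSpace ComplexConjugate
open Filter Topology

/-- characters of `Z/3` -/
noncomputable def chi (ε : ZMod 3) (g : GG) : ℂ := ZMod.stdAddChar (ε * g.1.toAdd)

lemma chi_mul (ε : ZMod 3) (g h : GG) : chi ε (g * h) = chi ε g * chi ε h := by
  simp [chi, mul_add, AddChar.map_add_eq_mul]

lemma chi_inv (ε : ZMod 3) (g : GG) : chi ε g⁻¹ = conj (chi ε g) := by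
  simp [chi, ← AddChar.map_neg_eq_conj]

lemma chi_neg (ε : ZMod 3) (g : GG) : chi (-ε) g = conj (chi ε g) := by
  simp [chi, ← AddChar.map_neg_eq_conj]

lemma norm_chi (ε : ZMod 3) (g : GG) : ‖chi ε g‖ = 1 := by
  simp [chi]

/-- the positive definite functions -/
noncomputable def phi (ε : ZMod 3) (g : GG) : ℂ :=
  chi ε g * (((1 / 3 : ℝ) ^ g.2.toWord.length : ℝ) : ℂ)

lemma phi_inv (ε : ZMod 3) (g : GG) : phi ε g⁻¹ = conj (phi ε g) := by
  simp only [phi, chi_inv, map_mul, Complex.conj_ofReal, Prod.snd_inv, FreeGroup.toWord_inv,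
    FreeGroup.invRev_length]

lemma phi_neg (ε : ZMod 3) (g : GG) : phi (-ε) g = conj (phi ε g) := by
  simp only [phi, chi_neg, map_mul, Complex.conj_ofReal]

open ComplexOrder in
lemma phi_psd (ε : ZMod 3) (a : GG →₀ ℂ) : 0 ≤ (form (phi ε) a a).re := by
  have h := Tree.main_complex (ι := a.support)
    (fun i k => (1 / 3 : ℝ) ^ Tree.dd i.1.2.toWord k.1.2.toWord)
    (fun i k => by rw [Tree.dd_comm])
    (fun c => Tree.main_real' (1 / 3) (by norm_num) (fun i : a.support => i.1.2.toWord) c)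
    (fun i => a i.1 * chi ε i.1)
  have e : form (phi ε) a a = ∑ i : a.support, ∑ k : a.support,
      starRingEnd ℂ (a i.1 * chi ε i.1) * (a k.1 * chi ε k.1) *
        (((1 / 3 : ℝ) ^ Tree.dd i.1.2.toWord k.1.2.toWord : ℝ) : ℂ) := by
    unfold form
    simp only [Finsupp.sum]
    rw [← Finset.sum_coe_sort]
    refine Finset.sum_congr rfl fun i _ => ?_
    rw [← Finset.sum_coe_sort]
    refine Finset.sum_congr rfl fun k _ => ?_
    rw [← Tree.len_eq _ _ FreeGroup.isReduced_toWord FreeGroup.isReduced_toWord,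
      FreeGroup.mk_toWord, FreeGroup.mk_toWord, phi, chi_mul, chi_inv, map_mul]
    simp only [Prod.snd_mul, Prod.snd_inv]
    ring
  rw [e]
  exact (Complex.nonneg_iff.1 h).1

lemma exists_phi (ε : ZMod 3) : ∃ (ρ : URep GG) (ξ : ρ.H), ‖ξ‖ = 1 ∧
    ∀ a, ⟪ξ, ρ.op a ξ⟫_ℂ = pair (phi ε) a := by
  obtain ⟨ρ, j, h1, h2, -⟩ := exists_gns (phi ε) (phi_inv ε) (phi_psd ε)
  have hf : ∀ g, ⟪j (Finsupp.single 1 1), j (Finsupp.single g 1)⟫_ℂ = phi ε g := fun g => by
    rw [h1]; simp [form]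
  refine ⟨ρ, j (Finsupp.single 1 1), ?_, fun a => ?_⟩
  · rw [@norm_eq_sqrt_re_inner ℂ, hf]
    simp [phi, chi]
  · rw [inner_op]
    congr 2
    funext g
    rw [h2, ← hf]
    simp [Finsupp.mapDomain_single]

lemma exists_phi_dual (ε : ZMod 3) : ∃ φ : WeakDual ℂ (CStar GG), ∀ g, coef φ g = phi ε g := by
  obtain ⟨ρ, ξ, h1, h2⟩ := exists_phi ε
  refine exists_dual _ 1 fun a => ?_
  rw [← h2]
  refine (norm_inner_le_norm _ _).trans ?_
  have := ((ρ.op a).le_opNorm ξ)
  rw [h1] at this ⊢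
  have := le_fullNorm ρ a
  linarith

lemma summable_phi (ε : ZMod 3) : Summable fun g => ‖phi ε g‖ ^ 4 := by
  have h1 : Summable fun u : FreeGroup (Fin 32) => (1 / 81 : ℝ) ^ u.toWord.length :=
    (Tree.summable_list (1 / 81) (by norm_num) (by norm_num)).comp_injective
      FreeGroup.toWord_injective
  have h2 : Summable fun _u : Multiplicative (ZMod 3) => (1 : ℝ) := Summable.of_finite
  have h3 := h2.mul_of_nonneg h1 (fun _ => zero_le_one) (fun _ => by positivity)
  refine h3.congr fun g => ?_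
  rw [phi, norm_mul, norm_chi, Complex.norm_real, Real.norm_of_nonneg (by positivity), one_mul,
    one_mul, ← pow_mul, mul_comm, pow_mul]
  norm_num

lemma pair_hh (ε : ZMod 3) : pair (phi ε) hh = 64 / 3 := by
  rw [hh, map_sum]
  have : ∀ s : Tree.Al, pair (phi ε) (Finsupp.single (gen s) 1) = 1 / 3 := fun s => by
    rw [pair_single]
    simp [phi, chi, gen]
  simp only [this, Finset.sum_const, Finset.card_univ, Fintype.card_prod, Fintype.card_fin,
    Fintype.card_bool, nsmul_eq_mul]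
  norm_num

section poly
variable {H : Type} [NormedAddCommGroup H] [InnerProductSpace ℂ H] [CompleteSpace H]

lemma spec_le (T : H →L[ℂ] H) {R : ℝ} (hR : ‖T‖ ≤ R) {t : ℝ} (ht : t ∈ spectrum ℝ T) :
    |t| ≤ R := by
  have h1 := spectrum.norm_le_norm_mul_of_mem ht
  have h2 : ‖(1 : H →L[ℂ] H)‖ ≤ 1 := ContinuousLinearMap.norm_id_le
  rw [Real.norm_eq_abs] at h1
  nlinarith [norm_nonneg T]

lemma norm_poly_le (T : H →L[ℂ] H) (hT : IsSelfAdjoint T) {R c : ℝ} (hR : ‖T‖ ≤ R) (hc : 0 ≤ c)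
    (p : Polynomial ℝ) (hp : ∀ t, |t| ≤ R → |p.eval t| ≤ c) : ‖Polynomial.aeval T p‖ ≤ c := by
  rw [← cfc_polynomial p T hT]
  exact norm_cfc_le hc fun t ht => hp t (spec_le T hR ht)

lemma poly_nonneg (T : H →L[ℂ] H) (hT : IsSelfAdjoint T) {R : ℝ} (hR : ‖T‖ ≤ R)
    (p : Polynomial ℝ) (hp : ∀ t, |t| ≤ R → 0 ≤ p.eval t) (ξ : H) :
    0 ≤ (⟪ξ, (Polynomial.aeval T p) ξ⟫_ℂ).re := by
  have h : 0 ≤ Polynomial.aeval T p := by
    rw [← cfc_polynomial p T hT]
    exact cfc_nonneg fun t ht => hp t (spec_le T hR ht)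
  exact (ContinuousLinearMap.nonneg_iff_isPositive _).1 h |>.re_inner_nonneg_right ξ

end poly

lemma exists_y : ∃ y : CStar GG,
    (∀ ψ : WeakDual ℂ (CStar GG), (Summable fun g => ‖coef ψ g‖ ^ 2) → ψ y = 0) ∧
    ∀ (ε : ZMod 3) (θ : WeakDual ℂ (CStar GG)), (∀ g, coef θ g = phi ε g) → θ y ≠ 0 := by
  have hp : ∀ n : ℕ, ∃ p : Polynomial ℝ, ∀ t, |t| ≤ 64 →
      |p.eval t - max (t - 16) 0| < 1 / ((n : ℝ) + 1) := fun n => by
    obtain ⟨p, hp⟩ := exists_polynomial_near_of_continuousOn (-64) 64 (fun t => max (t - 16) 0)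
      (by fun_prop) (1 / ((n : ℝ) + 1)) (by positivity)
    exact ⟨p, fun t ht => hp t (abs_le.1 ht)⟩
  choose p hp using hp
  choose b hb using fun n => exists_poly hh (p n)
  have hc : CauchySeq fun n => emb (b n) := by
    refine cauchySeq_of_le_tendsto_0 (fun N : ℕ => 2 * (1 / ((N : ℝ) + 1))) (fun n m N hn hm => ?_) ?_
    · rw [dist_eq_norm, ← map_sub, norm_emb]
      refine fullNorm_le (by positivity) fun ρ => ?_
      rw [ρ.op_eq, map_sub, ← ρ.op_eq, ← ρ.op_eq, hb, hb, ← map_sub]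
      refine norm_poly_le _ (sa_hh ρ) (norm_hh ρ) (by positivity) _ fun t ht => ?_
      have h1 := abs_lt.1 (hp n t ht)
      have h2 := abs_lt.1 (hp m t ht)
      have h3 : 1 / ((n : ℝ) + 1) ≤ 1 / ((N : ℝ) + 1) := Nat.one_div_le_one_div hn
      have h4 : 1 / ((m : ℝ) + 1) ≤ 1 / ((N : ℝ) + 1) := Nat.one_div_le_one_div hm
      rw [Polynomial.eval_sub, abs_le]
      constructor <;> linarith [h1.1, h1.2, h2.1, h2.2]
    · simpa using (tendsto_one_div_add_atTop_nhds_zero_nat (𝕜 := ℝ)).const_mul 2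
  obtain ⟨y, hy⟩ := cauchySeq_tendsto_of_complete hc
  refine ⟨y, fun ψ hψ => ?_, fun ε θ hθ => ?_⟩
  · obtain ⟨ρ, ξ, h1, h2, h3⟩ := exists_reg
    have t1 : Tendsto (fun n => ψ (emb (b n))) atTop (𝓝 (ψ y)) :=
      ((map_continuous ψ).tendsto y).comp hy
    have t2 : Tendsto (fun n => ψ (emb (b n))) atTop (𝓝 0) := by
      refine squeeze_zero_norm (a := fun n : ℕ => (1 / ((n : ℝ) + 1)) * √(∑' g, ‖coef ψ g‖ ^ 2))
        (fun n => ?_) ?_
      · rw [ev, pair_apply]
        refine (norm_sum_le _ _).trans ?_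
        simp only [norm_mul]
        refine (Real.sum_mul_le_sqrt_mul_sqrt _ _ _).trans ?_
        refine mul_le_mul ?_ (Real.sqrt_le_sqrt (hψ.sum_le_tsum _ fun _ _ => by positivity))
          (Real.sqrt_nonneg _) (by positivity)
        rw [← h3, Real.sqrt_sq (norm_nonneg _)]
        refine ((ρ.op (b n)).le_opNorm ξ).trans ?_
        rw [h1, mul_one, hb]
        refine norm_poly_le _ (sa_hh ρ) h2 (by positivity) _ fun t ht => ?_
        have h4 := hp n t (ht.trans (by norm_num))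
        rw [max_eq_right (by linarith [(abs_le.1 ht).2]), sub_zero] at h4
        exact h4.le
      · simpa using (tendsto_one_div_add_atTop_nhds_zero_nat (𝕜 := ℝ)).mul_const
          (√(∑' g, ‖coef ψ g‖ ^ 2))
    exact tendsto_nhds_unique t1 t2
  · obtain ⟨ρ, ξ, h1, h2⟩ := exists_phi ε
    have t1 : Tendsto (fun n => (θ (emb (b n))).re) atTop (𝓝 (θ y).re) :=
      (Complex.continuous_re.tendsto _).comp (((map_continuous θ).tendsto y).comp hy)
    have k : ∀ n, (1 : ℝ) ≤ (θ (emb (b n))).re := fun n => by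
      have h3 := poly_nonneg _ (sa_hh ρ) (norm_hh ρ) (p n - Polynomial.X + Polynomial.C 17)
        (fun t ht => by
          have h4 := (abs_lt.1 (hp n t ht)).1
          have h5 : 1 / ((n : ℝ) + 1) ≤ 1 := by
            rw [div_le_one (by positivity)]
            linarith [Nat.cast_nonneg (α := ℝ) n]
          simp only [Polynomial.eval_add, Polynomial.eval_sub, Polynomial.eval_X, Polynomial.eval_C]
          linarith [le_max_left (t - 16) 0]) ξ
      rw [map_add, map_sub, ← hb, Polynomial.aeval_X, Polynomial.aeval_C,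
        Algebra.algebraMap_eq_smul_one, add_apply, sub_apply, inner_add_right, inner_sub_right,
        h2, h2, pair_hh] at h3
      have h6 : ⟪ξ, ((17 : ℝ) • (1 : ρ.H →L[ℂ] ρ.H)) ξ⟫_ℂ = 17 := by
        rw [smul_apply, ContinuousLinearMap.one_apply, ← Complex.coe_smul, inner_smul_right,
          inner_self_eq_norm_sq_to_K, h1]
        simp
      rw [h6] at h3
      rw [ev, funext hθ]
      simp only [Complex.add_re, Complex.sub_re] at h3
      norm_num at h3
      linarith
    have := ge_of_tendsto' t1 k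
    intro h0
    rw [h0] at this
    norm_num at this

end Pool.Agent.H433Z.FS
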