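import Pool.Agent.H433Z.FSGen
import Pool.Agent.H433Z.FSTree

/-! The regular representation of `Z/3 × F_32` and the positive definite functions used. -/

set_option autoImplicit false

namespace Pool.Agent.H433Z.FS

open scoped InnerProductSpace ComplexConjugate

/-- the group -/
abbrev GG : Type := Multiplicative (ZMod 3) × FreeGroup (Fin 32)

/-- generators and inverses -/
def gen (s : Tree.Al) : GG := (1, FreeGroup.mk [s])

/-- the letter inverse -/
def flp (s : Tree.Al) : Tree.Al := (s.1, !s.2)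

lemma flp_flp (s : Tree.Al) : flp (flp s) = s := by simp [flp]

lemma gen_inv (s : Tree.Al) : (gen s)⁻¹ = gen (flp s) := by
  simp [gen, flp, FreeGroup.inv_mk, FreeGroup.invRev]

/-- the sum of the generators and their inverses -/
noncomputable def hh : GG →₀ ℂ := ∑ s : Tree.Al, Finsupp.single (gen s) 1

lemma op_hh (ρ : URep GG) : ρ.op hh = ∑ s : Tree.Al, (ρ.act (gen s) : ρ.H →L[ℂ] ρ.H) := by
  rw [ρ.op_eq, hh, map_sum]
  refine Finset.sum_congr rfl fun s _ => ?_
  rw [← ρ.op_eq, op_single, one_smul]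

lemma sa_hh (ρ : URep GG) : IsSelfAdjoint (ρ.op hh) := by
  rw [IsSelfAdjoint, op_hh, star_sum]
  refine Fintype.sum_equiv (Function.Involutive.toPerm flp flp_flp) _ _ fun s => ?_
  change _ = (ρ.act (gen (flp s)) : ρ.H →L[ℂ] ρ.H)
  rw [← gen_inv, map_inv, ← Unitary.star_eq_inv, Unitary.coe_star]

lemma norm_hh (ρ : URep GG) : ‖ρ.op hh‖ ≤ 64 := by
  rw [op_hh]
  refine (norm_sum_le _ _).trans ?_
  have : ∀ s : Tree.Al, ‖(ρ.act (gen s) : ρ.H →L[ℂ] ρ.H)‖ ≤ 1 := fun s =>
    ContinuousLinearMap.opNorm_le_bound _ zero_le_one fun x => by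
      rw [ContinuousLinearMap.norm_map_of_mem_unitary (ρ.act _).2, one_mul]
  refine (Finset.sum_le_sum fun s _ => this s).trans ?_
  simp

open Classical in
/-- the point mass at the identity -/
noncomputable def dlt (g : GG) : ℂ := if g = 1 then 1 else 0

lemma form_dlt (a b : GG →₀ ℂ) : form dlt a b = ∑ g ∈ a.support, conj (a g) * b g := by
  classical
  unfold form
  refine Finset.sum_congr rfl fun x _ => ?_
  beta_reduce
  rw [Finsupp.sum_eq_single x]
  · simp [dlt]
  · intro y _ hy
    have : x⁻¹ * y ≠ 1 := fun h => hy (inv_mul_eq_one.1 h).symm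
    simp only [dlt, if_neg this, mul_zero]
  · intro _; simp

lemma form_dlt_self (a : GG →₀ ℂ) : form dlt a a = ((∑ g ∈ a.support, ‖a g‖ ^ 2 : ℝ) : ℂ) := by
  rw [form_dlt]
  push_cast
  exact Finset.sum_congr rfl fun x _ => by rw [Complex.conj_mul']

lemma pyth {H ι : Type} [NormedAddCommGroup H] [InnerProductSpace ℂ H] [Fintype ι] (v : ι → H)
    (h : ∀ i k, i ≠ k → ⟪v i, v k⟫_ℂ = 0) : ‖∑ i, v i‖ ^ 2 = ∑ i, ‖v i‖ ^ 2 := by
  rw [@norm_sq_eq_re_inner ℂ, sum_inner, map_sum]
  refine Finset.sum_congr rfl fun i _ => ?_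
  rw [inner_sum, Finset.sum_eq_single i (fun k _ hk => h i k hk.symm) (by simp),
    @norm_sq_eq_re_inner ℂ]

lemma exists_reg : ∃ (ρ : URep GG) (ξ : ρ.H), ‖ξ‖ = 1 ∧ ‖ρ.op hh‖ ≤ 16 ∧
    ∀ a : GG →₀ ℂ, ‖ρ.op a ξ‖ ^ 2 = ∑ g ∈ a.support, ‖a g‖ ^ 2 := by
  classical
  obtain ⟨ρ, j, h1, h2, h3⟩ := exists_gns dlt (fun g => by
      by_cases h : g = 1
      · simp [dlt, h]
      · have : g⁻¹ ≠ 1 := fun e => h (inv_eq_one.1 e)
        simp only [dlt, if_neg h, if_neg this, map_zero])
    (fun a => by rw [form_dlt_self, Complex.ofReal_re]; positivity)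
  have hn : ∀ a, ‖j a‖ ^ 2 = ∑ g ∈ a.support, ‖a g‖ ^ 2 := fun a => by
    rw [@norm_sq_eq_re_inner ℂ, h1, form_dlt_self]
    exact Complex.ofReal_re _
  have hf : ∀ (p : GG → Prop) [DecidablePred p] (a : GG →₀ ℂ), ‖j (a.filter p)‖ ^ 2
      = ∑ g ∈ a.support, if p g then ‖a g‖ ^ 2 else 0 := fun p _ a => by
    rw [hn, Finsupp.support_filter, Finset.sum_filter]
    refine Finset.sum_congr rfl fun g _ => ?_
    split_ifs with h
    · rw [Finsupp.filter_apply_pos _ _ h]
    · rfl
  have hiso : ∀ g v, ‖(ρ.act g : ρ.H →L[ℂ] ρ.H) v‖ = ‖v‖ := fun g v =>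
    ContinuousLinearMap.norm_map_of_mem_unitary (ρ.act g).2 v
  refine ⟨ρ, j (Finsupp.single 1 1), ?_, ?_, fun a => ?_⟩
  · have := hn (Finsupp.single 1 1)
    rw [Finsupp.support_single_ne_zero _ one_ne_zero] at this
    simp only [Finset.sum_singleton, Finsupp.single_eq_same, norm_one] at this
    exact (pow_left_inj₀ (norm_nonneg _) zero_le_one two_ne_zero).1 this
  · refine ContinuousLinearMap.opNorm_le_bound _ (by norm_num) fun v => ?_
    refine h3.induction_on (p := fun v => ‖ρ.op hh v‖ ≤ 16 * ‖v‖) v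
      (isClosed_le (by fun_prop) (by fun_prop)) fun a => ?_
    let P : Tree.Al → GG → Prop := fun s g => g.2.toWord.head? = some (flp s)
    have e : ρ.op hh (j a) = ∑ s, (ρ.act (gen s) : ρ.H →L[ℂ] ρ.H) (j (a.filter fun g => ¬ P s g))
        + ∑ s, (ρ.act (gen s) : ρ.H →L[ℂ] ρ.H) (j (a.filter (P s))) := by
      rw [op_hh, ContinuousLinearMap.sum_apply, ← Finset.sum_add_distrib]
      refine Finset.sum_congr rfl fun s _ => ?_
      rw [← map_add, ← map_add, add_comm, Finsupp.filter_pos_add_filter_neg]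
    have b1 : ‖∑ s, (ρ.act (gen s) : ρ.H →L[ℂ] ρ.H) (j (a.filter fun g => ¬ P s g))‖
        ≤ 8 * ‖j a‖ := by
      refine (pow_le_pow_iff_left₀ (norm_nonneg _) (by positivity) two_ne_zero).1 ?_
      rw [pyth]
      · have : ∀ s, ‖(ρ.act (gen s) : ρ.H →L[ℂ] ρ.H) (j (a.filter fun g => ¬ P s g))‖ ^ 2
            ≤ ‖j a‖ ^ 2 := fun s => by
          rw [hiso, hf, hn]
          refine Finset.sum_le_sum fun g _ => ?_
          split_ifs
          · positivity
          · exact le_rfl
        refine (Finset.sum_le_sum fun s _ => this s).trans (le_of_eq ?_)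
        simp only [Finset.sum_const, Finset.card_univ, Fintype.card_prod, Fintype.card_fin,
          Fintype.card_bool, nsmul_eq_mul]
        push_cast; ring
      · have hs : ∀ s g, (Finsupp.lmapDomain ℂ ℂ (fun h => gen s * h)
            (a.filter fun g => ¬ P s g)) g ≠ 0 → g.2.toWord.head? = some s := by
          intro s g hg
          have hm := Finsupp.mapDomain_support (Finsupp.mem_support_iff.2 hg)
          obtain ⟨u, hu, rfl⟩ := Finset.mem_image.1 hm
          rw [Finsupp.support_filter, Finset.mem_filter] at hu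
          exact Tree.head_mul s u.2 hu.2
        intro s t hst
        rw [h2, h2, h1, form_dlt]
        refine Finset.sum_eq_zero fun g hg => ?_
        by_contra hc
        have k1 := hs s g (Finsupp.mem_support_iff.1 hg)
        have k2 := hs t g (right_ne_zero_of_mul hc)
        rw [k1] at k2
        exact hst (Option.some.inj k2)
    have b2 : ‖∑ s, (ρ.act (gen s) : ρ.H →L[ℂ] ρ.H) (j (a.filter (P s)))‖ ≤ 8 * ‖j a‖ := by
      refine (norm_sum_le _ _).trans ?_
      refine (pow_le_pow_iff_left₀ (by positivity) (by positivity) two_ne_zero).1 ?_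
      refine (sq_sum_le_card_mul_sum_sq).trans ?_
      have : ∑ s, ‖(ρ.act (gen s) : ρ.H →L[ℂ] ρ.H) (j (a.filter (P s)))‖ ^ 2 ≤ ‖j a‖ ^ 2 := by
        simp only [hiso, hf]
        rw [Finset.sum_comm, hn]
        refine Finset.sum_le_sum fun g _ => ?_
        rcases Option.eq_none_or_eq_some g.2.toWord.head? with hw | ⟨t, hw⟩
        · simp [P, hw]
        · rw [Finset.sum_eq_single (flp t)]
          · split_ifs
            · exact le_rfl
            · positivity
          · intro s _ hs
            rw [if_neg]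
            intro hc
            apply hs
            simp only [P, hw, Option.some.injEq] at hc
            rw [hc, flp_flp]
          · simp
      simp only [Finset.card_univ, Fintype.card_prod, Fintype.card_fin, Fintype.card_bool]
      push_cast
      nlinarith
    rw [e]
    refine (norm_add_le _ _).trans ?_
    linarith
  · rw [← hn]
    congr 2
    induction a using Finsupp.induction_linear with
    | zero => simp [ρ.op_eq]
    | add a b ha hb =>
      rw [ρ.op_eq, map_add, ← ρ.op_eq, ← ρ.op_eq, ContinuousLinearMap.add_apply, ha, hb, map_add]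
    | single g c =>
      rw [op_single, ContinuousLinearMap.smul_apply, h2, ← map_smul]
      simp [Finsupp.mapDomain_single]

end Pool.Agent.H433Z.FS
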