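import Mathlib

/-! The kernel `r ^ d(x, y)` on the four-letter word tree dominates a multiple of the identity. -/

set_option autoImplicit false

namespace Pool.Agent.H433Z.Haag

open Finset

abbrev Al := Fin 2 × Bool

/-- tree distance of two words -/
def dd : List Al → List Al → ℕ
  | [], b => b.length
  | x :: a, [] => (x :: a).length
  | x :: a, y :: b => if x = y then dd a b else a.length + b.length + 2

lemma isReduced_invRev {L : List Al} (h : FreeGroup.IsReduced L) :
    FreeGroup.IsReduced (FreeGroup.invRev L) := by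
  rw [FreeGroup.isReduced_iff_reduce_eq] at h ⊢
  rw [FreeGroup.reduce_invRev, h]

lemma len_eq (a : List Al) : ∀ b : List Al, FreeGroup.IsReduced a → FreeGroup.IsReduced b →
    (FreeGroup.toWord ((FreeGroup.mk a)⁻¹ * FreeGroup.mk b)).length = dd a b := by
  induction a with
  | nil =>
    intro b _ hb
    rw [FreeGroup.inv_mk, FreeGroup.mul_mk, FreeGroup.toWord_mk]
    simp [dd, hb.reduce_eq]
  | cons x a ih =>
    intro b ha hb
    cases b with
    | nil =>
      rw [FreeGroup.inv_mk, FreeGroup.mul_mk, FreeGroup.toWord_mk, List.append_nil,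
        (isReduced_invRev ha).reduce_eq, FreeGroup.invRev_length]
      simp [dd]
    | cons y b =>
      by_cases hxy : x = y
      · subst hxy
        have e1 : FreeGroup.mk (x :: a) = FreeGroup.mk [x] * FreeGroup.mk a := by
          rw [FreeGroup.mul_mk]; rfl
        have e2 : FreeGroup.mk (x :: b) = FreeGroup.mk [x] * FreeGroup.mk b := by
          rw [FreeGroup.mul_mk]; rfl
        have e3 : (FreeGroup.mk (x :: a))⁻¹ * FreeGroup.mk (x :: b)
            = (FreeGroup.mk a)⁻¹ * FreeGroup.mk b := by
          rw [e1, e2]; group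
        rw [e3, ih b (List.IsChain.tail ha) (List.IsChain.tail hb)]
        simp [dd]
      · have hr : FreeGroup.IsReduced (FreeGroup.invRev (x :: a) ++ (y :: b)) := by
          have h1 := isReduced_invRev ha
          have h2 : FreeGroup.IsReduced (FreeGroup.invRev [x] ++ (y :: b)) := by
            have : FreeGroup.invRev [x] = [(x.1, !x.2)] := by simp [FreeGroup.invRev]
            rw [this]
            refine List.isChain_cons_cons.2 ⟨?_, hb⟩
            intro h
            by_contra hc
            apply hxy
            refine Prod.ext h ?_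
            simp only at hc
            revert hc
            cases x.2 <;> cases y.2 <;> simp
          rw [FreeGroup.invRev_cons] at h1 ⊢
          have hx : FreeGroup.invRev [x] = [(x.1, !x.2)] := by simp [FreeGroup.invRev]
          rw [hx] at h1 h2 ⊢
          exact FreeGroup.IsReduced.append_overlap h1 h2 (by simp)
        rw [FreeGroup.inv_mk, FreeGroup.mul_mk, FreeGroup.toWord_mk, hr.reduce_eq]
        simp [dd, hxy]
        omega

/-- indicator of the first letter -/
def hd (s : Al) (a : List Al) : ℝ := if a.head? = some s then 1 else 0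

/-- indicator of the empty word -/
def em (a : List Al) : ℝ := if a = [] then 1 else 0

/-- indicator of equality -/
def dl (a b : List Al) : ℝ := if a = b then 1 else 0

lemma dd_comm (a : List Al) : ∀ b, dd a b = dd b a := by
  induction a with
  | nil => intro b; cases b <;> simp [dd]
  | cons x a ih =>
    intro b
    cases b with
    | nil => simp [dd]
    | cons y b =>
      simp only [dd, ih b, eq_comm (a := x)]
      split_ifs
      · rfl
      · omega

lemma ker_split (r : ℝ) (a b : List Al) :
    r ^ dd a b = r ^ a.length * r ^ b.length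
      + ∑ s, hd s a * hd s b * (r ^ dd a.tail b.tail - r ^ 2 * (r ^ a.tail.length * r ^ b.tail.length)) := by
  cases a with
  | nil => simp [dd, hd]
  | cons x a =>
    cases b with
    | nil => simp [dd, hd]
    | cons y b =>
      by_cases h : x = y
      · subst h
        rw [Finset.sum_eq_single x]
        · simp [dd, hd]; ring
        · intro s _ hs; simp [hd, Ne.symm hs]
        · simp
      · rw [Finset.sum_eq_zero]
        · simp [dd, h]; ring
        · intro s _
          by_cases h1 : x = s
          · have : ¬ y = s := fun h2 => h (h1.trans h2.symm)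
            simp [hd, this]
          · simp [hd, h1]

lemma dl_split (a b : List Al) :
    dl a b = em a * em b + ∑ s, hd s a * hd s b * dl a.tail b.tail := by
  cases a with
  | nil => cases b <;> simp [dl, hd, em]
  | cons x a =>
    cases b with
    | nil => simp [dl, hd, em]
    | cons y b =>
      by_cases h : x = y
      · subst h
        rw [Finset.sum_eq_single x]
        · simp [dl, hd, em]
        · intro s _ hs; simp [hd, Ne.symm hs]
        · simp
      · rw [Finset.sum_eq_zero]
        · simp [dl, em, h]
        · intro s _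
          by_cases h1 : x = s
          · have : ¬ y = s := fun h2 => h (h1.trans h2.symm)
            simp [hd, this]
          · simp [hd, h1]

lemma pow_split (r : ℝ) (a : List Al) :
    r ^ a.length = em a + r * ∑ s, hd s a * r ^ a.tail.length := by
  cases a with
  | nil => simp [hd, em]
  | cons x a =>
    rw [Finset.sum_eq_single x]
    · simp [hd, em]; ring
    · intro s _ hs; simp [hd, Ne.symm hs]
    · simp

lemma main_real (r : ℝ) (hr : r ^ 2 = 1 / 3) {ι : Type} [Fintype ι] (N : ℕ) :
    ∀ (a : ι → List Al) (c : ι → ℝ), (∀ i, (a i).length ≤ N) →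
      2 / 3 * (∑ i, c i * r ^ (a i).length) ^ 2
        ≤ ∑ i, ∑ j, c i * c j * (r ^ dd (a i) (a j) - 1 / 16 * dl (a i) (a j)) := by
  induction N with
  | zero =>
    intro a c h
    have h0 : ∀ i, a i = [] := fun i => List.eq_nil_of_length_eq_zero (Nat.le_zero.1 (h i))
    simp only [h0, dd, dl, List.length_nil, pow_zero, mul_one, if_true]
    have e : ∑ i, ∑ j, c i * c j * (1 - 1 / 16) = (∑ i, c i) ^ 2 * (1 - 1 / 16) := by
      rw [sq, Finset.sum_mul_sum, Finset.sum_mul]
      exact Finset.sum_congr rfl fun i _ => by rw [Finset.sum_mul]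
    rw [e]
    nlinarith [sq_nonneg (∑ i, c i)]
  | succ N ih =>
    intro a c h
    set F := ∑ i, c i * r ^ (a i).length with hF
    set C := ∑ i, c i * em (a i) with hC
    set G : Al → ℝ := fun s => ∑ i, (c i * hd s (a i)) * r ^ (a i).tail.length with hG
    set Q : Al → ℝ := fun s => ∑ i, ∑ j, (c i * hd s (a i)) * (c j * hd s (a j)) *
      (r ^ dd (a i).tail (a j).tail - 1 / 16 * dl (a i).tail (a j).tail) with hQ
    have h1 : ∀ s, 2 / 3 * G s ^ 2 ≤ Q s := fun s =>
      ih (fun i => (a i).tail) (fun i => c i * hd s (a i)) (fun i => by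
        have := h i
        simp only [List.length_tail]; omega)
    have e1 : F = C + r * ∑ s, G s := by
      simp only [hF, hC, hG]
      rw [Finset.sum_comm, Finset.mul_sum, ← Finset.sum_add_distrib]
      refine Finset.sum_congr rfl fun i _ => ?_
      rw [pow_split r (a i), mul_add, Finset.mul_sum, Finset.mul_sum, Finset.mul_sum]
      congr 1
      exact Finset.sum_congr rfl fun s _ => by ring
    have e2 : ∑ i, ∑ j, c i * c j * (r ^ dd (a i) (a j) - 1 / 16 * dl (a i) (a j))
        = F ^ 2 - 1 / 16 * C ^ 2 + ∑ s, (Q s - r ^ 2 * G s ^ 2) := by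
      have e3 : ∀ s, Q s - r ^ 2 * G s ^ 2 = ∑ i, ∑ j, c i * c j * (hd s (a i) * hd s (a j) *
          (r ^ dd (a i).tail (a j).tail - r ^ 2 * (r ^ (a i).tail.length * r ^ (a j).tail.length))
            - 1 / 16 * (hd s (a i) * hd s (a j) * dl (a i).tail (a j).tail)) := by
        intro s
        simp only [hQ, hG]
        rw [sq (∑ i, _), Finset.sum_mul_sum, Finset.mul_sum, ← Finset.sum_sub_distrib]
        refine Finset.sum_congr rfl fun i _ => ?_
        rw [Finset.mul_sum, ← Finset.sum_sub_distrib]
        exact Finset.sum_congr rfl fun j _ => by ring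
      simp only [e3]
      rw [Finset.sum_comm (s := univ (α := Al)), hF, hC, sq (∑ i, _), sq (∑ i, _),
        Finset.sum_mul_sum, Finset.sum_mul_sum, Finset.mul_sum, ← Finset.sum_sub_distrib,
        ← Finset.sum_add_distrib]
      refine Finset.sum_congr rfl fun i _ => ?_
      rw [Finset.sum_comm (s := univ (α := Al)), Finset.mul_sum, ← Finset.sum_sub_distrib,
        ← Finset.sum_add_distrib]
      refine Finset.sum_congr rfl fun j _ => ?_
      rw [← Finset.mul_sum, Finset.sum_sub_distrib, ← Finset.mul_sum, ker_split r (a i) (a j),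
        dl_split (a i) (a j)]
      ring
    rw [e2]
    have h2 : 1 / 3 * ∑ s, G s ^ 2 ≤ ∑ s, (Q s - r ^ 2 * G s ^ 2) := by
      rw [Finset.mul_sum]
      refine Finset.sum_le_sum fun s _ => ?_
      have := h1 s
      rw [hr]; linarith
    have h3 : (∑ s, G s) ^ 2 ≤ 4 * ∑ s, G s ^ 2 := by
      have := sq_sum_le_card_mul_sum_sq (s := (univ : Finset Al)) (f := G)
      simpa using this
    set S := ∑ s, G s
    set T := ∑ s, G s ^ 2
    have e4 : C = F - r * S := by linarith
    have h4 : C ^ 2 ≤ 2 * F ^ 2 + 2 * (r ^ 2 * S ^ 2) := by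
      rw [e4]; nlinarith [sq_nonneg (F + r * S)]
    rw [hr] at h4
    nlinarith [sq_nonneg F, sq_nonneg S]

lemma main_real' (r : ℝ) (hr : r ^ 2 = 1 / 3) {n : ℕ} (a : Fin n → List Al) (c : Fin n → ℝ) :
    0 ≤ ∑ i, ∑ j, c i * c j * (r ^ dd (a i) (a j) - 1 / 16 * dl (a i) (a j)) := by
  refine le_trans (by positivity) (main_real r hr (∑ i, (a i).length) a c fun i => ?_)
  exact Finset.single_le_sum (f := fun i => (a i).length) (fun _ _ => Nat.zero_le _) (mem_univ i)

open ComplexOrder in
lemma main_complex {n : ℕ} (K : Fin n → Fin n → ℝ) (hs : ∀ i j, K i j = K j i)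
    (hK : ∀ c : Fin n → ℝ, 0 ≤ ∑ i, ∑ j, c i * c j * K i j) (c : Fin n → ℂ) :
    0 ≤ ∑ i, ∑ j, starRingEnd ℂ (c i) * c j * (K i j : ℂ) := by
  rw [Complex.nonneg_iff]
  constructor
  · have h1 := hK (fun i => (c i).re)
    have h2 := hK (fun i => (c i).im)
    have e : (∑ i, ∑ j, starRingEnd ℂ (c i) * c j * (K i j : ℂ)).re
        = ∑ i, ∑ j, (c i).re * (c j).re * K i j + ∑ i, ∑ j, (c i).im * (c j).im * K i j := by
      rw [Complex.re_sum, ← Finset.sum_add_distrib]
      refine Finset.sum_congr rfl fun i _ => ?_
      rw [Complex.re_sum, ← Finset.sum_add_distrib]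
      refine Finset.sum_congr rfl fun j _ => ?_
      simp; ring
    rw [e]; linarith
  · have e : (∑ i, ∑ j, starRingEnd ℂ (c i) * c j * (K i j : ℂ)).im
        = ∑ i, ∑ j, (c i).re * (c j).im * K i j - ∑ i, ∑ j, (c i).im * (c j).re * K i j := by
      rw [Complex.im_sum, ← Finset.sum_sub_distrib]
      refine Finset.sum_congr rfl fun i _ => ?_
      rw [Complex.im_sum, ← Finset.sum_sub_distrib]
      refine Finset.sum_congr rfl fun j _ => ?_
      simp; ring
    rw [e, Finset.sum_comm, eq_comm, sub_eq_zero]
    refine Finset.sum_congr rfl fun i _ => Finset.sum_congr rfl fun j _ => ?_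
    rw [hs j i]; ring

end Pool.Agent.H433Z.Haag
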