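import Mathlib

/-! A law with mean one and a very heavy upper tail. -/

set_option autoImplicit false

namespace Pool.Agent.H433Z.Sand

open Finset Filter Topology MeasureTheory

/-- slowly growing sequence -/
def mm (j : ℕ) : ℕ := Nat.sqrt (Nat.log 2 j / 1200) + 1

/-- the tail mean -/
noncomputable def hh (j : ℕ) : ℝ := (1 / 16) / mm j

lemma mm_mono : Monotone mm := by
  intro a b hab
  unfold mm
  have h1 : Nat.log 2 a ≤ Nat.log 2 b := Nat.log_mono_right hab
  have h2 := Nat.sqrt_le_sqrt (Nat.div_le_div_right (c := 1200) h1)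
  omega

lemma mm_pos (j : ℕ) : (1:ℝ) ≤ mm j := by
  unfold mm; push_cast
  have : (0:ℝ) ≤ Nat.sqrt (Nat.log 2 j / 1200) := by positivity
  linarith

lemma mm_le (j : ℕ) : mm j ≤ j + 1 := by
  unfold mm
  have h1 := Nat.sqrt_le_self (Nat.log 2 j / 1200)
  have h2 := Nat.div_le_self (Nat.log 2 j) 1200
  have h3 := Nat.log_le_self 2 j
  omega

lemma mm_sq (j : ℕ) : 600 * mm j ^ 2 ≤ Nat.log 2 j + 1200 := by
  unfold mm
  have h1 := Nat.sqrt_le' (Nat.log 2 j / 1200)
  have h2 := Nat.div_mul_le_self (Nat.log 2 j) 1200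
  set a := Nat.sqrt (Nat.log 2 j / 1200)
  have h3 : (a + 1) ^ 2 ≤ 2 * a ^ 2 + 2 := by
    zify; nlinarith [sq_nonneg ((a:ℤ) - 1)]
  omega

lemma mm_tendsto : Tendsto mm atTop atTop := by
  refine tendsto_atTop_atTop_of_monotone mm_mono fun b => ⟨2 ^ (1200 * (b * b)), ?_⟩
  unfold mm
  rw [Nat.log_pow (by norm_num), Nat.mul_div_cancel_left _ (by norm_num), Nat.sqrt_eq]
  omega

lemma hh_pos (j : ℕ) : 0 < hh j := by
  unfold hh
  have := mm_pos j
  positivity

lemma hh_anti : Antitone hh := by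
  intro a b hab
  unfold hh
  have h1 := mm_pos a
  have h2 : (mm a : ℝ) ≤ mm b := by exact_mod_cast mm_mono hab
  gcongr

lemma hh_zero : hh 0 = 1 / 16 := by
  simp [hh, mm]

lemma hh_le (j : ℕ) : hh j ≤ 1 / 16 := hh_zero ▸ hh_anti (Nat.zero_le j)

lemma hh_tendsto : Tendsto hh atTop (𝓝 0) := by
  unfold hh
  exact tendsto_const_nhds.div_atTop (tendsto_natCast_atTop_atTop.comp mm_tendsto)

lemma dd_nonneg (l : ℕ) : 0 ≤ hh l - hh (l + 1) := sub_nonneg.2 (hh_anti (Nat.le_succ l))

lemma hasSum_dd : HasSum (fun l => hh l - hh (l + 1)) (1 / 16) := by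
  rw [hasSum_iff_tendsto_nat_of_nonneg dd_nonneg]
  simp only [Finset.sum_range_sub', hh_zero]
  simpa using (tendsto_const_nhds (x := (1 / 16 : ℝ))).sub hh_tendsto

/-- probability of the atom `2 ^ (l + 1)` -/
noncomputable def qq (l : ℕ) : ℝ := (hh l - hh (l + 1)) / 2 ^ (l + 1)

lemma qq_nonneg (l : ℕ) : 0 ≤ qq l := div_nonneg (dd_nonneg l) (by positivity)

lemma qq_le (l : ℕ) : qq l ≤ hh l - hh (l + 1) :=
  div_le_self (dd_nonneg l) (one_le_pow₀ (by norm_num))

lemma summable_qq : Summable qq :=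
  Summable.of_nonneg_of_le qq_nonneg qq_le hasSum_dd.summable

lemma tsum_qq_le : ∑' l, qq l ≤ 1 / 16 := by
  rw [← hasSum_dd.tsum_eq]
  exact summable_qq.tsum_le_tsum qq_le hasSum_dd.summable

/-- weights of the atoms -/
noncomputable def pp : ℕ → ℝ
  | 0 => 1 - ∑' l, qq l
  | l + 1 => qq l

/-- the atoms, shifted -/
noncomputable def xi : ℕ → ℝ
  | 0 => 0
  | l + 1 => 2 ^ (l + 1)

lemma pp_nonneg (i : ℕ) : 0 ≤ pp i := by
  cases i with
  | zero => have := tsum_qq_le; simp only [pp]; linarith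
  | succ l => exact qq_nonneg l

lemma xi_nonneg (i : ℕ) : 0 ≤ xi i := by
  cases i with
  | zero => simp [xi]
  | succ l => simp only [xi]; positivity

lemma hasSum_pp : HasSum pp 1 := by
  rw [← hasSum_nat_add_iff' 1]
  simpa [pp] using summable_qq.hasSum

lemma pp_xi (l : ℕ) : pp (l + 1) * xi (l + 1) = hh l - hh (l + 1) := by
  simp only [pp, xi, qq]; field_simp

lemma hasSum_ppxi : HasSum (fun i => pp i * xi i) (1 / 16) := by
  rw [← hasSum_nat_add_iff' 1]
  simp only [pp_xi]
  simpa [xi] using hasSum_dd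

/-- the law -/
noncomputable def nu : Measure ℝ :=
  Measure.sum fun i => ENNReal.ofReal (pp i) • Measure.dirac (15 / 16 + xi i)

instance nu_prob : IsProbabilityMeasure nu := by
  constructor
  rw [nu, Measure.sum_apply _ MeasurableSet.univ]
  simp only [Measure.smul_apply, measure_univ, smul_eq_mul, mul_one]
  rw [← ENNReal.ofReal_tsum_of_nonneg pp_nonneg hasSum_pp.summable, hasSum_pp.tsum_eq]
  simp

lemma integral_nu (f : ℝ → ℝ) : ∫ t, f t ∂nu = ∑' i, pp i * f (15 / 16 + xi i) := by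
  rw [nu, integral_sum_dirac (fun i => ENNReal.ofReal_ne_top)]
  simp only [ENNReal.toReal_ofReal (pp_nonneg _), smul_eq_mul]

lemma hasSum_id : HasSum (fun i => pp i * (15 / 16 + xi i)) 1 := by
  have := (hasSum_pp.mul_right (15 / 16)).add hasSum_ppxi
  have e : (fun i => pp i * (15 / 16 + xi i)) = fun b => pp b * (15 / 16) + pp b * xi b := by
    funext i; ring
  have e2 : (1:ℝ) * (15 / 16) + 1 / 16 = 1 := by norm_num
  rw [e2] at this
  rw [e]; exact this

lemma integrable_id_nu : Integrable (fun t : ℝ => t) nu := by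
  rw [nu]
  refine integrable_sum_dirac (fun i => ENNReal.ofReal_ne_top) ?_
  refine hasSum_id.summable.congr fun i => ?_
  have := xi_nonneg i
  rw [ENNReal.toReal_ofReal (pp_nonneg _), Real.norm_of_nonneg (by linarith)]

lemma mean_nu : ∫ t, t ∂nu = 1 := by
  rw [integral_nu (fun t => t), hasSum_id.tsum_eq]

lemma ae_nu : ∀ᵐ t ∂nu, (15 / 16 : ℝ) ≤ t := by
  rw [nu, Measure.ae_sum_iff]
  intro i
  refine Measure.ae_smul_measure ?_ _
  rw [ae_dirac_iff measurableSet_Ici]
  have := xi_nonneg i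
  change (15 / 16 : ℝ) ≤ _
  linarith

/-- excess over the lowest atom -/
noncomputable def X (t : ℝ) : ℝ := max (t - 15 / 16) 0

/-- truncation at height `2 ^ k` -/
noncomputable def tr (k : ℕ) (t : ℝ) : ℝ := if X t ≤ 2 ^ k then X t else 0

lemma X_nonneg (t : ℝ) : 0 ≤ X t := le_max_right _ _

lemma X_meas : Measurable X := by unfold X; fun_prop

lemma tr_meas (k : ℕ) : Measurable (tr k) :=
  Measurable.ite (measurableSet_le X_meas measurable_const) X_meas measurable_const

lemma tr_nonneg (k : ℕ) (t : ℝ) : 0 ≤ tr k t := by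
  unfold tr; split_ifs
  · exact X_nonneg t
  · exact le_rfl

lemma tr_le (k : ℕ) (t : ℝ) : tr k t ≤ 2 ^ k := by
  unfold tr; split_ifs with h
  · exact h
  · positivity

lemma tr_le_X (k : ℕ) (t : ℝ) : tr k t ≤ X t := by
  unfold tr; split_ifs with h
  · exact le_rfl
  · exact X_nonneg t

lemma X_atom (i : ℕ) : X (15 / 16 + xi i) = xi i := by
  unfold X
  rw [add_sub_cancel_left, max_eq_left (xi_nonneg i)]

lemma integrable_X : Integrable X nu :=
  (integrable_id_nu.sub (integrable_const (15 / 16 : ℝ))).sup (integrable_const 0)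

lemma integral_X : ∫ t, X t ∂nu = 1 / 16 := by
  rw [integral_nu]
  simp only [X_atom]
  exact hasSum_ppxi.tsum_eq

lemma integrable_tr (k : ℕ) : Integrable (tr k) nu :=
  Integrable.of_bound (tr_meas k).aestronglyMeasurable (2 ^ k)
    (Eventually.of_forall fun t => by
      rw [Real.norm_of_nonneg (tr_nonneg k t)]; exact tr_le k t)

lemma integrable_tr_sq (k : ℕ) : Integrable (fun t => tr k t ^ 2) nu :=
  Integrable.of_bound ((tr_meas k).pow_const 2).aestronglyMeasurable ((2 ^ k) ^ 2)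
    (Eventually.of_forall fun t => by
      rw [Real.norm_of_nonneg (by positivity)]
      exact pow_le_pow_left₀ (tr_nonneg k t) (tr_le k t) 2)

lemma integral_tr (k : ℕ) : ∫ t, tr k t ∂nu = 1 / 16 - hh k := by
  rw [integral_nu, tsum_eq_sum (s := range (k + 1))]
  · rw [Finset.sum_range_succ', ← hh_zero, ← Finset.sum_range_sub']
    have e0 : pp 0 * tr k (15 / 16 + xi 0) = 0 := by
      unfold tr; rw [X_atom]; simp [xi]
    rw [e0, add_zero]
    refine Finset.sum_congr rfl fun l hl => ?_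
    rw [← pp_xi]
    unfold tr
    rw [X_atom, if_pos]
    simp only [xi]
    exact pow_le_pow_right₀ (by norm_num) (by simpa using hl)
  · intro i hi
    cases i with
    | zero => simp at hi
    | succ l =>
      unfold tr
      rw [X_atom, if_neg, mul_zero]
      simp only [xi, not_le]
      exact pow_lt_pow_right₀ (by norm_num) (by simpa using hi)

/-- truncated second moment -/
noncomputable def vv (k : ℕ) : ℝ := ∫ t, tr k t ^ 2 ∂nu

lemma vv_nonneg (k : ℕ) : 0 ≤ vv k := integral_nonneg fun _ => sq_nonneg _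

lemma vv_zero : vv 0 = 0 := by
  refine le_antisymm ?_ (vv_nonneg 0)
  have h1 : vv 0 ≤ ∫ t, tr 0 t ∂nu := by
    refine integral_mono (integrable_tr_sq 0) (integrable_tr 0) fun t => ?_
    have h1 := tr_nonneg 0 t
    have h2 := tr_le 0 t
    simp only [pow_zero] at h2
    change tr 0 t ^ 2 ≤ tr 0 t
    nlinarith
  rw [integral_tr, hh_zero] at h1
  linarith

lemma sum_tr_sq (N : ℕ) (t : ℝ) :
    ∑ k ∈ range N, tr k t ^ 2 / 2 ^ k ≤ max 0 (2 * X t - 2 * X t ^ 2 / 2 ^ N) := by
  have hx := X_nonneg t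
  induction N with
  | zero => simp
  | succ N ih =>
    rw [Finset.sum_range_succ]
    have hp : (0:ℝ) < 2 ^ N := by positivity
    by_cases h : X t ≤ 2 ^ N
    · have e : tr N t = X t := by unfold tr; rw [if_pos h]
      have h1 : 0 ≤ 2 * X t - 2 * X t ^ 2 / 2 ^ N := by
        rw [sub_nonneg, div_le_iff₀ hp]; nlinarith
      rw [max_eq_right h1] at ih
      refine le_trans ?_ (le_max_right _ _)
      have e2 : 2 * X t ^ 2 / 2 ^ (N + 1) = X t ^ 2 / 2 ^ N := by field_simp; ring
      have e3 : 2 * X t ^ 2 / 2 ^ N = 2 * (X t ^ 2 / 2 ^ N) := by ring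
      rw [e, e2]
      linarith
    · have e : tr N t = 0 := by unfold tr; rw [if_neg h]
      have h1 : 2 * X t - 2 * X t ^ 2 / 2 ^ N ≤ 0 := by
        rw [sub_nonpos, le_div_iff₀ hp]; nlinarith
      rw [max_eq_left h1] at ih
      refine le_trans ?_ (le_max_left _ _)
      rw [e]; simpa using ih

lemma sum_vv (N : ℕ) : ∑ k ∈ range N, vv k / 2 ^ k ≤ 1 / 8 := by
  have h1 : ∑ k ∈ range N, vv k / 2 ^ k = ∫ t, ∑ k ∈ range N, tr k t ^ 2 / 2 ^ k ∂nu := by
    rw [integral_finsetSum _ fun k _ => (integrable_tr_sq k).div_const _]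
    simp only [vv, integral_div]
  have h2 : ∫ t, ∑ k ∈ range N, tr k t ^ 2 / 2 ^ k ∂nu ≤ ∫ t, 2 * X t ∂nu := by
    refine integral_mono (integrable_finsetSum _ fun k _ => (integrable_tr_sq k).div_const _)
      (integrable_X.const_mul 2) fun t => ?_
    refine (sum_tr_sq N t).trans (max_le ?_ ?_)
    · have := X_nonneg t; positivity
    · have : 0 ≤ 2 * X t ^ 2 / 2 ^ N := by positivity
      linarith
  rw [integral_const_mul, integral_X] at h2
  linarith

/-- indicator of a large value -/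
noncomputable def big (k : ℕ) (t : ℝ) : ℝ := if X t ≤ 2 ^ k then 0 else 1

lemma big_meas (k : ℕ) : Measurable (big k) :=
  Measurable.ite (measurableSet_le X_meas measurable_const) measurable_const measurable_const

lemma big_nonneg (k : ℕ) (t : ℝ) : 0 ≤ big k t := by
  unfold big; split_ifs <;> norm_num

lemma integrable_big (k : ℕ) : Integrable (big k) nu :=
  Integrable.of_bound (big_meas k).aestronglyMeasurable 1
    (Eventually.of_forall fun t => by
      rw [Real.norm_of_nonneg (big_nonneg k t)]; unfold big; split_ifs <;> norm_num)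

lemma sum_big_pt (N : ℕ) (t : ℝ) :
    ∑ k ∈ range N, 2 ^ k * big k t ≤ 2 ^ N ∧ ∑ k ∈ range N, 2 ^ k * big k t ≤ 2 * X t := by
  have hx := X_nonneg t
  induction N with
  | zero => simp [hx]
  | succ N ih =>
    rw [Finset.sum_range_succ, pow_succ]
    have hp : (0:ℝ) < 2 ^ N := by positivity
    unfold big at *
    split_ifs with h
    · constructor <;> linarith [ih.1, ih.2]
    · constructor <;> linarith [ih.1, ih.2]

lemma sum_big (N : ℕ) : ∑ k ∈ range N, 2 ^ k * ∫ t, big k t ∂nu ≤ 1 / 8 := by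
  have h1 : ∑ k ∈ range N, 2 ^ k * ∫ t, big k t ∂nu
      = ∫ t, ∑ k ∈ range N, 2 ^ k * big k t ∂nu := by
    rw [integral_finsetSum _ fun k _ => (integrable_big k).const_mul _]
    simp only [integral_const_mul]
  have h2 : ∫ t, ∑ k ∈ range N, 2 ^ k * big k t ∂nu ≤ ∫ t, 2 * X t ∂nu :=
    integral_mono (integrable_finsetSum _ fun k _ => (integrable_big k).const_mul _)
      (integrable_X.const_mul 2) fun t => (sum_big_pt N t).2
  rw [integral_const_mul, integral_X] at h2
  linarith

lemma not_integrable_sq : ¬ Integrable (fun t : ℝ => t ^ 2) nu := by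
  intro hI
  set M := ∫ t, t ^ 2 ∂nu with hM
  have key : ∀ k : ℕ, 1 ≤ 16 * M * ((k:ℝ) ^ 1 / 2 ^ k + (k:ℝ) ^ 0 / 2 ^ k) := by
    intro k
    have hp : (0:ℝ) < 2 ^ k := by positivity
    have h1 : ∫ t, (X t - tr k t) ∂nu ≤ ∫ t, t ^ 2 / 2 ^ k ∂nu := by
      refine integral_mono (integrable_X.sub (integrable_tr k)) (hI.div_const _) fun t => ?_
      change X t - tr k t ≤ t ^ 2 / 2 ^ k
      have hx := X_nonneg t
      have hxt : X t ^ 2 ≤ t ^ 2 := by
        unfold X
        rcases le_total (t - 15 / 16) 0 with h | h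
        · rw [max_eq_right h]; nlinarith [sq_nonneg t]
        · rw [max_eq_left h]; nlinarith
      unfold tr
      split_ifs with h
      · rw [sub_self]; positivity
      · rw [sub_zero, le_div_iff₀ hp]; nlinarith
    rw [integral_sub integrable_X (integrable_tr k), integral_X, integral_tr, integral_div,
      ← hM] at h1
    have h2 : (mm k : ℝ) ≤ k + 1 := by exact_mod_cast mm_le k
    have h3 := mm_pos k
    have h4 : (1 / 16 : ℝ) / (k + 1) ≤ hh k := by unfold hh; gcongr
    have h5 : (1 / 16 : ℝ) / (k + 1) ≤ M / 2 ^ k := by linarith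
    rw [div_le_iff₀ (by positivity)] at h5
    have e : 16 * M * ((k:ℝ) ^ 1 / 2 ^ k + (k:ℝ) ^ 0 / 2 ^ k) = 16 * (M / 2 ^ k * (k + 1)) := by
      field_simp
    rw [e]; linarith
  have t1 := tendsto_pow_const_div_const_pow_of_one_lt 1 (r := 2) (by norm_num)
  have t0 := tendsto_pow_const_div_const_pow_of_one_lt 0 (r := 2) (by norm_num)
  have t2 := (t1.add t0).const_mul (16 * M)
  have := ge_of_tendsto' t2 key
  norm_num at this

end Pool.Agent.H433Z.Sand
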