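import Pool.Agent.H433Z.SandGraph
import Pool.Agent.H433Z.SandLaw

/-! Exponential moments and the drift estimate. -/

set_option autoImplicit false

namespace Pool.Agent.H433Z.Sand

open Finset Filter Topology MeasureTheory ProbabilityTheory
open Classical

lemma exp_le_quad (y : ℝ) (hy : y ≤ 1) : Real.exp y ≤ 1 + y + y ^ 2 := by
  rcases le_total (-1) y with h | h
  · have := Real.abs_exp_sub_one_sub_id_le (x := y) (abs_le.2 ⟨h, hy⟩)
    have := (abs_le.1 this).2
    linarith
  · have h1 : Real.exp y ≤ 1 := Real.exp_le_one_iff.2 (by linarith)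
    nlinarith

/-- the product law -/
noncomputable abbrev PP : Measure (Vt → ℝ) := Measure.infinitePi (fun _ : Vt => nu)

lemma one_moment (a : ℝ) (k : ℕ) (h : ∀ t, a * tr k t ≤ 1) :
    ∫⁻ t, ENNReal.ofReal (Real.exp (a * (tr k t - (1 / 16 - hh k)))) ∂nu
      ≤ ENNReal.ofReal (Real.exp (a ^ 2 * vv k)) := by
  set m : ℝ := 1 / 16 - hh k with hm
  have hint : Integrable (fun t => Real.exp (-(a * m)) * (1 + a * tr k t + a ^ 2 * tr k t ^ 2)) nu :=
    (((integrable_const 1).add ((integrable_tr k).const_mul a)).add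
      ((integrable_tr_sq k).const_mul (a ^ 2))).const_mul _
  have hpt : ∀ t, Real.exp (a * (tr k t - m))
      ≤ Real.exp (-(a * m)) * (1 + a * tr k t + a ^ 2 * tr k t ^ 2) := by
    intro t
    have e : a * (tr k t - m) = -(a * m) + a * tr k t := by ring
    rw [e, Real.exp_add]
    refine mul_le_mul_of_nonneg_left ?_ (Real.exp_pos _).le
    have := exp_le_quad _ (h t)
    rw [mul_pow] at this
    exact this
  calc ∫⁻ t, ENNReal.ofReal (Real.exp (a * (tr k t - m))) ∂nu
      ≤ ∫⁻ t, ENNReal.ofReal (Real.exp (-(a * m)) * (1 + a * tr k t + a ^ 2 * tr k t ^ 2)) ∂nu :=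
        lintegral_mono fun t => ENNReal.ofReal_le_ofReal (hpt t)
    _ = ENNReal.ofReal (∫ t, Real.exp (-(a * m)) * (1 + a * tr k t + a ^ 2 * tr k t ^ 2) ∂nu) :=
        (ofReal_integral_eq_lintegral_ofReal hint
          (Eventually.of_forall fun t => (Real.exp_pos _).le.trans (hpt t))).symm
    _ ≤ _ := by
        refine ENNReal.ofReal_le_ofReal ?_
        have i1 : Integrable (fun t => 1 + a * tr k t) nu :=
          (integrable_const 1).add ((integrable_tr k).const_mul a)
        rw [integral_const_mul, integral_add i1 ((integrable_tr_sq k).const_mul (a ^ 2)),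
          integral_add (integrable_const 1) ((integrable_tr k).const_mul a), integral_const_mul,
          integral_const_mul, integral_tr, ← hm]
        simp only [integral_const, probReal_univ, smul_eq_mul, mul_one]
        have h1 := Real.add_one_le_exp (a * m + a ^ 2 * vv k)
        have e : a ^ 2 * vv k = -(a * m) + (a * m + a ^ 2 * vv k) := by ring
        rw [e, Real.exp_add]
        refine mul_le_mul_of_nonneg_left ?_ (Real.exp_pos _).le
        unfold vv at *
        linarith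

lemma exp_moment (F : Finset Vt) (a : Vt → ℝ) (k : Vt → ℕ)
    (h : ∀ v ∈ F, ∀ t, a v * tr (k v) t ≤ 1) :
    Integrable (fun σ : Vt → ℝ =>
      Real.exp (∑ v ∈ F, a v * (tr (k v) (σ v) - (1 / 16 - hh (k v))))) PP ∧
    ∫ σ : Vt → ℝ, Real.exp (∑ v ∈ F, a v * (tr (k v) (σ v) - (1 / 16 - hh (k v)))) ∂PP
      ≤ Real.exp (∑ v ∈ F, a v ^ 2 * vv (k v)) := by
  let φ : Vt → ℝ → ENNReal := fun v t =>
    ENNReal.ofReal (Real.exp (a v * (tr (k v) t - (1 / 16 - hh (k v)))))
  have hφ : ∀ v, Measurable (φ v) := fun v => by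
    have := tr_meas (k v)
    simp only [φ]; fun_prop
  have hind : iIndepFun (fun v (σ : Vt → ℝ) => φ v (σ v)) PP := iIndepFun_infinitePi hφ
  have hprod := lintegral_prod_eq_prod_lintegral_of_indepFun F _ hind
    (fun v => (hφ v).comp (measurable_pi_apply v))
  have hl : ∫⁻ σ : Vt → ℝ, ENNReal.ofReal
      (Real.exp (∑ v ∈ F, a v * (tr (k v) (σ v) - (1 / 16 - hh (k v))))) ∂PP
      ≤ ENNReal.ofReal (Real.exp (∑ v ∈ F, a v ^ 2 * vv (k v))) := by
    simp only [Real.exp_sum]
    rw [ENNReal.ofReal_prod_of_nonneg (fun _ _ => (Real.exp_pos _).le)]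
    have e : ∀ σ : Vt → ℝ, ENNReal.ofReal
        (∏ v ∈ F, Real.exp (a v * (tr (k v) (σ v) - (1 / 16 - hh (k v)))))
        = ∏ v ∈ F, φ v (σ v) := fun σ =>
      ENNReal.ofReal_prod_of_nonneg (fun _ _ => (Real.exp_pos _).le)
    simp only [e]
    rw [hprod]
    refine Finset.prod_le_prod' fun v hv => ?_
    have := (measurePreserving_eval_infinitePi (fun _ : Vt => nu) v).lintegral_comp (hφ v)
    simp only [Function.eval] at this
    rw [this]
    exact one_moment (a v) (k v) (h v hv)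
  have hm : Measurable (fun σ : Vt → ℝ =>
      Real.exp (∑ v ∈ F, a v * (tr (k v) (σ v) - (1 / 16 - hh (k v))))) := by
    refine Real.measurable_exp.comp (Finset.measurable_sum _ fun v _ => ?_)
    exact (((tr_meas (k v)).comp (measurable_pi_apply v)).sub_const _).const_mul _
  have h0 : 0 ≤ᵐ[PP] (fun σ : Vt → ℝ =>
      Real.exp (∑ v ∈ F, a v * (tr (k v) (σ v) - (1 / 16 - hh (k v))))) :=
    Eventually.of_forall fun σ => (Real.exp_pos _).le
  refine ⟨⟨hm.aestronglyMeasurable, (hasFiniteIntegral_iff_ofReal h0).2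
    (lt_of_le_of_lt hl ENNReal.ofReal_lt_top)⟩, ?_⟩
  rw [integral_eq_lintegral_of_nonneg_ae h0 hm.aestronglyMeasurable]
  exact ENNReal.toReal_le_of_le_ofReal (Real.exp_pos _).le hl

lemma shift_le (N j : ℕ) (F : ℕ → ℝ) (hF : ∀ k, 0 ≤ F k) :
    ∑ i ∈ range N, (if j ≤ i then F (i - j) else 0) ≤ ∑ k ∈ range N, F k := by
  rw [← Finset.sum_filter]
  have e : (range N).filter (fun i => j ≤ i) = Ico j N := by
    ext i; simp; tauto
  rw [e, Finset.sum_Ico_eq_sum_range]
  simp only [Nat.add_sub_cancel_left]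
  exact Finset.sum_le_sum_of_subset_of_nonneg (Finset.range_subset_range.2 (Nat.sub_le _ _))
    fun i _ _ => hF i

lemma Tw_le (i : ℕ) : Tw i ≤ 2 := by unfold Tw; split_ifs <;> norm_num

lemma Tw_nonneg (i : ℕ) : 0 ≤ Tw i := by unfold Tw; split_ifs <;> norm_num

lemma variance_le (n : ℕ) (x : List Bool) :
    ∑ v ∈ Bn n, g x (base v) ^ 2 * vv (lev v - x.length) ≤ 1 / 4 := by
  have h1 : ∑ v ∈ Bn n, g x (base v) ^ 2 * vv (lev v - x.length)
      ≤ ∑ v ∈ Bn n, g x (base v) * (2 ^ x.length / 2 ^ (lev v) * vv (lev v - x.length)) := by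
    refine Finset.sum_le_sum fun v _ => ?_
    have h1 := g_nonneg x (base v)
    have h2 := g_le x (base v)
    have h3 := vv_nonneg (lev v - x.length)
    rw [sq, mul_assoc]
    exact mul_le_mul_of_nonneg_left (mul_le_mul_of_nonneg_right h2 h3) h1
  rw [sum_Bn_g n x (fun i => 2 ^ x.length / 2 ^ i * vv (i - x.length))] at h1
  have h2 : ∑ i ∈ range (n + 1), gam x.length i * (Tw i * (2 ^ x.length / 2 ^ i * vv (i - x.length)))
      ≤ ∑ i ∈ range (n + 1),
        (if x.length ≤ i then 2 * (vv (i - x.length) / 2 ^ (i - x.length)) else 0) := by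
    refine Finset.sum_le_sum fun i _ => ?_
    unfold gam
    split_ifs with h
    · obtain ⟨k, rfl⟩ := Nat.exists_eq_add_of_le h
      rw [Nat.add_sub_cancel_left, one_mul]
      have e : (2:ℝ) ^ x.length / 2 ^ (x.length + k) * vv k = vv k / 2 ^ k := by
        field_simp; ring
      rw [e]
      have := vv_nonneg k
      exact mul_le_mul_of_nonneg_right (Tw_le _) (by positivity)
    · have : i - x.length = 0 := by omega
      rw [this, vv_zero]; simp
  have h3 := shift_le (n + 1) x.length (fun k => 2 * (vv k / 2 ^ k))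
    (fun k => by have := vv_nonneg k; positivity)
  have h4 := sum_vv (n + 1)
  rw [← Finset.mul_sum] at h3
  linarith

lemma geom_low (j N : ℕ) : ∑ i ∈ range N, (if j ≤ i then (0:ℝ) else 2 ^ i / 2 ^ j) ≤ 1 := by
  have key : ∀ N : ℕ, ∑ i ∈ range N, (if j ≤ i then (0:ℝ) else 2 ^ i / 2 ^ j)
      ≤ 2 ^ (min N j) / 2 ^ j := by
    intro N
    induction N with
    | zero => simp
    | succ N ih =>
      rw [Finset.sum_range_succ]
      split_ifs with h
      · rw [min_eq_right h] at ih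
        rw [min_eq_right (by omega), add_zero]; exact ih
      · rw [min_eq_left (by omega)] at ih
        rw [min_eq_left (by omega), pow_succ]
        have e : (2:ℝ) ^ N * 2 / 2 ^ j = 2 ^ N / 2 ^ j + 2 ^ N / 2 ^ j := by ring
        rw [e]; linarith
  refine (key N).trans ?_
  rw [div_le_one (by positivity)]
  exact pow_le_pow_right₀ (by norm_num) (min_le_right _ _)

lemma sum_le_inj (S T : Finset ℕ) (e : ℕ → ℕ) (f F : ℕ → ℝ) (h1 : Set.InjOn e S)
    (h2 : S.image e ⊆ T) (h3 : ∀ i ∈ S, f i ≤ F (e i)) (h4 : ∀ i, 0 ≤ F i) :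
    ∑ i ∈ S, f i ≤ ∑ i ∈ T, F i := by
  calc ∑ i ∈ S, f i ≤ ∑ i ∈ S, F (e i) := Finset.sum_le_sum h3
    _ = ∑ i ∈ S.image e, F i := (Finset.sum_image h1).symm
    _ ≤ ∑ i ∈ T, F i := Finset.sum_le_sum_of_subset_of_nonneg h2 fun i _ _ => h4 i

lemma special_part (n j : ℕ) (hj : j ≤ n) :
    ∑ i ∈ (range (n + 1)).filter E, (if j ≤ i then hh (i - j) else 0)
      + Nat.log 2 j * hh j ≤ ∑ i ∈ (range (n + 1)).filter E, hh i + 1 / 16 := by
  set A := (range (n + 1)).filter E with hA
  have hmem : ∀ i, i ∈ A ↔ i ≤ n ∧ ∃ q, i = 2 ^ q := by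
    intro i; simp [hA, E]
  rw [← Finset.sum_filter, ← Finset.sum_filter_add_sum_filter_not A (fun i => j ≤ i) hh]
  set A1 := A.filter (fun i => j ≤ i) with hA1
  rw [← Finset.sum_filter_add_sum_filter_not A1 (fun i => 2 * j ≤ i ∧ 2 ≤ i)]
  -- far part
  have h1 : ∑ i ∈ A1.filter (fun i => 2 * j ≤ i ∧ 2 ≤ i), hh (i - j) ≤ ∑ i ∈ A1, hh i := by
    calc ∑ i ∈ A1.filter (fun i => 2 * j ≤ i ∧ 2 ≤ i), hh (i - j)
        ≤ ∑ i ∈ A1.filter (fun i => 2 * j ≤ i ∧ 2 ≤ i), hh (i / 2) := by
          refine Finset.sum_le_sum fun i hi => hh_anti ?_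
          simp only [mem_filter] at hi
          omega
      _ ≤ ∑ i ∈ A1, hh i := by
          refine sum_le_inj _ _ (fun i => i / 2) _ _ ?_ ?_ (fun i _ => le_rfl)
            (fun i => (hh_pos i).le)
          · intro a ha b hb hab
            simp only [hA1, coe_filter, mem_filter, hmem, Set.mem_ofPred_eq] at ha hb
            obtain ⟨⟨⟨_, qa, rfl⟩, _⟩, _, ha2⟩ := ha
            obtain ⟨⟨⟨_, qb, rfl⟩, _⟩, _, hb2⟩ := hb
            cases qa with
            | zero => simp at ha2
            | succ qa =>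
              cases qb with
              | zero => simp at hb2
              | succ qb =>
                simp only [pow_succ] at hab ⊢
                omega
          · intro a ha
            simp only [mem_image, hA1, mem_filter, hmem] at ha ⊢
            obtain ⟨i, ⟨⟨⟨hi, q, rfl⟩, _⟩, h2, h3⟩, rfl⟩ := ha
            cases q with
            | zero => simp at h3
            | succ q =>
              refine ⟨⟨by omega, q, ?_⟩, by omega⟩
              rw [pow_succ]; omega
  -- near part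
  have h2 : ∑ i ∈ A1.filter (fun i => ¬ (2 * j ≤ i ∧ 2 ≤ i)), hh (i - j) ≤ 1 / 16 := by
    have hc : (A1.filter (fun i => ¬ (2 * j ≤ i ∧ 2 ≤ i))).card ≤ 1 := by
      rw [Finset.card_le_one]
      intro a ha b hb
      simp only [hA1, mem_filter, hmem] at ha hb
      obtain ⟨⟨⟨_, qa, rfl⟩, ha1⟩, ha2⟩ := ha
      obtain ⟨⟨⟨_, qb, rfl⟩, hb1⟩, hb2⟩ := hb
      have aux : ∀ p q : ℕ, p < q → 2 * 2 ^ p ≤ 2 ^ q := fun p q h => by
        rw [← pow_succ']; exact Nat.pow_le_pow_right (by norm_num) h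
      have p1 : 1 ≤ 2 ^ qa := Nat.one_le_two_pow
      have p2 : 1 ≤ 2 ^ qb := Nat.one_le_two_pow
      rcases lt_trichotomy qa qb with h | h | h
      · have := aux _ _ h; omega
      · rw [h]
      · have := aux _ _ h; omega
    have := Finset.sum_le_card_nsmul (A1.filter (fun i => ¬ (2 * j ≤ i ∧ 2 ≤ i)))
      (fun i => hh (i - j)) (1 / 16) (fun i _ => hh_le _)
    rw [nsmul_eq_mul] at this
    have hc' : ((A1.filter (fun i => ¬ (2 * j ≤ i ∧ 2 ≤ i))).card : ℝ) ≤ 1 := by exact_mod_cast hc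
    linarith
  -- low part
  have h3 : Nat.log 2 j * hh j ≤ ∑ i ∈ A.filter (fun i => ¬ j ≤ i), hh i := by
    have hlt : ∀ q, q < Nat.log 2 j → 2 ^ q < j := fun q hq => by
      have hj0 : j ≠ 0 := by rintro rfl; simp at hq
      exact lt_of_lt_of_le (Nat.pow_lt_pow_right (by norm_num) hq) (Nat.pow_log_le_self 2 hj0)
    calc (Nat.log 2 j : ℝ) * hh j = ∑ _q ∈ range (Nat.log 2 j), hh j := by simp
      _ ≤ ∑ i ∈ A.filter (fun i => ¬ j ≤ i), hh i := by
          refine sum_le_inj _ _ (fun q => 2 ^ q) _ _ ?_ ?_ ?_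
            (fun i => (hh_pos i).le)
          · intro a _ b _ hab
            exact Nat.pow_right_injective (le_refl 2) hab
          · intro a ha
            simp only [mem_image, mem_range, mem_filter, hmem] at ha ⊢
            obtain ⟨q, hq, rfl⟩ := ha
            have := hlt q hq
            exact ⟨⟨by omega, q, rfl⟩, by omega⟩
          · intro q hq
            exact hh_anti (hlt q (by simpa using hq)).le
  linarith

lemma drift_le (n j : ℕ) (hj : j ≤ n) :
    ∑ i ∈ range (n + 1), gam j i * (Tw i * hh (i - j)) + (Nat.log 2 j * hh j - 3 / 16)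
      ≤ ∑ i ∈ range (n + 1), Tw i * hh i := by
  have h1 : ∑ i ∈ range (n + 1), Tw i * hh i
      = ∑ i ∈ range (n + 1), hh i + ∑ i ∈ (range (n + 1)).filter E, hh i := by
    rw [Finset.sum_filter, ← Finset.sum_add_distrib]
    refine Finset.sum_congr rfl fun i _ => ?_
    unfold Tw; split_ifs <;> ring
  have h2 : ∑ i ∈ range (n + 1), gam j i * (Tw i * hh (i - j))
      ≤ ∑ i ∈ range (n + 1), (if j ≤ i then hh (i - j) else 0)
        + ∑ i ∈ (range (n + 1)).filter E, (if j ≤ i then hh (i - j) else 0)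
        + (1 / 8) * ∑ i ∈ range (n + 1), (if j ≤ i then (0:ℝ) else 2 ^ i / 2 ^ j) := by
    rw [Finset.sum_filter, Finset.mul_sum, ← Finset.sum_add_distrib, ← Finset.sum_add_distrib]
    refine Finset.sum_le_sum fun i _ => ?_
    unfold gam
    by_cases h : j ≤ i
    · simp only [h, if_true]
      unfold Tw; split_ifs <;> linarith
    · simp only [h, if_false, ite_self, zero_add]
      have a1 := Tw_le i
      have a2 := hh_le (i - j)
      have a3 := (hh_pos (i - j)).le
      have a4 : Tw i * hh (i - j) ≤ 1 / 8 := by nlinarith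
      have a5 : (0:ℝ) ≤ 2 ^ i / 2 ^ j := by positivity
      nlinarith
  have h3 := shift_le (n + 1) j hh (fun k => (hh_pos k).le)
  have h4 := geom_low j (n + 1)
  have h5 := special_part n j hj
  linarith

lemma expo_le (j : ℕ) :
    Real.exp (-(48 * mm j) * (Nat.log 2 j * hh j - 3 / 16) + (48 * mm j) ^ 2 * (1 / 4))
      ≤ Real.exp 1200 * (4 / ((j:ℝ) + 1) ^ 2) := by
  have hm := mm_pos j
  have hsq : (600:ℝ) * (mm j) ^ 2 ≤ Nat.log 2 j + 1200 := by exact_mod_cast mm_sq j
  set p := Nat.log 2 j with hp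
  have hp0 : (0:ℝ) ≤ p := by positivity
  have e : -(48 * (mm j : ℝ)) * (p * hh j - 3 / 16) + (48 * mm j) ^ 2 * (1 / 4)
      = -3 * p + 9 * mm j + 576 * (mm j) ^ 2 := by
    unfold hh; field_simp; ring
  have h1 : -3 * (p:ℝ) + 9 * mm j + 576 * (mm j) ^ 2 ≤ 1200 + -(2 * p) := by nlinarith
  rw [e]
  refine (Real.exp_le_exp.2 h1).trans ?_
  rw [Real.exp_add]
  refine mul_le_mul_of_nonneg_left ?_ (Real.exp_pos _).le
  have h2 : (j:ℝ) + 1 ≤ 2 * 2 ^ p := by
    have := Nat.lt_pow_succ_log_self (b := 2) (by norm_num) j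
    rw [pow_succ'] at this
    exact_mod_cast this
  have h3 : (2:ℝ) ^ p ≤ Real.exp p := by
    have : (2:ℝ) ≤ Real.exp 1 := by have := Real.add_one_le_exp 1; linarith
    calc (2:ℝ) ^ p ≤ Real.exp 1 ^ p := pow_le_pow_left₀ (by norm_num) this p
      _ = Real.exp p := by rw [← Real.exp_nat_mul]; simp
  have h4 : ((j:ℝ) + 1) ^ 2 ≤ (2 * Real.exp p) ^ 2 :=
    pow_le_pow_left₀ (by positivity) (by linarith) 2
  have h5 : Real.exp (-(2 * p)) * (Real.exp p) ^ 2 = 1 := by
    rw [← Real.exp_nat_mul, ← Real.exp_add]; simp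
  rw [le_div_iff₀ (by positivity)]
  have h6 := Real.exp_pos (-(2 * (p:ℝ)))
  nlinarith

lemma sum_inv_sq (N : ℕ) : ∑ j ∈ range N, 4 / ((j:ℝ) + 1) ^ 2 ≤ 8 := by
  have key : ∀ N : ℕ, ∑ j ∈ range N, 4 / ((j:ℝ) + 1) ^ 2 ≤ 8 - 8 / ((N:ℝ) + 1) := by
    intro N
    induction N with
    | zero => simp
    | succ N ih =>
      rw [Finset.sum_range_succ]
      push_cast
      have h0 : (0:ℝ) ≤ N := by positivity
      have : 4 / ((N:ℝ) + 1) ^ 2 ≤ 8 / ((N:ℝ) + 1) - 8 / ((N:ℝ) + 1 + 1) := by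
        rw [div_sub_div _ _ (by positivity) (by positivity), div_le_div_iff₀ (by positivity)
          (by positivity)]
        nlinarith
      linarith
  have := key N
  have h : 0 ≤ 8 / ((N:ℝ) + 1) := by positivity
  linarith

end Pool.Agent.H433Z.Sand
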