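import Pool.Agent.H433Z.SandTree

/-! The binary tree with pendant leaves at the levels that are powers of two. -/

set_option autoImplicit false

namespace Pool.Agent.H433Z.Sand

open Finset Filter Topology
open Classical

/-- the special levels -/
def E (i : ℕ) : Prop := ∃ q : ℕ, i = 2 ^ q

/-- vertices: words, and one pendant leaf for each word whose length is special -/
abbrev Vt := List Bool ⊕ {l : List Bool // E l.length}

/-- the word below a vertex -/
def base : Vt → List Bool
  | .inl x => x
  | .inr l => l.1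

/-- the level of a vertex -/
def lev (v : Vt) : ℕ := (base v).length

/-- adjacency -/
def adj : Vt → Vt → Prop
  | .inl x, .inl y => (∃ b, y = b :: x) ∨ (∃ b, x = b :: y)
  | .inl x, .inr l => l.1 = x
  | .inr l, .inl x => l.1 = x
  | .inr _, .inr _ => False

/-- the graph -/
def Gr : SimpleGraph Vt where
  Adj := adj
  symm := ⟨by
    rintro (x | x) (y | y) h
    · exact Or.symm h
    · exact h
    · exact h
    · exact h⟩
  loopless := ⟨by
    rintro (x | x) h
    · rcases h with ⟨b, h⟩ | ⟨b, h⟩ <;>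
      · have := congrArg List.length h; simp at this
    · exact h⟩

/-- parent -/
def par : List Bool → Finset Vt
  | [] => ∅
  | _ :: t => {Sum.inl t}

/-- pendant leaf -/
noncomputable def leaf (x : List Bool) : Finset Vt :=
  if h : E x.length then {Sum.inr ⟨x, h⟩} else ∅

/-- neighbours -/
noncomputable def nbr : Vt → Finset Vt
  | .inl x => {Sum.inl (false :: x), Sum.inl (true :: x)} ∪ par x ∪ leaf x
  | .inr l => {Sum.inl l.1}

lemma mem_par (x : List Bool) (v : Vt) : v ∈ par x ↔ ∃ b t, x = b :: t ∧ v = Sum.inl t := by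
  cases x with
  | nil => simp [par]
  | cons b t => simp [par]

lemma mem_leaf (x : List Bool) (v : Vt) :
    v ∈ leaf x ↔ ∃ h : E x.length, v = Sum.inr ⟨x, h⟩ := by
  unfold leaf
  split_ifs with h
  · simp [h]
  · simp [h]

lemma mem_nbr (v y : Vt) : y ∈ nbr v ↔ Gr.Adj v y := by
  rcases v with x | l
  · rcases y with y | m
    · change _ ↔ (∃ b, y = b :: x) ∨ (∃ b, x = b :: y)
      simp only [nbr, mem_union, mem_insert, mem_singleton, mem_par, mem_leaf, Sum.inl.injEq]
      constructor
      · rintro ((( h | h) | ⟨b, t, h, rfl⟩) | ⟨_, h⟩)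
        · exact Or.inl ⟨_, h⟩
        · exact Or.inl ⟨_, h⟩
        · exact Or.inr ⟨_, h⟩
        · simp at h
      · rintro (⟨b, h⟩ | ⟨b, h⟩)
        · cases b
          · exact Or.inl (Or.inl (Or.inl h))
          · exact Or.inl (Or.inl (Or.inr h))
        · exact Or.inl (Or.inr ⟨b, y, h, rfl⟩)
    · change _ ↔ m.1 = x
      simp only [nbr, mem_union, mem_insert, mem_singleton, mem_par, mem_leaf]
      constructor
      · rintro ((( h | h) | ⟨b, t, _, h⟩) | ⟨_, h⟩)
        · simp at h
        · simp at h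
        · simp at h
        · have := Sum.inr.inj h
          rw [this]
      · intro h
        refine Or.inr ⟨h ▸ m.2, ?_⟩
        subst h; rfl
  · rcases y with y | m
    · change _ ↔ l.1 = y
      simp only [nbr, mem_singleton, Sum.inl.injEq]
      exact eq_comm
    · change _ ↔ False
      simp [nbr]

noncomputable instance instLF : Gr.LocallyFinite := fun v =>
  Fintype.ofFinset (nbr v) (fun y => by simp [mem_nbr])

lemma neighborFinset_eq (v : Vt) : Gr.neighborFinset v = nbr v := by
  ext y; simp [mem_nbr]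

lemma card_nbr_le (v : Vt) : (nbr v).card ≤ 4 := by
  rcases v with x | l
  · have h1 : (par x).card ≤ 1 := by cases x <;> simp [par]
    have h2 : (leaf x).card ≤ 1 := by unfold leaf; split_ifs <;> simp
    have h3 : ({Sum.inl (false :: x), Sum.inl (true :: x)} : Finset Vt).card ≤ 2 :=
      Finset.card_le_two
    have h4 := Finset.card_union_le
      (({Sum.inl (false :: x), Sum.inl (true :: x)} : Finset Vt) ∪ par x) (leaf x)
    have h5 := Finset.card_union_le
      ({Sum.inl (false :: x), Sum.inl (true :: x)} : Finset Vt) (par x)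
    simp only [nbr]
    omega
  · simp [nbr]

lemma card_nbr_pos (v : Vt) : 0 < (nbr v).card := by
  rw [Finset.card_pos]
  rcases v with x | l
  · exact ⟨Sum.inl (false :: x), by simp [nbr]⟩
  · exact ⟨Sum.inl l.1, by simp [nbr]⟩

lemma Gr_connected : Gr.Connected := by
  have h1 : ∀ x : List Bool, Gr.Reachable (Sum.inl []) (Sum.inl x) := by
    intro x
    induction x with
    | nil => rfl
    | cons b t ih =>
      exact ih.trans (SimpleGraph.Adj.reachable (show adj (Sum.inl t) (Sum.inl (b :: t)) from Or.inl ⟨b, rfl⟩))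
  have h2 : ∀ v : Vt, Gr.Reachable (Sum.inl []) v := by
    rintro (x | l)
    · exact h1 x
    · exact (h1 l.1).trans (SimpleGraph.Adj.reachable (show adj (Sum.inl l.1) (Sum.inr l) from rfl))
  exact ⟨fun u v => (h2 u).symm.trans (h2 v)⟩

instance : Infinite Vt := Infinite.of_injective Sum.inl Sum.inl_injective

lemma lev_nbr (v y : Vt) (h : y ∈ nbr v) : lev y ≤ lev v + 1 := by
  rw [mem_nbr] at h
  rcases v with x | l <;> rcases y with y | m
  · rcases h with ⟨b, rfl⟩ | ⟨b, rfl⟩ <;> simp [lev, base]
    omega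
  · have : m.1 = x := h
    simp [lev, base, this]
  · have : l.1 = y := h
    simp [lev, base, this]
  · exact absurd h id

lemma sum_nbr_inl (w : Vt → ℝ) (x : List Bool) :
    ∑ y ∈ nbr (Sum.inl x), (w y - w (Sum.inl x))
      = Lap (fun z => w (Sum.inl z)) x
        + (if h : E x.length then w (Sum.inr ⟨x, h⟩) - w (Sum.inl x) else 0) := by
  simp only [nbr]
  rw [Finset.sum_union, Finset.sum_union, Finset.sum_pair (by simp)]
  · congr 1
    · unfold Lap
      congr 1
      cases x <;> simp [par, up]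
    · unfold leaf
      split_ifs <;> simp
  · rw [Finset.disjoint_left]
    intro a ha hb
    rw [mem_par] at hb
    obtain ⟨b, t, rfl, rfl⟩ := hb
    simp only [mem_insert, mem_singleton, Sum.inl.injEq] at ha
    rcases ha with h | h <;>
    · have := congrArg List.length h; simp at this; omega
  · rw [Finset.disjoint_left]
    intro a ha hb
    rw [mem_leaf] at hb
    obtain ⟨h, rfl⟩ := hb
    simp [mem_par] at ha

/-- the vertices of level at most `n` -/
noncomputable def Bn (n : ℕ) : Finset Vt :=
  (Tn n).disjSum ((Tn n).subtype (fun l => E l.length))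

/-- number of vertices over a word of length `i` -/
noncomputable def Tw (i : ℕ) : ℝ := if E i then 2 else 1

lemma sum_Bn_base (n : ℕ) (F : List Bool → ℝ) :
    ∑ v ∈ Bn n, F (base v) = ∑ y ∈ Tn n, Tw y.length * F y := by
  rw [Bn, Finset.sum_disjSum]
  simp only [base]
  rw [Finset.sum_subtype_eq_sum_filter, Finset.sum_filter, ← Finset.sum_add_distrib]
  refine Finset.sum_congr rfl fun y _ => ?_
  unfold Tw
  split_ifs <;> ring

lemma sum_Bn_g (n : ℕ) (x : List Bool) (Φ : ℕ → ℝ) :
    ∑ v ∈ Bn n, g x (base v) * Φ (lev v)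
      = ∑ i ∈ range (n + 1), gam x.length i * (Tw i * Φ i) := by
  have := sum_Bn_base n (fun y => g x y * Φ y.length)
  simp only [lev]
  rw [this, ← sum_Tn_g n x (fun i => Tw i * Φ i)]
  exact Finset.sum_congr rfl fun y _ => by ring

lemma sum_Bn_delta (n : ℕ) (x : List Bool) (hx : x.length ≤ n) (s : Vt → ℝ) :
    ∑ v ∈ Bn n, (if x = base v then (1:ℝ) else 0) * s v
      = s (Sum.inl x) + (if h : E x.length then s (Sum.inr ⟨x, h⟩) else 0) := by
  rw [Bn, Finset.sum_disjSum]
  simp only [base]
  congr 1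
  · rw [Finset.sum_eq_single x]
    · simp
    · intro b _ hb; simp [Ne.symm hb]
    · intro h; exact absurd ((mem_Tn _ _).2 hx) h
  · split_ifs with h
    · rw [Finset.sum_eq_single ⟨x, h⟩]
      · simp
      · intro b _ hb
        have : ¬ x = b.1 := fun hh => hb (Subtype.ext hh.symm)
        simp [this]
      · intro hh
        exact absurd (by simpa using (mem_Tn _ _).2 hx) hh
    · refine Finset.sum_eq_zero fun b _ => ?_
      have : ¬ x = b.1 := fun hh => h (hh ▸ b.2)
      simp [this]

/-- A local supersolution built from the Green function. -/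
lemma good_of (n : ℕ) (s : Vt → ℝ) (hs : ∀ v, -1 ≤ s v) (N : List Bool → ℝ) (hN : ∀ x, 0 ≤ N x)
    (A : ℝ) (hA : ∀ x : List Bool, x.length ≤ n →
      -(∑ v ∈ Bn n, g x (base v) * s v + A) ≤ N x) :
    ∃ w : Vt → ℝ, (∀ v, 0 ≤ w v) ∧
      w (Sum.inl []) ≤ (∑ v ∈ Bn n, g [] (base v) * s v + A)
        + ∑ y ∈ Tn n, g [] y * (2 * N y) + 1 ∧
      ∀ v, lev v < n → s v + ∑ y ∈ Gr.neighborFinset v, (w y - w v) ≤ 0 := by
  set W : List Bool → ℝ := fun x => ∑ v ∈ Bn n, g x (base v) * s v
    + ∑ y ∈ Tn n, g x y * (2 * N y) + A with hW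
  have hW0 : ∀ x : List Bool, x.length ≤ n → 0 ≤ W x := by
    intro x hx
    have h1 := hA x hx
    have h2 : g x x * (2 * N x) ≤ ∑ y ∈ Tn n, g x y * (2 * N y) :=
      Finset.single_le_sum (f := fun y => g x y * (2 * N y))
        (fun y _ => mul_nonneg (g_nonneg _ _) (by have := hN y; linarith)) ((mem_Tn _ _).2 hx)
    have h3 := g_diag x
    have h4 := hN x
    have h5 : N x ≤ g x x * (2 * N x) := by nlinarith
    simp only [hW]
    linarith
  let w0 : Vt → ℝ := fun v => match v with
    | .inl x => W x + 1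
    | .inr l => W l.1 + 1 + s (Sum.inr l)
  have hw0 : ∀ v, lev v ≤ n → 0 ≤ w0 v := by
    rintro (x | l) hv
    · have := hW0 x hv
      simp only [w0]; linarith
    · have := hW0 l.1 hv
      have := hs (Sum.inr l)
      simp only [w0]; linarith
  have hsup : ∀ v, lev v < n → s v + ∑ y ∈ nbr v, (w0 y - w0 v) ≤ 0 := by
    rintro (x | l) hv
    · have hx : x.length ≤ n := le_of_lt hv
      rw [sum_nbr_inl]
      have e1 : Lap (fun z => w0 (Sum.inl z)) x
          = Lap (fun z => ∑ v ∈ Bn n, g z (base v) * s v) x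
            + Lap (fun z => ∑ y ∈ Tn n, g z y * (2 * N y)) x := by
        rw [← Lap_add3 _ _ (A + 1)]
        congr 1
        funext z
        simp only [w0, hW]; ring
      have e2 := Lap_sum (Bn n) s (fun v z => g z (base v)) x
      have e3 := Lap_sum (Tn n) (fun y => 2 * N y) (fun y z => g z y) x
      simp only [Lap_g] at e2 e3
      have e4 := sum_Bn_delta n x hx s
      have e5 : ∑ i ∈ Bn n, (-(if x = base i then (1:ℝ) else 0)) * s i
          = -(∑ i ∈ Bn n, (if x = base i then (1:ℝ) else 0) * s i) := by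
        rw [← Finset.sum_neg_distrib]
        exact Finset.sum_congr rfl fun i _ => by ring
      have e6 : ∑ i ∈ Tn n, (-(if x = i then (1:ℝ) else 0)) * (2 * N i) ≤ 0 := by
        refine Finset.sum_nonpos fun i _ => ?_
        have := hN i
        split_ifs <;> nlinarith
      rw [e1, e2, e3, e5, e4]
      split_ifs with h
      · simp only [w0]; linarith
      · linarith
    · simp [nbr, w0]
  refine ⟨fun v => max (w0 v) 0, fun v => le_max_right _ _, ?_, ?_⟩
  · have := hw0 (Sum.inl []) (by simp [lev, base])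
    beta_reduce
    rw [max_eq_left this]
    simp only [w0, hW]; linarith
  · intro v hv
    rw [neighborFinset_eq]
    have e : ∀ y ∈ nbr v, max (w0 y) 0 - max (w0 v) 0 = w0 y - w0 v := by
      intro y hy
      have := lev_nbr v y hy
      rw [max_eq_left (hw0 y (by omega)), max_eq_left (hw0 v hv.le)]
    rw [Finset.sum_congr rfl e]
    exact hsup v hv

/-- Compactness: local supersolutions bounded at one vertex give a global one. -/
lemma global_of_local {V : Type} (G : SimpleGraph V) [G.LocallyFinite] (hc : G.Connected) (o : V)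
    (s : V → ℝ) (C : ℝ) (lv : V → ℕ)
    (h : ∀ n, ∃ w : V → ℝ, (∀ v, 0 ≤ w v) ∧ w o ≤ C ∧
      ∀ x, lv x < n → s x + ∑ y ∈ G.neighborFinset x, (w y - w x) ≤ 0) :
    ∃ w : V → ℝ, (∀ v, 0 ≤ w v) ∧ ∀ x, s x + ∑ y ∈ G.neighborFinset x, (w y - w x) ≤ 0 := by
  choose w hw0 hwo hw using h
  have step : ∀ x y, G.Adj x y → (∃ M, ∀ᶠ n in atTop, w n x ≤ M) →
      (∃ M, ∀ᶠ n in atTop, w n y ≤ M) := by
    rintro x y hxy ⟨M, hM⟩
    refine ⟨(G.neighborFinset x).card * M - s x, ?_⟩
    filter_upwards [hM, eventually_gt_atTop (lv x)] with n h1 h2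
    have h3 := hw n x h2
    rw [Finset.sum_sub_distrib, Finset.sum_const, nsmul_eq_mul] at h3
    have h4 : w n y ≤ ∑ z ∈ G.neighborFinset x, w n z :=
      Finset.single_le_sum (f := fun z => w n z) (fun z _ => hw0 n z) (by simpa using hxy)
    have h5 : ((G.neighborFinset x).card : ℝ) * w n x ≤ (G.neighborFinset x).card * M :=
      mul_le_mul_of_nonneg_left h1 (by positivity)
    linarith
  have walk : ∀ (a b : V) (p : G.Walk a b), (∃ M, ∀ᶠ n in atTop, w n a ≤ M) →
      (∃ M, ∀ᶠ n in atTop, w n b ≤ M) := by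
    intro a b p
    induction p with
    | nil => exact id
    | cons hadj _ ih => exact fun h => ih (step _ _ hadj h)
  have bd : ∀ v, ∃ M, ∀ᶠ n in atTop, w n v ≤ M := by
    intro v
    obtain ⟨p⟩ := hc.preconnected o v
    exact walk o v p ⟨C, Eventually.of_forall hwo⟩
  let U : Ultrafilter ℕ := hyperfilter ℕ
  have hU : (U : Filter ℕ) ≤ atTop := by
    rw [← Nat.cofinite_eq_atTop]; exact hyperfilter_le_cofinite
  have lim : ∀ v, ∃ a : ℝ, Tendsto (fun n => w n v) U (𝓝 a) := by
    intro v
    obtain ⟨M, hM⟩ := bd v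
    have hc : IsCompact (Set.Icc (0:ℝ) M) := isCompact_Icc
    have hle : ((U.map fun n => w n v : Ultrafilter ℝ) : Filter ℝ) ≤ 𝓟 (Set.Icc (0:ℝ) M) := by
      rw [Ultrafilter.coe_map, le_principal_iff, Filter.mem_map]
      filter_upwards [hU hM] with n hn
      exact ⟨hw0 n v, hn⟩
    obtain ⟨a, _, ha⟩ := hc.ultrafilter_le_nhds _ hle
    exact ⟨a, ha⟩
  choose u hu using lim
  refine ⟨u, fun v => ge_of_tendsto' (hu v) (fun n => hw0 n v), fun x => ?_⟩
  have ht : Tendsto (fun n => s x + ∑ y ∈ G.neighborFinset x, (w n y - w n x)) U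
      (𝓝 (s x + ∑ y ∈ G.neighborFinset x, (u y - u x))) :=
    tendsto_const_nhds.add (tendsto_finsetSum _ fun y _ => (hu y).sub (hu x))
  refine le_of_tendsto ht ?_
  filter_upwards [hU (eventually_gt_atTop (lv x))] with n hn
  exact hw n x hn

end Pool.Agent.H433Z.Sand
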