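import Pool.Agent.H433Z.SandEst

/-! With probability at least one half the sandpile stabilizes. -/

set_option autoImplicit false

namespace Pool.Agent.H433Z.Sand

open Finset Filter Topology MeasureTheory ProbabilityTheory
open Classical

/-- centred truncated sum seen from `x` -/
noncomputable def Y (n : ℕ) (x : List Bool) (σ : Vt → ℝ) : ℝ :=
  ∑ v ∈ Bn n, g x (base v) *
    (tr (lev v - x.length) (σ v) - (1 / 16 - hh (lev v - x.length)))

/-- drift seen from level `j` -/
noncomputable def Cc (j : ℕ) : ℝ := Nat.log 2 j * hh j - 3 / 16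

/-- correction term -/
noncomputable def NN (n : ℕ) (σ : Vt → ℝ) (x : List Bool) : ℝ :=
  Real.exp (-(48 * mm x.length) * (Y n x σ + Cc x.length))

/-- the constant -/
noncomputable def K1 : ℝ := Real.exp 1 + 16 * Real.exp 1200

/-- the part of the bound at the root -/
noncomputable def R1 (n : ℕ) (σ : Vt → ℝ) : ℝ :=
  Real.exp (Y n [] σ) + ∑ y ∈ Tn n, g [] y * (2 * NN n σ y)

/-- number of large values -/
noncomputable def R2 (n : ℕ) (σ : Vt → ℝ) : ℝ := ∑ v ∈ Bn n, big (lev v) (σ v)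

lemma K1_pos : 0 < K1 := by unfold K1; positivity

lemma R1_nonneg (n : ℕ) (σ : Vt → ℝ) : 0 ≤ R1 n σ := by
  unfold R1 NN
  exact add_nonneg (Real.exp_pos _).le
    (Finset.sum_nonneg fun y _ => mul_nonneg (g_nonneg _ _) (by positivity))

lemma R2_nonneg (n : ℕ) (σ : Vt → ℝ) : 0 ≤ R2 n σ :=
  Finset.sum_nonneg fun _ _ => big_nonneg _ _

lemma root_moment (n : ℕ) : Integrable (fun σ => Real.exp (Y n [] σ)) PP ∧
    ∫ σ, Real.exp (Y n [] σ) ∂PP ≤ Real.exp 1 := by
  have h := exp_moment (Bn n) (fun v => g [] (base v)) (fun v => lev v - ([] : List Bool).length)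
    (fun v _ t => by
      rw [g_nil]
      have := tr_le (lev v - ([] : List Bool).length) t
      simp only [List.length_nil, Nat.sub_zero, lev] at this ⊢
      rw [one_div, inv_mul_le_iff₀ (by positivity)]
      linarith)
  refine ⟨h.1, h.2.trans (Real.exp_le_exp.2 ?_)⟩
  have := variance_le n []
  linarith

lemma NN_moment (n : ℕ) (x : List Bool) : Integrable (fun σ => NN n σ x) PP ∧
    ∫ σ, NN n σ x ∂PP ≤ Real.exp 1200 * (4 / ((x.length:ℝ) + 1) ^ 2) := by
  have hm := mm_pos x.length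
  set lam : ℝ := 48 * mm x.length with hlam
  have hl0 : 0 ≤ lam := by positivity
  have h := exp_moment (Bn n) (fun v => -lam * g x (base v)) (fun v => lev v - x.length)
    (fun v _ t => by
      have h1 := g_nonneg x (base v)
      have h2 := tr_nonneg (lev v - x.length) t
      have : 0 ≤ lam * g x (base v) * tr (lev v - x.length) t := by positivity
      linarith)
  have e : ∀ σ, NN n σ x = Real.exp (-lam * Cc x.length) * Real.exp (∑ v ∈ Bn n,
      -lam * g x (base v) * (tr (lev v - x.length) (σ v) - (1 / 16 - hh (lev v - x.length)))) := by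
    intro σ
    rw [← Real.exp_add, NN, Y, ← hlam, mul_add, Finset.mul_sum, add_comm]
    congr 2
    exact Finset.sum_congr rfl fun v _ => by ring
  simp only [e]
  refine ⟨h.1.const_mul _, ?_⟩
  rw [integral_const_mul]
  refine le_trans ?_ (expo_le x.length)
  rw [Real.exp_add]
  refine mul_le_mul_of_nonneg_left (h.2.trans (Real.exp_le_exp.2 ?_)) (Real.exp_pos _).le
  have e2 : ∑ v ∈ Bn n, (-lam * g x (base v)) ^ 2 * vv (lev v - x.length)
      = lam ^ 2 * ∑ v ∈ Bn n, g x (base v) ^ 2 * vv (lev v - x.length) := by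
    rw [Finset.mul_sum]
    exact Finset.sum_congr rfl fun v _ => by ring
  rw [e2]
  exact mul_le_mul_of_nonneg_left (variance_le n x) (by positivity)

lemma R1_moment (n : ℕ) : Integrable (R1 n) PP ∧ ∫ σ, R1 n σ ∂PP ≤ K1 := by
  have i2 : ∀ y ∈ Tn n, Integrable (fun σ => g [] y * (2 * NN n σ y)) PP :=
    fun y _ => ((NN_moment n y).1.const_mul 2).const_mul _
  have i3 := integrable_finsetSum _ i2
  refine ⟨(root_moment n).1.add i3, ?_⟩
  unfold R1
  rw [integral_add (root_moment n).1 i3, integral_finsetSum _ i2]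
  have h1 : ∑ y ∈ Tn n, ∫ σ, g [] y * (2 * NN n σ y) ∂PP
      ≤ ∑ y ∈ Tn n, g [] y * (2 * (Real.exp 1200 * (4 / ((y.length:ℝ) + 1) ^ 2))) := by
    refine Finset.sum_le_sum fun y _ => ?_
    rw [integral_const_mul, integral_const_mul]
    refine mul_le_mul_of_nonneg_left ?_ (g_nonneg _ _)
    have := (NN_moment n y).2
    linarith
  rw [sum_Tn_g n [] (fun i => 2 * (Real.exp 1200 * (4 / ((i:ℝ) + 1) ^ 2)))] at h1
  have e : ∑ i ∈ range (n + 1), gam ([] : List Bool).length i
      * (2 * (Real.exp 1200 * (4 / ((i:ℝ) + 1) ^ 2)))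
      = 2 * Real.exp 1200 * ∑ i ∈ range (n + 1), 4 / ((i:ℝ) + 1) ^ 2 := by
    rw [Finset.mul_sum]
    refine Finset.sum_congr rfl fun i _ => ?_
    simp only [gam, List.length_nil, Nat.zero_le, if_true]
    ring
  rw [e] at h1
  have h2 := sum_inv_sq (n + 1)
  have h3 := (root_moment n).2
  have h4 := Real.exp_pos 1200
  unfold K1
  nlinarith

lemma R2_moment (n : ℕ) : Integrable (R2 n) PP ∧ ∫ σ, R2 n σ ∂PP ≤ 1 / 4 := by
  have i2 : ∀ v ∈ Bn n, Integrable (fun σ : Vt → ℝ => big (lev v) (σ v)) PP := fun v _ =>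
    (measurePreserving_eval_infinitePi (fun _ : Vt => nu) v).integrable_comp_of_integrable
      (integrable_big (lev v))
  refine ⟨integrable_finsetSum _ i2, ?_⟩
  unfold R2
  rw [integral_finsetSum _ i2]
  have e : ∀ v ∈ Bn n, ∫ σ : Vt → ℝ, big (lev v) (σ v) ∂PP
      = g [] (base v) * (2 ^ (lev v) * ∫ t, big (lev v) t ∂nu) := by
    intro v _
    have h1 : ∫ σ : Vt → ℝ, big (lev v) (σ v) ∂PP = ∫ t, big (lev v) t ∂nu := by
      rw [← Measure.infinitePi_map_eval (fun _ : Vt => nu) v,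
        integral_map (measurable_pi_apply v).aemeasurable (big_meas _).aestronglyMeasurable]
    rw [h1, g_nil, lev]
    field_simp
  rw [Finset.sum_congr rfl e, sum_Bn_g n [] (fun i => 2 ^ i * ∫ t, big i t ∂nu)]
  have h2 : ∑ i ∈ range (n + 1), gam ([] : List Bool).length i * (Tw i * (2 ^ i * ∫ t, big i t ∂nu))
      ≤ 2 * ∑ i ∈ range (n + 1), 2 ^ i * ∫ t, big i t ∂nu := by
    rw [Finset.mul_sum]
    refine Finset.sum_le_sum fun i _ => ?_
    simp only [gam, List.length_nil, Nat.zero_le, if_true, one_mul]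
    have : 0 ≤ ∫ t, big i t ∂nu := integral_nonneg fun t => big_nonneg i t
    exact mul_le_mul_of_nonneg_right (Tw_le i) (by positivity)
  have h3 := sum_big (n + 1)
  linarith

/-- a local supersolution with a fixed bound at the root exists -/
def Good (n : ℕ) (σ : Vt → ℝ) : Prop :=
  ∃ w : Vt → ℝ, (∀ v, 0 ≤ w v) ∧ w (Sum.inl []) ≤ 4 * K1 + 1 ∧
    ∀ x, lev x < n → (σ x - 1) + ∑ y ∈ Gr.neighborFinset x, (w y - w x) ≤ 0

lemma good_of_small (n : ℕ) (σ : Vt → ℝ) (h0 : ∀ v, (15 / 16 : ℝ) ≤ σ v)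
    (hR : R1 n σ / (4 * K1) + R2 n σ < 1) : Good n σ := by
  have hK := K1_pos
  have hX : ∀ v, σ v - 1 = X (σ v) - 1 / 16 := by
    intro v
    have := h0 v
    unfold X
    rw [max_eq_left (by linarith)]; ring
  have r1 := R1_nonneg n σ
  have r2 := R2_nonneg n σ
  have r3 : 0 ≤ R1 n σ / (4 * K1) := by positivity
  have hR1 : R1 n σ ≤ 4 * K1 := by
    have : R1 n σ / (4 * K1) ≤ 1 := by linarith
    rwa [div_le_one (by positivity)] at this
  have hbig : ∀ v ∈ Bn n, X (σ v) = tr (lev v) (σ v) := by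
    intro v hv
    have h1 : big (lev v) (σ v) ≤ R2 n σ :=
      Finset.single_le_sum (f := fun v => big (lev v) (σ v)) (fun v _ => big_nonneg _ _) hv
    unfold big at h1
    unfold tr
    split_ifs at h1 ⊢ with h
    · rfl
    · linarith
  have hY : ∀ x : List Bool, Y n x σ = ∑ v ∈ Bn n, g x (base v) * (tr (lev v - x.length) (σ v) - 1 / 16)
      + ∑ i ∈ range (n + 1), gam x.length i * (Tw i * hh (i - x.length)) := by
    intro x
    rw [← sum_Bn_g n x (fun i => hh (i - x.length)), Y, ← Finset.sum_add_distrib]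
    exact Finset.sum_congr rfl fun v _ => by ring
  obtain ⟨w, hw0, hw1, hw2⟩ := good_of n (fun v => σ v - 1) (fun v => by have := h0 v; linarith)
    (NN n σ) (fun x => (Real.exp_pos _).le) (∑ i ∈ range (n + 1), Tw i * hh i) (by
      intro x hx
      have h1 : ∑ v ∈ Bn n, g x (base v) * (tr (lev v - x.length) (σ v) - 1 / 16)
          ≤ ∑ v ∈ Bn n, g x (base v) * (σ v - 1) := by
        refine Finset.sum_le_sum fun v _ => mul_le_mul_of_nonneg_left ?_ (g_nonneg _ _)
        rw [hX]
        have := tr_le_X (lev v - x.length) (σ v)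
        linarith
      have h2 := drift_le n x.length hx
      have h3 := hY x
      have h4 : -(∑ v ∈ Bn n, g x (base v) * (σ v - 1) + ∑ i ∈ range (n + 1), Tw i * hh i)
          ≤ -(Y n x σ + Cc x.length) := by
        unfold Cc; linarith
      refine h4.trans ?_
      unfold NN
      set z := Y n x σ + Cc x.length
      have hm := mm_pos x.length
      have h5 := Real.add_one_le_exp (-(48 * mm x.length) * z)
      rcases le_total 0 z with hz | hz
      · have := Real.exp_pos (-(48 * mm x.length) * z)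
        linarith
      · nlinarith)
  refine ⟨w, hw0, hw1.trans ?_, hw2⟩
  have h3 := hY []
  have e1 : ∑ v ∈ Bn n, g [] (base v) * (tr (lev v - ([] : List Bool).length) (σ v) - 1 / 16)
      = ∑ v ∈ Bn n, g [] (base v) * (σ v - 1) := by
    refine Finset.sum_congr rfl fun v hv => ?_
    rw [hX, hbig v hv]; simp
  have e2 : ∑ i ∈ range (n + 1), gam ([] : List Bool).length i
      * (Tw i * hh (i - ([] : List Bool).length)) = ∑ i ∈ range (n + 1), Tw i * hh i := by
    refine Finset.sum_congr rfl fun i _ => ?_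
    simp [gam]
  rw [e1, e2] at h3
  have h5 := Real.add_one_le_exp (Y n [] σ)
  unfold R1 at hR1
  linarith

lemma bad_le (n : ℕ) : PP {σ | ¬ Good n σ} ≤ ENNReal.ofReal (1 / 2) := by
  have hK := K1_pos
  have hae : ∀ᵐ σ ∂PP, ∀ v, (15 / 16 : ℝ) ≤ σ v := by
    rw [ae_all_iff]
    intro v
    exact (measurePreserving_eval_infinitePi (fun _ : Vt => nu) v).quasiMeasurePreserving.ae ae_nu
  have h1 : PP {σ | ¬ Good n σ} ≤ PP {σ | 1 ≤ R1 n σ / (4 * K1) + R2 n σ} := by
    refine measure_mono_ae ?_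
    filter_upwards [hae] with σ h0 hb
    by_contra hc
    exact hb (good_of_small n σ h0 (not_le.1 hc))
  have i1 := (R1_moment n).1.div_const (4 * K1)
  have h2 := mul_meas_ge_le_integral_of_nonneg (μ := PP)
    (f := fun σ => R1 n σ / (4 * K1) + R2 n σ)
    (Eventually.of_forall fun σ => by
      have r1 := R1_nonneg n σ
      have r2 := R2_nonneg n σ
      change (0:ℝ) ≤ R1 n σ / (4 * K1) + R2 n σ
      positivity) (i1.add (R2_moment n).1) 1
  rw [integral_add i1 (R2_moment n).1, integral_div, one_mul] at h2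
  have h3 : (∫ σ, R1 n σ ∂PP) / (4 * K1) ≤ 1 / 4 := by
    rw [div_le_iff₀ (by positivity)]
    have := (R1_moment n).2
    linarith
  have h4 := (R2_moment n).2
  refine h1.trans ?_
  rw [← ofReal_measureReal]
  exact ENNReal.ofReal_le_ofReal (by linarith)

theorem not_ae_explodes : ¬ ∀ᵐ σ ∂PP, ¬ ∃ u : Vt → ℝ, (∀ x, 0 ≤ u x) ∧
    ∀ x, σ x + (∑ y ∈ Gr.neighborFinset x, u y / (Gr.degree y : ℝ)) - u x ≤ 1 := by
  intro h
  have hdeg : ∀ v, (0:ℝ) < Gr.degree v := by
    intro v
    rw [← SimpleGraph.card_neighborFinset_eq_degree, neighborFinset_eq]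
    exact_mod_cast card_nbr_pos v
  have h1 : ∀ᵐ σ ∂PP, σ ∈ ⋃ n, {σ | ¬ Good n σ} := by
    filter_upwards [h] with σ hσ
    by_contra hc
    simp only [Set.mem_iUnion, Set.mem_ofPred_eq, not_exists, not_not] at hc
    obtain ⟨w, hw0, hw⟩ := global_of_local Gr Gr_connected (Sum.inl []) (fun v => σ v - 1)
      (4 * K1 + 1) lev hc
    refine hσ ⟨fun v => Gr.degree v * w v, fun v => mul_nonneg (hdeg v).le (hw0 v), fun x => ?_⟩
    have h2 := hw x
    rw [Finset.sum_sub_distrib, Finset.sum_const, nsmul_eq_mul,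
      SimpleGraph.card_neighborFinset_eq_degree] at h2
    have e : ∑ y ∈ Gr.neighborFinset x, (Gr.degree y : ℝ) * w y / Gr.degree y
        = ∑ y ∈ Gr.neighborFinset x, w y :=
      Finset.sum_congr rfl fun y _ => by have := hdeg y; field_simp
    rw [e]
    linarith
  have hmono : Monotone (fun n => {σ : Vt → ℝ | ¬ Good n σ}) := by
    intro a b hab σ hσ hb
    obtain ⟨w, h0, h1, h2⟩ := hb
    exact hσ ⟨w, h0, h1, fun x hx => h2 x (lt_of_lt_of_le hx hab)⟩
  have h2 : PP Set.univ ≤ PP (⋃ n, {σ | ¬ Good n σ}) :=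
    measure_mono_ae (h1.mono fun σ hσ _ => hσ)
  rw [hmono.measure_iUnion, measure_univ] at h2
  have h3 := h2.trans (iSup_le bad_le)
  rw [← ENNReal.ofReal_one, ENNReal.ofReal_le_ofReal_iff (by norm_num)] at h3
  norm_num at h3

end Pool.Agent.H433Z.Sand
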