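import Mathlib

/-! Binary tree, its Green function, and level sums. -/

set_option autoImplicit false

namespace Pool.Agent.H433Z.Sand

open Finset

/-- numerator of the Green function of the rooted binary tree -/
noncomputable def K : List Bool → List Bool → ℝ
  | [], _ => 1
  | b :: x, y => K x y + if (b :: x) <:+ y then 2 ^ (2 * x.length + 1) else 0

/-- Green function of the rooted binary tree -/
noncomputable def g (x y : List Bool) : ℝ := K x y / (2 ^ x.length * 2 ^ y.length)

/-- parent part of the tree Laplacian -/
def up (w : List Bool → ℝ) : List Bool → ℝ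
  | [] => 0
  | b :: t => w t - w (b :: t)

/-- the tree Laplacian -/
def Lap (w : List Bool → ℝ) (x : List Bool) : ℝ :=
  (w (false :: x) - w x) + (w (true :: x) - w x) + up w x

lemma K_ge_one (x y : List Bool) : 1 ≤ K x y := by
  induction x with
  | nil => simp [K]
  | cons b x ih =>
    simp only [K]
    split_ifs
    · have : (0:ℝ) ≤ 2 ^ (2 * x.length + 1) := by positivity
      linarith
    · linarith

lemma K_le (x y : List Bool) : K x y ≤ 2 ^ x.length * 2 ^ x.length := by
  induction x with
  | nil => simp [K]
  | cons b x ih =>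
    simp only [K, List.length_cons]
    have h1 : (2:ℝ) ^ (2 * x.length + 1) = 2 * (2 ^ x.length * 2 ^ x.length) := by ring
    have h2 : (2:ℝ) ^ (x.length + 1) * 2 ^ (x.length + 1) = 4 * (2 ^ x.length * 2 ^ x.length) := by
      ring
    have h3 : (0:ℝ) ≤ 2 ^ x.length * 2 ^ x.length := by positivity
    rw [h2]
    split_ifs
    · rw [h1]; linarith
    · linarith

lemma g_nonneg (x y : List Bool) : 0 ≤ g x y := by
  unfold g
  have := K_ge_one x y
  positivity

lemma g_le (x y : List Bool) : g x y ≤ 2 ^ x.length / 2 ^ y.length := by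
  unfold g
  rw [div_le_div_iff₀ (by positivity) (by positivity)]
  have h := K_le x y
  have h3 : (0:ℝ) ≤ 2 ^ y.length := by positivity
  calc K x y * 2 ^ y.length ≤ (2 ^ x.length * 2 ^ x.length) * 2 ^ y.length :=
        mul_le_mul_of_nonneg_right h h3
    _ = _ := by ring

lemma g_nil (y : List Bool) : g [] y = 1 / 2 ^ y.length := by
  simp [g, K]

lemma g_diag (x : List Bool) : 1 / 2 ≤ g x x := by
  unfold g
  cases x with
  | nil => simp [K]; norm_num
  | cons b t =>
    rw [div_le_div_iff₀ (by positivity) (by positivity)]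
    simp only [K, List.length_cons, List.suffix_rfl, if_true]
    have := K_ge_one t (b :: t)
    have h2 : (2:ℝ) ^ (t.length + 1) * 2 ^ (t.length + 1) = 2 * 2 ^ (2 * t.length + 1) := by ring
    rw [h2]
    linarith

lemma suffix_split (x y : List Bool) :
    ((if (false :: x) <:+ y then 1 else 0) + (if (true :: x) <:+ y then 1 else 0)
      + (if x = y then 1 else 0) : ℝ) = if x <:+ y then 1 else 0 := by
  induction y with
  | nil =>
    by_cases h : x = []
    · subst h; simp
    · simp [h]
  | cons c y ih =>
    simp only [List.suffix_cons_iff]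
    by_cases h1 : x = c :: y
    · subst h1
      have a1 : ¬ (false :: c :: y <:+ y) := fun h => by
        have := h.length_le; simp at this
      have a2 : ¬ (true :: c :: y <:+ y) := fun h => by
        have := h.length_le; simp at this
      have a3 : ∀ b : Bool, ¬ (b :: c :: y = c :: y) := fun b h => by
        have := congrArg List.length h; simp at this
      simp [a1, a2, a3]
    · by_cases h2 : x = y
      · subst h2
        have a1 : ∀ b : Bool, ¬ (b :: x <:+ x) := fun b h => by
          have := h.length_le; simp at this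
        cases c <;> simp [a1, h1]
      · have a3 : ∀ b : Bool, ¬ (b :: x = c :: y) := fun b h => h2 (List.cons.inj h).2
        simp only [a3, h1, false_or, if_false, add_zero]
        simpa [h2] using ih

lemma Lap_g (x y : List Bool) : Lap (fun z => g z y) x = -(if x = y then 1 else 0) := by
  have hs := suffix_split x y
  have hy : (0:ℝ) < 2 ^ y.length := by positivity
  have hδ : (if x = y then (1:ℝ) else 0) = 2 ^ x.length * (if x = y then (1:ℝ) else 0) / 2 ^ y.length := by
    split_ifs with h
    · subst h; field_simp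
    · simp
  have e1 : ∀ b : Bool, (if (b :: x) <:+ y then (2:ℝ) ^ (2 * x.length + 1) else 0)
      = 2 ^ (2 * x.length + 1) * (if (b :: x) <:+ y then 1 else 0) := by
    intro b; split_ifs <;> simp
  cases x with
  | nil =>
    simp only [Lap, up, g, K, List.length_cons, List.length_nil] at *
    rw [e1 false, e1 true, hδ]
    simp only [List.nil_suffix, if_true] at hs
    set A : ℝ := if [false] <:+ y then 1 else 0
    set B : ℝ := if [true] <:+ y then 1 else 0
    set C : ℝ := if [] = y then 1 else 0
    have : C = 1 - A - B := by linarith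
    rw [this]
    field_simp
    ring
  | cons c t =>
    have e2 : (if (c :: t) <:+ y then (2:ℝ) ^ (2 * t.length + 1) else 0)
      = 2 ^ (2 * t.length + 1) * (if (c :: t) <:+ y then 1 else 0) := by
      split_ifs <;> simp
    simp only [Lap, up, g, K] at *
    rw [e1 false, e1 true, hδ, e2]
    simp only [List.length_cons]
    set A : ℝ := if false :: c :: t <:+ y then 1 else 0
    set B : ℝ := if true :: c :: t <:+ y then 1 else 0
    set C : ℝ := if c :: t = y then 1 else 0
    set D : ℝ := if c :: t <:+ y then 1 else 0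
    have : C = D - A - B := by linarith
    rw [this]
    field_simp
    ring

lemma Lap_sum {ι : Type*} (F : Finset ι) (a : ι → ℝ) (w : ι → List Bool → ℝ) (x : List Bool) :
    Lap (fun z => ∑ i ∈ F, w i z * a i) x = ∑ i ∈ F, Lap (w i) x * a i := by
  cases x with
  | nil =>
    simp only [Lap, up, add_zero, ← Finset.sum_sub_distrib, ← Finset.sum_add_distrib]
    exact Finset.sum_congr rfl fun i _ => by ring
  | cons c t =>
    simp only [Lap, up, ← Finset.sum_sub_distrib, ← Finset.sum_add_distrib]
    exact Finset.sum_congr rfl fun i _ => by ring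

lemma Lap_add3 (w1 w2 : List Bool → ℝ) (A : ℝ) (x : List Bool) :
    Lap (fun z => w1 z + w2 z + A) x = Lap w1 x + Lap w2 x := by
  cases x with
  | nil => simp only [Lap, up]; ring
  | cons c t => simp only [Lap, up]; ring

/-- the words of length `i` -/
def Lv : ℕ → Finset (List Bool)
  | 0 => {[]}
  | i + 1 => (Lv i).image (List.cons false) ∪ (Lv i).image (List.cons true)

lemma mem_Lv (i : ℕ) (y : List Bool) : y ∈ Lv i ↔ y.length = i := by
  induction i generalizing y with
  | zero => simp [Lv]
  | succ i ih =>
    simp only [Lv, mem_union, mem_image, ih]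
    constructor
    · rintro (⟨a, ha, rfl⟩ | ⟨a, ha, rfl⟩) <;> simp [ha]
    · intro h
      cases y with
      | nil => simp at h
      | cons b t =>
        have ht : t.length = i := by simpa using h
        cases b
        · exact Or.inl ⟨t, ht, rfl⟩
        · exact Or.inr ⟨t, ht, rfl⟩

lemma sum_Lv_succ (i : ℕ) (F : List Bool → ℝ) :
    ∑ y ∈ Lv (i + 1), F y = ∑ y ∈ Lv i, (F (false :: y) + F (true :: y)) := by
  rw [Lv, Finset.sum_union, Finset.sum_image, Finset.sum_image, Finset.sum_add_distrib]
  · intro a _ b _ h; exact (List.cons.inj h).2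
  · intro a _ b _ h; exact (List.cons.inj h).2
  · rw [Finset.disjoint_left]
    intro a ha hb
    simp only [mem_image] at ha hb
    obtain ⟨u, _, rfl⟩ := ha
    obtain ⟨v, _, h⟩ := hb
    simp at h

lemma sum_Lv_one (i : ℕ) : ∑ _y ∈ Lv i, (1:ℝ) = 2 ^ i := by
  induction i with
  | zero => simp [Lv]
  | succ i ih => rw [sum_Lv_succ, Finset.sum_add_distrib, ih]; ring

lemma sum_Lv_suffix (i : ℕ) (x : List Bool) :
    ∑ y ∈ Lv i, (if x <:+ y then (1:ℝ) else 0)
      = if x.length ≤ i then 2 ^ i / 2 ^ x.length else 0 := by
  induction i with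
  | zero =>
    cases x with
    | nil => simp [Lv]
    | cons b t => simp [Lv]
  | succ i ih =>
    by_cases h : x.length = i + 1
    · have e : ∀ y ∈ Lv (i + 1), (if x <:+ y then (1:ℝ) else 0) = if x = y then 1 else 0 := by
        intro y hy
        rw [mem_Lv] at hy
        by_cases hxy : x = y
        · subst hxy; simp
        · have : ¬ x <:+ y := fun hs => hxy (hs.eq_of_length (by omega))
          simp [this, hxy]
      rw [Finset.sum_congr rfl e, Finset.sum_ite_eq, if_pos ((mem_Lv _ _).2 h), if_pos h.le, h]
      simp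
    · rw [sum_Lv_succ]
      have e : ∀ y ∈ Lv i, ((if x <:+ false :: y then (1:ℝ) else 0) + if x <:+ true :: y then 1 else 0)
          = 2 * if x <:+ y then (1:ℝ) else 0 := by
        intro y hy
        rw [mem_Lv] at hy
        have a3 : ∀ b : Bool, ¬ (x = b :: y) := fun b hh => h (by rw [hh]; simp [hy])
        simp only [List.suffix_cons_iff, a3, false_or]
        ring
      rw [Finset.sum_congr rfl e, ← Finset.mul_sum, ih]
      by_cases h2 : x.length ≤ i
      · rw [if_pos h2, if_pos (by omega)]; ring
      · rw [if_neg h2, if_neg (by omega)]; ring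

lemma sum_Lv_K (i : ℕ) (x : List Bool) :
    ∑ y ∈ Lv i, K x y = 2 ^ i * 2 ^ (min i x.length) := by
  induction x with
  | nil => simp only [K, sum_Lv_one]; simp
  | cons b x ih =>
    have e1 : ∀ y, (if (b :: x) <:+ y then (2:ℝ) ^ (2 * x.length + 1) else 0)
        = 2 ^ (2 * x.length + 1) * (if (b :: x) <:+ y then 1 else 0) := by
      intro y; split_ifs <;> simp
    simp only [K, e1]
    rw [Finset.sum_add_distrib, ← Finset.mul_sum, ih, sum_Lv_suffix]
    simp only [List.length_cons]
    by_cases h : x.length + 1 ≤ i
    · rw [if_pos h, min_eq_right h, min_eq_right (by omega)]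
      field_simp
      ring
    · rw [if_neg h, min_eq_left (by omega), min_eq_left (by omega)]
      simp

/-- total Green weight of level `i` seen from level `j` -/
noncomputable def gam (j i : ℕ) : ℝ := if j ≤ i then 1 else 2 ^ i / 2 ^ j

lemma sum_Lv_g (i : ℕ) (x : List Bool) : ∑ y ∈ Lv i, g x y = gam x.length i := by
  have e : ∀ y ∈ Lv i, g x y = K x y / (2 ^ x.length * 2 ^ i) := by
    intro y hy
    rw [mem_Lv] at hy
    rw [g, hy]
  rw [Finset.sum_congr rfl e, ← Finset.sum_div, sum_Lv_K, gam]
  split_ifs with h
  · rw [min_eq_right h]; field_simp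
  · rw [min_eq_left (by omega)]; field_simp

/-- the words of length at most `n` -/
def Tn (n : ℕ) : Finset (List Bool) := (range (n + 1)).biUnion Lv

lemma mem_Tn (n : ℕ) (y : List Bool) : y ∈ Tn n ↔ y.length ≤ n := by
  simp only [Tn, mem_biUnion, mem_range, mem_Lv]
  constructor
  · rintro ⟨i, hi, rfl⟩; omega
  · intro h; exact ⟨_, by omega, rfl⟩

lemma sum_Tn (n : ℕ) (F : List Bool → ℝ) :
    ∑ y ∈ Tn n, F y = ∑ i ∈ range (n + 1), ∑ y ∈ Lv i, F y := by
  rw [Tn, Finset.sum_biUnion]
  intro a _ b _ hab
  rw [Function.onFun, Finset.disjoint_left]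
  intro y ha hb
  rw [mem_Lv] at ha hb
  exact hab (ha.symm.trans hb)

lemma sum_Tn_g (n : ℕ) (x : List Bool) (Φ : ℕ → ℝ) :
    ∑ y ∈ Tn n, g x y * Φ y.length = ∑ i ∈ range (n + 1), gam x.length i * Φ i := by
  rw [sum_Tn]
  refine Finset.sum_congr rfl fun i _ => ?_
  rw [← sum_Lv_g, Finset.sum_mul]
  refine Finset.sum_congr rfl fun y hy => ?_
  rw [(mem_Lv _ _).1 hy]

end Pool.Agent.H433Z.Sand
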